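import Pool.Agent.H653R4.Defs

set_option autoImplicit false
set_option maxHeartbeats 4000000

namespace Pool.Agent.H653R4.CmpAux

open Pool.Agent.H653R4

theorem vm_add {R S : Type} [Ring R] [Ring S] (ρ : R →+* S) {c : ℕ} (x y : Fin c → R) :
    vm ρ (x + y) = vm ρ x + vm ρ y := by
  funext i; simp [vm]

theorem vm_sub {R S : Type} [Ring R] [Ring S] (ρ : R →+* S) {c : ℕ} (x y : Fin c → R) :
    vm ρ (x - y) = vm ρ x - vm ρ y := by
  funext i; simp [vm]

theorem vm_smul {R S : Type} [Ring R] [Ring S] (ρ : R →+* S) {c : ℕ} (s : R) (x : Fin c → R) :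
    vm ρ (s • x) = ρ s • vm ρ x := by
  funext i; simp [vm]

theorem vm_zero {R S : Type} [Ring R] [Ring S] (ρ : R →+* S) {c : ℕ} :
    vm ρ (0 : Fin c → R) = 0 := by
  funext i; simp [vm]

theorem vm_sum {R S : Type} [Ring R] [Ring S] (ρ : R →+* S) {c : ℕ} {ι : Type} (s : Finset ι)
    (f : ι → Fin c → R) : vm ρ (∑ i ∈ s, f i) = ∑ i ∈ s, vm ρ (f i) := by
  classical
  induction s using Finset.induction_on with
  | empty => simp [vm_zero]
  | insert a s ha ih => rw [Finset.sum_insert ha, Finset.sum_insert ha, vm_add, ih]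

theorem rm_el {G H : Type} [Group G] [Group H] (p : G →* H) (g : G) : rm p (el g) = el (p g) := by
  simp [rm, el]

theorem el_mul {G : Type} [Group G] (g h : G) : el (g * h) = el g * el h := by
  simp [el]

theorem el_one {G : Type} [Group G] : el (1 : G) = 1 := by
  simp [el, MonoidAlgebra.one_def]

theorem rm_surj {G H : Type} [Group G] [Group H] (p : G →* H) (hp : Function.Surjective p) :
    Function.Surjective (rm p) := by
  intro x
  induction x using MonoidAlgebra.induction_on with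
  | of h =>
    obtain ⟨g, rfl⟩ := hp h
    exact ⟨el g, rm_el p g⟩
  | add x y hx hy =>
    obtain ⟨a, rfl⟩ := hx
    obtain ⟨b, rfl⟩ := hy
    exact ⟨a + b, map_add _ _ _⟩
  | smul r x hx =>
    obtain ⟨a, rfl⟩ := hx
    exact ⟨r • a, map_zsmul _ _ _⟩

theorem rm_comp {G H K : Type} [Group G] [Group H] [Group K] (p : G →* H) (q : H →* K) (x : ZG G) :
    rm q (rm p x) = rm (q.comp p) x := by
  induction x using MonoidAlgebra.induction_on with
  | of h =>
    change rm q (rm p (el h)) = rm _ (el h)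
    rw [rm_el, rm_el, rm_el]; rfl
  | add x y hx hy => simp only [map_add, hx, hy]
  | smul r x hx =>
    rw [map_zsmul, map_zsmul, map_zsmul, hx]

theorem TT_apply {N G : Type} [Group N] [Group G] (ι : N →* G) (γ : G) {c : ℕ}
    (φ : (Fin c → ZG N) →+ (Fin c → ZG N)) (x : Fin c → ZG G) :
    TT ι γ φ x = ∑ i, x i • (el γ⁻¹ • vm (rm ι) (φ (Pi.single i 1))) := by
  rw [TT, Module.Basis.constr_apply_fintype]
  simp

theorem sl_expand {N : Type} [Group N] (α : N →* N) {c c' : ℕ}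
    (φ : (Fin c → ZG N) →+ (Fin c' → ZG N)) (h : SL α φ) (x : Fin c → ZG N) :
    φ x = ∑ i, rm α (x i) • φ (Pi.single i 1) := by
  conv_lhs => rw [show x = ∑ i, x i • (Pi.single i (1 : ZG N) : Fin c → ZG N) by
    funext j
    simp [Finset.sum_apply, Pi.single_apply]]
  rw [map_sum]
  exact Finset.sum_congr rfl fun i _ => h _ _

section

variable {S J F : Type} [Ring S] [Fintype J] [AddCommGroup F] [Module S F]

theorem dl_add (T : J → F →ₗ[S] F) (v w : J → F) : dl T (v + w) = dl T v + dl T w := by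
  simp only [dl, Pi.add_apply, map_add, ← Finset.sum_add_distrib]
  exact Finset.sum_congr rfl fun j _ => by abel

theorem dl_smul (T : J → F →ₗ[S] F) (s : S) (v : J → F) : dl T (s • v) = s • dl T v := by
  simp only [dl, Pi.smul_apply, map_smul, Finset.smul_sum, smul_sub]

/-- the submodule `span U + δ(B^J)` -/
def LL (T : J → F →ₗ[S] F) (B : Submodule S F) (U : Set F) : Submodule S F where
  carrier := {x | ∃ u ∈ Submodule.span S U, ∃ v : J → F, (∀ j, v j ∈ B) ∧ x = u + dl T v}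
  add_mem' := by
    rintro _ _ ⟨u, hu, v, hv, rfl⟩ ⟨u', hu', v', hv', rfl⟩
    refine ⟨u + u', add_mem hu hu', v + v', fun j => add_mem (hv j) (hv' j), ?_⟩
    rw [dl_add]; abel
  zero_mem' := ⟨0, zero_mem _, 0, fun j => zero_mem _, by simp [dl]⟩
  smul_mem' := by
    rintro s _ ⟨u, hu, v, hv, rfl⟩
    refine ⟨s • u, Submodule.smul_mem _ _ hu, s • v, fun j => Submodule.smul_mem _ _ (hv j), ?_⟩
    rw [dl_smul, smul_add]

theorem dl_mem_LL (T : J → F →ₗ[S] F) (B : Submodule S F) (U : Set F) (v : J → F)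
    (hv : ∀ j, v j ∈ B) : dl T v ∈ LL T B U :=
  ⟨0, zero_mem _, v, hv, by rw [zero_add]⟩

theorem span_le_LL (T : J → F →ₗ[S] F) (B : Submodule S F) (U : Set F) :
    Submodule.span S U ≤ LL T B U := fun u hu => ⟨u, hu, 0, fun _ => zero_mem _, by simp [dl]⟩

end

theorem TT_pres (hTT : TaskTT) {N J G H : Type} [Group N] [Group G] [Group H]
    (α : J → N →* N) (ι : N →* G) (p : G →* H) (γ : J → G) (g : GD α ι p γ) {c : ℕ}
    (A : Submodule (ZG N) (Fin c → ZG N)) (φ : J → (Fin c → ZG N) →+ (Fin c → ZG N))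
    (hsl : ∀ j, SL (α j) (φ j)) (hpres : ∀ j, ∀ a ∈ A, φ j a ∈ A) (j : J)
    (b : Fin c → ZG G) (hb : b ∈ Bx (rm ι) A) : TT ι (γ j) (φ j) b ∈ Bx (rm ι) A := by
  unfold Bx at hb
  induction hb using Submodule.span_induction with
  | mem x hx =>
    obtain ⟨a, ha, rfl⟩ := hx
    rw [hTT N G ι (γ j) (α j) (g.conj j) c (φ j) (hsl j) a]
    exact Submodule.smul_mem _ _ (Submodule.subset_span ⟨_, hpres j a ha, rfl⟩)
  | zero => rw [map_zero]; exact zero_mem _
  | add x y _ _ hx hy => rw [map_add]; exact add_mem hx hy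
  | smul s x _ hx => rw [map_smul]; exact Submodule.smul_mem _ _ hx

end Pool.Agent.H653R4.CmpAux

namespace Pool.Agent.H653R4

open CmpAux

theorem task_Cmp (hTT : TaskTT) (hW : TaskWord) (hSec : TaskSec) : TaskCmp := by
  intro N J G₁ G₂ Q P _ _ _ _ _ _ π₁ π₂ f₁ f₂ ι₁ ιP α γ Ω hc hex huq hs2 g1 g2 hi hw hr hfin c A φ
    hst hFG
  classical
  obtain ⟨U, hUfin, hUB, hU⟩ := hFG
  have surj1 : Function.Surjective f₁ := by
    intro a
    obtain ⟨b, hb⟩ := hs2 (π₁ a)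
    obtain ⟨x, hx, -⟩ := hex a b hb.symm
    exact ⟨x, hx⟩
  have hf2i : ∀ n, f₂ (ιP n) = 1 := fun n => (g2.ker _).2 ⟨n, rfl⟩
  have hπι : ∀ n, π₁ (ι₁ n) = 1 := fun n => (g1.ker _).2 ⟨n, rfl⟩
  have hrr : ∀ a : Fin c → ZG N, vm (rm f₁) (vm (rm ιP) a) = vm (rm ι₁) a := by
    intro a
    funext i
    simp only [vm]
    rw [rm_comp]
    congr 1
    congr 1
    ext n
    exact hi n
  -- (F1)
  have F1 : ∀ j x, vm (rm f₁) (TT ιP (γ j) (φ j) x) = TT ι₁ (f₁ (γ j)) (φ j) (vm (rm f₁) x) := by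
    intro j x
    rw [TT_apply, TT_apply, vm_sum]
    refine Finset.sum_congr rfl fun i _ => ?_
    rw [vm_smul, vm_smul, hrr, rm_el, map_inv]
    rfl
  have F1' : ∀ v : J → (Fin c → ZG P), vm (rm f₁) (dl (fun j => TT ιP (γ j) (φ j)) v) =
      dl (fun j => TT ι₁ (f₁ (γ j)) (φ j)) (fun j => vm (rm f₁) (v j)) := by
    intro v
    unfold dl
    rw [vm_sum]
    exact Finset.sum_congr rfl fun j _ => by rw [vm_sub, F1]
  -- (F2)
  have F2 : ∀ u ∈ Bx (rm ι₁) A, ∃ u' ∈ Bx (rm ιP) A, vm (rm f₁) u' = u := by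
    intro u hu
    unfold Bx at hu
    induction hu using Submodule.span_induction with
    | mem x hx =>
      obtain ⟨a, ha, rfl⟩ := hx
      exact ⟨vm (rm ιP) a, Submodule.subset_span ⟨a, ha, rfl⟩, hrr a⟩
    | zero => exact ⟨0, zero_mem _, vm_zero _⟩
    | add x y _ _ hx hy =>
      obtain ⟨x', hx', rfl⟩ := hx
      obtain ⟨y', hy', rfl⟩ := hy
      exact ⟨x' + y', add_mem hx' hy', vm_add _ _ _⟩
    | smul s x _ hx =>
      obtain ⟨x', hx', rfl⟩ := hx
      obtain ⟨s', rfl⟩ := rm_surj f₁ surj1 s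
      exact ⟨s' • x', Submodule.smul_mem _ _ hx', vm_smul _ _ _⟩
  have F3 : ∀ b ∈ Bx (rm ιP) A, vm (rm f₁) b ∈ Bx (rm ι₁) A := by
    intro b hb
    unfold Bx at hb
    induction hb using Submodule.span_induction with
    | mem x hx =>
      obtain ⟨a, ha, rfl⟩ := hx
      rw [hrr]
      exact Submodule.subset_span ⟨a, ha, rfl⟩
    | zero => rw [vm_zero]; exact zero_mem _
    | add x y _ _ hx hy => rw [vm_add]; exact add_mem hx hy
    | smul s x _ hx => rw [vm_smul]; exact Submodule.smul_mem _ _ hx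
  have F0 : ∀ j, ∀ b ∈ Bx (rm ιP) A, TT ιP (γ j) (φ j) b ∈ Bx (rm ιP) A :=
    fun j b hb => TT_pres hTT α ιP f₂ γ g2 A φ hst.sl hst.pres j b hb
  choose! ℓ hℓ1 hℓ2 using F2
  have hty : ∀ w : List J × N, ∃ e : (Fin c → ZG N) →+ (Fin c → ZG N), w ∈ Ω →
      (SL (MulAut.conj w.2).toMonoidHom e ∧ (∀ x, e x ∈ A) ∧
      ∀ a ∈ A, e a = pw φ w.1 a - el w.2 • a) := by
    intro w
    by_cases h : w ∈ Ω
    · obtain ⟨e, he⟩ := hst.hty w h
      exact ⟨e, fun _ => he⟩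
    · exact ⟨0, fun h' => absurd h' h⟩
  choose e he using hty
  set U' : Set (Fin c → ZG P) := ℓ '' U ∪
    (fun z : (List J × N) × Fin c => vm (rm ιP) (e z.1 (Pi.single z.2 1))) '' (Ω ×ˢ Set.univ)
    with hU'
  have hU'fin : U'.Finite :=
    (hUfin.image _).union ((hfin.prod Set.finite_univ).image _)
  have hU'B : U' ⊆ Bx (rm ιP) A := by
    rintro x (⟨u, hu, rfl⟩ | ⟨⟨w, i⟩, ⟨hw', -⟩, rfl⟩)
    · exact hℓ1 u (hUB hu)
    · exact Submodule.subset_span ⟨_, (he w hw').2.1 _, rfl⟩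
  set T : J → (Fin c → ZG P) →ₗ[ZG P] (Fin c → ZG P) := fun j => TT ιP (γ j) (φ j) with hT
  set B : Submodule (ZG P) (Fin c → ZG P) := Bx (rm ιP) A with hB
  set L := LL T B U' with hL
  have ιA : ∀ a ∈ A, vm (rm ιP) a ∈ B := fun a ha => Submodule.subset_span ⟨a, ha, rfl⟩
  -- (P2)
  have P2 : ∀ w ∈ Ω, ∀ a ∈ A, el ((w.1.map γ).prod) • vm (rm ιP) a -
      el (ιP w.2) • vm (rm ιP) a ∈ L := by
    intro w hwΩ a ha
    obtain ⟨v, hv, hv'⟩ := (hW N J P G₂ α ιP f₂ γ g2 c A φ hst.sl hst.pres).1 w.1 1 a ha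
    obtain ⟨h1, h2, h3⟩ := he w hwΩ
    rw [one_mul, one_smul] at hv'
    rw [hv']
    have e1 : pw φ w.1 a = e w a + el w.2 • a := by rw [h3 a ha]; abel
    rw [e1, vm_add, vm_smul, rm_el]
    have e2 : vm (rm ιP) (e w a) + el (ιP w.2) • vm (rm ιP) a + dl T v
        - el (ιP w.2) • vm (rm ιP) a = vm (rm ιP) (e w a) + dl T v := by abel
    rw [e2]
    refine add_mem ?_ (dl_mem_LL _ _ _ _ hv)
    rw [sl_expand _ _ h1 a, vm_sum]
    refine Submodule.sum_mem _ fun i _ => ?_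
    rw [vm_smul]
    refine Submodule.smul_mem _ _ (span_le_LL _ _ _ (Submodule.subset_span ?_))
    exact Or.inr ⟨(w, i), ⟨hwΩ, trivial⟩, rfl⟩
  have hdl : ∀ v : J → (Fin c → ZG P), (∀ j, v j ∈ B) → dl T v ∈ L := fun v hv =>
    dl_mem_LL _ _ _ _ hv
  -- (P3)
  let R : Subgroup P :=
    { carrier := {r | ∀ b ∈ B, el r • b - b ∈ L}
      one_mem' := by
        intro b _
        rw [el_one, one_smul, sub_self]
        exact zero_mem _
      mul_mem' := by
        intro r s hr' hs' b hb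
        have e1 : el (r * s) • b - b = (el r • (el s • b) - el s • b) + (el s • b - b) := by
          rw [el_mul, mul_smul]; abel
        rw [e1]
        exact add_mem (hr' _ (Submodule.smul_mem _ _ hb)) (hs' b hb)
      inv_mem' := by
        intro r hr' b hb
        have e1 : el r⁻¹ • b - b = -(el r • (el r⁻¹ • b) - el r⁻¹ • b) := by
          rw [← mul_smul, ← el_mul, mul_inv_cancel, el_one, one_smul]; abel
        rw [e1]
        exact neg_mem (hr' _ (Submodule.smul_mem _ _ hb)) }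
  have hRn : ∀ r ∈ R, ∀ g : P, g * r * g⁻¹ ∈ R := by
    intro r hr' g b hb
    have e1 : el (g * r * g⁻¹) • b - b = el g • (el r • (el g⁻¹ • b) - el g⁻¹ • b) := by
      rw [smul_sub, ← mul_smul, ← mul_smul, ← mul_smul, ← el_mul, ← el_mul, ← el_mul,
        mul_inv_cancel, el_one, one_smul]
    rw [e1]
    exact Submodule.smul_mem _ _ (hr' _ (Submodule.smul_mem _ _ hb))
  -- (P4)
  have P4 : ∀ w ∈ Ω, (w.1.map γ).prod * (ιP w.2)⁻¹ ∈ R := by
    intro w hwΩ b hb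
    obtain ⟨a, ha, v, hv, rfl⟩ := (hW N J P G₂ α ιP f₂ γ g2 c A φ hst.sl hst.pres).2 b hb
    have e1 : el ((w.1.map γ).prod * (ιP w.2)⁻¹) • (vm (rm ιP) a + dl T v) -
        (vm (rm ιP) a + dl T v) =
        (el ((w.1.map γ).prod * (ιP w.2)⁻¹) • vm (rm ιP) a - vm (rm ιP) a) +
        (el ((w.1.map γ).prod * (ιP w.2)⁻¹) • dl T v - dl T v) := by
      rw [smul_add]; abel
    rw [e1]
    refine add_mem ?_ (sub_mem (Submodule.smul_mem _ _ (hdl v hv)) (hdl v hv))
    have h2 := P2 w hwΩ (el w.2⁻¹ • a) (Submodule.smul_mem _ _ ha)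
    rw [vm_smul, rm_el, ← mul_smul, ← mul_smul, ← el_mul, ← el_mul, ← map_mul, mul_inv_cancel,
      map_one, el_one, one_smul, map_inv] at h2
    exact h2
  -- (P5)
  have P5 : ∀ r, f₁ r = 1 → r ∈ R := by
    intro r hr1
    have h1 : π₂ (f₂ r) = 1 := by rw [← hc, hr1, map_one]
    have h2 := hr _ h1
    let M : Subgroup G₂ := (R ⊓ f₁.ker).map f₂
    have hMn : M.Normal := by
      refine ⟨?_⟩
      rintro _ ⟨x, ⟨hx1, hx2⟩, rfl⟩ g
      obtain ⟨g', rfl⟩ := g2.surj g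
      refine ⟨g' * x * g'⁻¹, ⟨hRn x hx1 g', ?_⟩, by simp⟩
      change f₁ _ = 1
      rw [map_mul, map_mul, map_inv, show f₁ x = 1 from hx2, mul_one, mul_inv_cancel]
    have h3 : Subgroup.normalClosure {z | ∃ w ∈ Ω, z = f₂ ((w.1.map γ).prod)} ≤ M := by
      apply Subgroup.normalClosure_le_normal
      rintro _ ⟨w, hwΩ, rfl⟩
      refine ⟨(w.1.map γ).prod * (ιP w.2)⁻¹, ⟨P4 w hwΩ, ?_⟩, ?_⟩
      · change f₁ _ = 1
        rw [map_mul, map_inv, hw w hwΩ, hi, mul_inv_cancel]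
      · rw [map_mul, map_inv, hf2i, inv_one, mul_one]
    obtain ⟨r', ⟨h4, h5⟩, h6⟩ := h3 h2
    have h7 : r * r'⁻¹ = 1 := by
      apply huq
      · rw [map_mul, map_inv, hr1, show f₁ r' = 1 from h5, inv_one, mul_one]
      · rw [map_mul, map_inv, h6, mul_inv_cancel]
    have h8 : r = r' := by
      rw [← mul_inv_eq_one]; exact h7
    rw [h8]
    exact h4
  -- (P6)
  have P6 := hSec N G₁ G₂ Q P π₁ π₂ f₁ f₂ ι₁ ιP hc hex huq hs2 hi hf2i hπι g1.inj c A L
    (fun r hr1 b hb => P5 r hr1 b hb)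
  have hspan : ∀ u ∈ Submodule.span (ZG G₁) U, ∃ u' ∈ L, u' ∈ B ∧ vm (rm f₁) u' = u := by
    intro u hu
    induction hu using Submodule.span_induction with
    | mem x hx =>
      refine ⟨ℓ x, span_le_LL _ _ _ (Submodule.subset_span (Or.inl ⟨x, hx, rfl⟩)),
        hℓ1 x (hUB hx), hℓ2 x (hUB hx)⟩
    | zero => exact ⟨0, zero_mem _, zero_mem _, vm_zero _⟩
    | add x y _ _ hx hy =>
      obtain ⟨x', hx', hx'', rfl⟩ := hx
      obtain ⟨y', hy', hy'', rfl⟩ := hy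
      exact ⟨x' + y', add_mem hx' hy', add_mem hx'' hy'', vm_add _ _ _⟩
    | smul s x _ hx =>
      obtain ⟨x', hx', hx'', rfl⟩ := hx
      obtain ⟨s', rfl⟩ := rm_surj f₁ surj1 s
      exact ⟨s' • x', Submodule.smul_mem _ _ hx', Submodule.smul_mem _ _ hx'', vm_smul _ _ _⟩
  refine ⟨U', hU'fin, hU'B, ?_⟩
  intro b hb
  suffices h : b ∈ L by
    obtain ⟨u, hu, v, hv, h⟩ := h
    exact ⟨u, hu, v, hv, h⟩
  obtain ⟨u, hu, v, hv, huv⟩ := hU (vm (rm f₁) b) (F3 b hb)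
  obtain ⟨u', hu'L, hu'B, hu'⟩ := hspan u hu
  have hv' : ∀ j, ℓ (v j) ∈ B := fun j => hℓ1 _ (hv j)
  have hdB : dl T (fun j => ℓ (v j)) ∈ B :=
    Submodule.sum_mem _ fun j _ => sub_mem (F0 j _ (hv' j)) (hv' j)
  have h1 : b - u' - dl T (fun j => ℓ (v j)) ∈ L := by
    apply P6 _ (sub_mem (sub_mem hb hu'B) hdB)
    rw [vm_sub, vm_sub, hu', F1', huv]
    have : (fun j => vm (rm f₁) (ℓ (v j))) = v := by
      funext j
      exact hℓ2 _ (hv j)
    rw [this]
    abel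
  have h2 : b = (b - u' - dl T (fun j => ℓ (v j))) + u' + dl T (fun j => ℓ (v j)) := by abel
  rw [h2]
  exact add_mem (add_mem h1 hu'L) (hdl _ hv')

end Pool.Agent.H653R4
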