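import Pool.Agent.H653R4.Defs

set_option autoImplicit false
set_option maxHeartbeats 4000000

namespace Pool.Agent.H653R4

theorem fpx_mono (S : Type) [Ring S] : ∀ (n : ℕ) (M : Type) [AddCommGroup M] [Module S M],
    FPx S (n + 1) M → FPx S n M
  | 0, _, _, _ => fun _ => trivial
  | n + 1, M, _, _ => by
    rintro ⟨k, f, hf, h⟩
    exact ⟨k, f, hf, fpx_mono S n _ h⟩

theorem core_tower (hN0 : TaskN0) (hNStep : TaskNStep) (hInd : TaskInd) (hStart : TaskStart)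
    (hStep : TaskStep) {N J G₁ G₂ Q P : Type} [Group N] [Group G₁] [Group G₂] [Group Q] [Group P]
    [Fintype J] (π₁ : G₁ →* Q) (f₁ : P →* G₁) (f₂ : P →* G₂) (ι₁ : N →* G₁)
    (ιP : N →* P) (α : J → N →* N) (γ : J → P) (Ω : Set (List J × N))
    (g1 : GD α ι₁ π₁ (fun j => f₁ (γ j))) (g2 : GD α ιP f₂ γ)
    (haw : ∀ w ∈ Ω, aw α w.1 = (MulAut.conj w.2).toMonoidHom) (n : ℕ)
    (hN : FPx (ZG N) (n + 1) (Tr N)) (h2 : FPx (ZG G₂) (n + 2) (Tr G₂))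
    (hQ : FPx (ZG Q) (n + 3) (Tr Q)) : ∀ i k : ℕ, i + k = n →
    ∃ (c : ℕ) (A : Submodule (ZG N) (Fin c → ZG N)) (φ : J → (Fin c → ZG N) →+ (Fin c → ZG N)),
      NSt α Ω c A φ ∧ FPx (ZG N) k A ∧
      State (ZG G₁) J (Tr G₁) i (k + 1) c (Bx (rm ι₁) A) (fun j => TT ι₁ (f₁ (γ j)) (φ j)) ∧
      State (ZG P) J (Tr P) i k c (Bx (rm ιP) A) (fun j => TT ιP (γ j) (φ j)) := by
  intro i
  induction i with
  | zero =>
    intro k hk
    obtain rfl : k = n := by omega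
    obtain ⟨a, b⟩ := hN0 N J α Ω haw
    refine ⟨1, A0 N, fun j => phi0 (α j), a, b _ hN, ?_, ?_⟩
    · exact hStart N J G₁ Q α ι₁ π₁ _ g1 (k + 1) hN hQ
    · exact hStart N J P G₂ α ιP f₂ γ g2 k (fpx_mono _ _ _ hN) h2
  | succ i ih =>
    intro k hk
    obtain ⟨c, A, φ, hst, hA, hs1, hs2⟩ := ih (k + 1) (by omega)
    obtain ⟨c', A', φ', hst', hA', hns⟩ := hNStep N J α Ω haw k c A φ hst hA
    refine ⟨c', A', φ', hst', hA', ?_, ?_⟩
    · exact hStep (ZG G₁) J (Tr G₁) i (k + 1) c c' _ _ _ _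
        (hInd N J G₁ Q α ι₁ π₁ _ g1 c c' A φ A' φ' hst.sl hst'.sl hns) hs1
    · exact hStep (ZG P) J (Tr P) i k c c' _ _ _ _
        (hInd N J P G₂ α ιP f₂ γ g2 c c' A φ A' φ' hst.sl hst'.sl hns) hs2

theorem core (hN0 : TaskN0) (hNStep : TaskNStep) (hInd : TaskInd) (hStart : TaskStart)
    (hStep : TaskStep) (hEA : TaskEndA) (hEB : TaskEndB) (hCmp : TaskCmp)
    {N J G₁ G₂ Q P : Type} [Group N] [Group G₁] [Group G₂] [Group Q] [Group P]
    [Fintype J] (π₁ : G₁ →* Q) (π₂ : G₂ →* Q) (f₁ : P →* G₁) (f₂ : P →* G₂) (ι₁ : N →* G₁)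
    (ιP : N →* P) (α : J → N →* N) (γ : J → P) (Ω : Set (List J × N))
    (hc : ∀ x, π₁ (f₁ x) = π₂ (f₂ x)) (hex : ∀ a b, π₁ a = π₂ b → ∃ x, f₁ x = a ∧ f₂ x = b)
    (huq : ∀ x, f₁ x = 1 → f₂ x = 1 → x = 1) (hs2 : Function.Surjective π₂)
    (g1 : GD α ι₁ π₁ (fun j => f₁ (γ j))) (g2 : GD α ιP f₂ γ) (hi : ∀ n, f₁ (ιP n) = ι₁ n)
    (hw : ∀ w ∈ Ω, f₁ ((w.1.map γ).prod) = ι₁ w.2)
    (hr : ∀ y, π₂ y = 1 → y ∈ Subgroup.normalClosure {z | ∃ w ∈ Ω, z = f₂ ((w.1.map γ).prod)})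
    (hfin : Ω.Finite)
    (haw : ∀ w ∈ Ω, aw α w.1 = (MulAut.conj w.2).toMonoidHom) (n : ℕ)
    (hN : FPx (ZG N) (n + 1) (Tr N)) (h1 : FPx (ZG G₁) (n + 2) (Tr G₁))
    (h2 : FPx (ZG G₂) (n + 2) (Tr G₂))
    (hQ : FPx (ZG Q) (n + 3) (Tr Q)) : FPx (ZG P) (n + 2) (Tr P) := by
  obtain ⟨c, A, φ, hst, -, hs1, hs2'⟩ := core_tower hN0 hNStep hInd hStart hStep π₁ f₁ f₂ ι₁ ιP α γ Ω
    g1 g2 haw n hN h2 hQ n 0 (by omega)
  refine hEB _ J _ n c _ _ hs2' ?_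
  refine hCmp N J G₁ G₂ Q P π₁ π₂ f₁ f₂ ι₁ ιP α γ Ω hc hex huq hs2 g1 g2 hi hw hr hfin c A φ hst ?_
  exact hEA _ J _ n c _ _ hs1 h1

theorem aw_spec {N J G : Type} [Group N] [Group G] (α : J → N →* N) (ι : N →* G) (γ : J → G)
    (h : ∀ j n, ι (α j n) = γ j * ι n * (γ j)⁻¹) (w : List J) (n : N) :
    ι (aw α w n) = (w.map γ).prod * ι n * ((w.map γ).prod)⁻¹ := by
  induction w with
  | nil => simp [aw]
  | cons j w ih =>
    simp only [aw, MonoidHom.comp_apply, List.map_cons, List.prod_cons, h, ih]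
    group

theorem group_level (hN0 : TaskN0) (hNStep : TaskNStep) (hInd : TaskInd) (hStart : TaskStart)
    (hStep : TaskStep) (hEA : TaskEndA) (hEB : TaskEndB) (hCmp : TaskCmp) (hExt : TaskFPExt)
    (hRel : TaskRel) (hResA : TaskResA) (hResB : TaskResB) (n : ℕ)
    (Γ₁ Γ₂ Q : Type) [Group Γ₁] [Group Γ₂] [Group Q] (π₁ : Γ₁ →* Q) (π₂ : Γ₂ →* Q)
    (s1 : Function.Surjective π₁) (s2 : Function.Surjective π₂)
    (hN : FPres π₁.ker ∧ FRes n π₁.ker) (h1 : FRes (n + 1) Γ₁) (h2 : FPres Γ₂ ∧ FRes (n + 1) Γ₂)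
    (hQ : FPres Q ∧ FRes (n + 2) Q) :
    FPres (↥(MonoidHom.eqLocus (π₁.comp (MonoidHom.fst Γ₁ Γ₂)) (π₂.comp (MonoidHom.snd Γ₁ Γ₂)))) ∧
    FRes (n + 1)
      (↥(MonoidHom.eqLocus (π₁.comp (MonoidHom.fst Γ₁ Γ₂)) (π₂.comp (MonoidHom.snd Γ₁ Γ₂)))) := by
  classical
  set P := ↥(MonoidHom.eqLocus (π₁.comp (MonoidHom.fst Γ₁ Γ₂)) (π₂.comp (MonoidHom.snd Γ₁ Γ₂)))
    with hP
  let f₁ : P →* Γ₁ := (MonoidHom.fst Γ₁ Γ₂).comp (Subgroup.subtype _)
  let f₂ : P →* Γ₂ := (MonoidHom.snd Γ₁ Γ₂).comp (Subgroup.subtype _)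
  let ι₁ : π₁.ker →* Γ₁ := π₁.ker.subtype
  have memP : ∀ a b, π₁ a = π₂ b → ((a, b) : Γ₁ × Γ₂) ∈
      (MonoidHom.eqLocus (π₁.comp (MonoidHom.fst Γ₁ Γ₂)) (π₂.comp (MonoidHom.snd Γ₁ Γ₂))) :=
    fun a b h => h
  let ιP : π₁.ker →* P :=
    { toFun := fun x => ⟨((x : Γ₁), 1), memP _ _ (by rw [map_one]; exact x.2)⟩
      map_one' := rfl
      map_mul' := fun x y => by
        apply Subtype.ext
        apply Prod.ext
        · rfl
        · exact (mul_one (1 : Γ₂)).symm }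
  have hc : ∀ x : P, π₁ (f₁ x) = π₂ (f₂ x) := fun x => x.2
  have hex : ∀ a b, π₁ a = π₂ b → ∃ x : P, f₁ x = a ∧ f₂ x = b :=
    fun a b h => ⟨⟨(a, b), memP a b h⟩, rfl, rfl⟩
  have huq : ∀ x : P, f₁ x = 1 → f₂ x = 1 → x = 1 := fun x h h' =>
    Subtype.ext (Prod.ext h h')
  have hi : ∀ x, f₁ (ιP x) = ι₁ x := fun x => rfl
  have kerP : ∀ g : P, f₂ g = 1 ↔ ∃ x, ιP x = g := by
    intro g
    constructor
    · intro h
      refine ⟨⟨f₁ g, ?_⟩, ?_⟩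
      · have := hc g
        rw [h, map_one] at this
        exact this
      · apply Subtype.ext
        apply Prod.ext
        · rfl
        · exact h.symm
    · rintro ⟨x, rfl⟩
      rfl
  have surjP : Function.Surjective f₂ := by
    intro b
    obtain ⟨a, ha⟩ := s1 (π₂ b)
    obtain ⟨x, -, hx⟩ := hex a b ha
    exact ⟨x, hx⟩
  have injP : Function.Injective ιP := by
    intro x y h
    have := congrArg f₁ h
    exact Subtype.ext this
  -- generators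
  have hfg : Group.FG Γ₂ := by
    obtain ⟨r, f, S, hf, -⟩ := h2.1
    exact Group.fg_of_surjective hf
  have hmfg : Monoid.FG Γ₂ := Group.fg_iff_monoid_fg.mp hfg
  obtain ⟨S, hS⟩ := (Monoid.fg_def.mp hmfg)
  let J := {x // x ∈ S}
  have hchoose : ∀ j : J, ∃ x : P, f₂ x = j := fun j => surjP j
  choose γ hγ using hchoose
  have hrange : Set.range (fun j : J => f₂ (γ j)) = (S : Set Γ₂) := by
    ext x
    constructor
    · rintro ⟨j, rfl⟩
      simp only [hγ]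
      exact j.2
    · intro hx
      exact ⟨⟨x, hx⟩, hγ _⟩
  have hgen2 : Submonoid.closure (Set.range fun j : J => f₂ (γ j)) = ⊤ := by rw [hrange, hS]
  have hgen1 : Submonoid.closure (Set.range fun j : J => π₁ (f₁ (γ j))) = ⊤ := by
    have : (Set.range fun j : J => π₁ (f₁ (γ j))) = π₂ '' (Set.range fun j : J => f₂ (γ j)) := by
      ext x
      simp only [Set.mem_range, Set.mem_image, hc]
      constructor
      · rintro ⟨j, rfl⟩
        exact ⟨_, ⟨j, rfl⟩, rfl⟩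
      · rintro ⟨_, ⟨j, rfl⟩, rfl⟩
        exact ⟨j, rfl⟩
    rw [this, ← MonoidHom.map_mclosure, hgen2]
    rw [← MonoidHom.mrange_eq_map]
    exact MonoidHom.mrange_eq_top_of_surjective _ s2
  let α : J → π₁.ker →* π₁.ker := fun j => (MulAut.conjNormal (f₁ (γ j))).toMonoidHom
  have hα : ∀ j x, ι₁ (α j x) = f₁ (γ j) * ι₁ x * (f₁ (γ j))⁻¹ := fun j x => by
    exact MulAut.conjNormal_apply _ _
  have g1 : GD α ι₁ π₁ (fun j => f₁ (γ j)) :=
    { inj := Subtype.val_injective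
      surj := s1
      ker := fun g => ⟨fun h => ⟨⟨g, h⟩, rfl⟩, by rintro ⟨x, rfl⟩; exact x.2⟩
      conj := hα
      gen := hgen1 }
  have g2 : GD α ιP f₂ γ :=
    { inj := injP
      surj := surjP
      ker := kerP
      conj := by
        intro j x
        have key : ∀ u v : P, f₁ u = f₁ v → f₂ u = f₂ v → u = v := fun u v h h' =>
          Subtype.ext (Prod.ext h h')
        apply key
        · rw [hi, hα, map_mul, map_mul, map_inv, hi]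
        · rw [map_mul, map_mul, map_inv, (kerP _).2 ⟨_, rfl⟩, (kerP _).2 ⟨_, rfl⟩, mul_one,
            mul_inv_cancel]
      gen := hgen2 }
  -- relators
  obtain ⟨R, hR1, hR2⟩ := hRel Γ₂ Q π₂ s2 (by
    obtain ⟨T, hT⟩ := hfg
    exact ⟨T, hT⟩) hQ.1
  have hword : ∀ y : Γ₂, ∃ w : List J, f₂ ((w.map γ).prod) = y := by
    intro y
    have hy : y ∈ Submonoid.closure (Set.range fun j : J => f₂ (γ j)) := by rw [hgen2]; trivial
    induction hy using Submonoid.closure_induction with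
    | mem x hx =>
      obtain ⟨j, rfl⟩ := hx
      exact ⟨[j], by simp⟩
    | one => exact ⟨[], by simp⟩
    | mul x y _ _ hx hy =>
      obtain ⟨w, hw⟩ := hx
      obtain ⟨w', hw'⟩ := hy
      exact ⟨w ++ w', by rw [List.map_append, List.prod_append, map_mul, hw, hw']⟩
  choose W hW using hword
  have hWn : ∀ y : Γ₂, π₂ y = 1 → ∃ x : π₁.ker, f₁ (((W y).map γ).prod) = ι₁ x := by
    intro y hy
    refine ⟨⟨f₁ (((W y).map γ).prod), ?_⟩, rfl⟩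
    have := hc (((W y).map γ).prod)
    rw [hW, hy] at this
    exact this
  have hWn' : ∀ y : Γ₂, ∃ x : π₁.ker, π₂ y = 1 → f₁ (((W y).map γ).prod) = ι₁ x := by
    intro y
    by_cases h : π₂ y = 1
    · obtain ⟨x, hx⟩ := hWn y h
      exact ⟨x, fun _ => hx⟩
    · exact ⟨1, fun h' => absurd h' h⟩
  choose ν hν using hWn'
  let Ω : Set (List J × π₁.ker) := (fun y => (W y, ν y)) '' (R : Set Γ₂)
  have hfin : Ω.Finite := R.finite_toSet.image _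
  have hw : ∀ w ∈ Ω, f₁ ((w.1.map γ).prod) = ι₁ w.2 := by
    rintro _ ⟨y, hy, rfl⟩
    exact hν y (hR1 y hy)
  have hr : ∀ y, π₂ y = 1 → y ∈ Subgroup.normalClosure {z | ∃ w ∈ Ω, z = f₂ ((w.1.map γ).prod)} := by
    intro y hy
    refine Subgroup.normalClosure_mono ?_ (hR2 y hy)
    intro z hz
    exact ⟨(W z, ν z), ⟨z, hz, rfl⟩, (hW z).symm⟩
  have haw : ∀ w ∈ Ω, aw α w.1 = (MulAut.conj w.2).toMonoidHom := by
    intro w hwΩ
    ext x
    have e1 := aw_spec α ι₁ (fun j => f₁ (γ j)) hα w.1 x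
    have e2 : ((w.1.map fun j => f₁ (γ j)).prod) = ι₁ w.2 := by
      rw [← hw w hwΩ, map_list_prod, List.map_map]
      rfl
    rw [e2] at e1
    exact e1
  have e : FPx (ZG P) (n + 2) (Tr P) :=
    core hN0 hNStep hInd hStart hStep hEA hEB hCmp π₁ π₂ f₁ f₂ ι₁ ιP α γ Ω hc hex huq s2 g1 g2 hi
      hw hr hfin haw n (hResA n _ hN.2) (hResA (n + 1) _ h1) (hResA (n + 1) _ h2.2)
      (hResA (n + 2) _ hQ.2)
  refine ⟨?_, hResB (n + 1) P e⟩
  exact hExt π₁.ker P Γ₂ ιP f₂ injP surjP kerP hN.1 h2.1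

end Pool.Agent.H653R4
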