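import Mathlib

set_option autoImplicit false
set_option maxHeartbeats 4000000

/-! n-(n+1)-(n+2) project (helper653): definitions and tasks for S01591 -/

namespace Pool.Agent.H653R4

/-- `FPx S (n+1) M`: the module `M` is of type `FP_n` over the ring `S` (`FPx S 0` is no condition) -/
def FPx (S : Type) [Ring S] : ℕ → ∀ (M : Type) [AddCommGroup M] [Module S M], Prop
  | 0, _, _, _ => True
  | n + 1, M, _, _ => ∃ (k : ℕ) (f : (Fin k → S) →ₗ[S] M), Function.Surjective f ∧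
      FPx S n (LinearMap.ker f)

/-! ### FP calculus -/

/-- isomorphic modules -/
def TaskEquiv : Prop := ∀ (S : Type) [Ring S] (n : ℕ) (M M' : Type) [AddCommGroup M] [Module S M]
  [AddCommGroup M'] [Module S M'], Nonempty (M ≃ₗ[S] M') → FPx S n M → FPx S n M'

/-- Schanuel: the kernel of every cover by a f.g. free module; both directions -/
def TaskSch : Prop := ∀ (S : Type) [Ring S] (n : ℕ) (M F : Type) [AddCommGroup M] [Module S M]
  [AddCommGroup F] [Module S F] (k : ℕ), Nonempty (F ≃ₗ[S] (Fin k → S)) →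
  ∀ f : F →ₗ[S] M, Function.Surjective f → (FPx S (n + 1) M ↔ FPx S n (LinearMap.ker f))

/-- extensions and quotients -/
def TaskExtn : Prop := ∀ (S : Type) [Ring S] (A B C : Type) [AddCommGroup A] [Module S A]
  [AddCommGroup B] [Module S B] [AddCommGroup C] [Module S C] (f : A →ₗ[S] B) (g : B →ₗ[S] C),
  Function.Injective f → Function.Surjective g → (∀ b, g b = 0 ↔ ∃ a, f a = b) →
  (∀ n, FPx S n A → FPx S n C → FPx S n B) ∧ (∀ n, FPx S n A → FPx S (n + 1) B → FPx S (n + 1) C)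

/-- restriction of scalars along a surjection `ρ : S → S'` -/
def TaskRestr : Prop := ∀ (S S' : Type) [Ring S] [Ring S'] (ρ : S →+* S') [Module S S'],
  (∀ (s : S) (x : S'), s • x = ρ s * x) → Function.Surjective ρ → ∀ n, FPx S n S' →
  ∀ (A : Type) [AddCommGroup A] [Module S A] [Module S' A], (∀ (s : S) (a : A), s • a = ρ s • a) →
    FPx S' n A → FPx S n A

/-! ### The state machine -/

/-- `δ(v) = ∑ (T_j v_j - v_j)` on `F^J` -/
def dl {S J : Type} [Ring S] [Fintype J] {F : Type} [AddCommGroup F] [Module S F]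
    (T : J → F →ₗ[S] F) (v : J → F) : F := ∑ j, (T j (v j) - v j)

/-- the state of the total complex at stage `i` -/
def State (S J : Type) [Ring S] [Fintype J] (M : Type) [AddCommGroup M] [Module S M] (i m c : ℕ)
    (B : Submodule S (Fin c → S)) (T : J → (Fin c → S) →ₗ[S] (Fin c → S)) : Prop :=
  (∀ j, ∀ b ∈ B, T j b ∈ B) ∧
  ∃ (E Z Y : Type) (_ : AddCommGroup E) (_ : Module S E) (_ : AddCommGroup Z) (_ : Module S Z)
    (_ : AddCommGroup Y) (_ : Module S Y) (β : B →ₗ[S] Z) (lam : E →ₗ[S] Z)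
    (π : (J → B) →ₗ[S] E) (η : (LinearMap.range β).comap lam →ₗ[S] Y) (a : ℕ),
    Nonempty (E ≃ₗ[S] (Fin a → S)) ∧ Function.Injective β ∧ Function.Injective π ∧
    (∀ z : Z, ∃ b x, z = β b + lam x) ∧
    (∀ (v : J → B) (b : B), (b : Fin c → S) = dl T (fun j => (v j : Fin c → S)) →
      lam (π v) = β b) ∧
    Function.Surjective η ∧ (∀ x, η x = 0 ↔ ∃ v, π v = (x : E)) ∧ FPx S m Y ∧
    (∀ k, FPx S k Z ↔ FPx S (k + i + 1) M)

/-- one step of a tower over `S` -/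
def SStep (S J : Type) [Ring S] (c c' : ℕ)
    (B : Submodule S (Fin c → S)) (T : J → (Fin c → S) →ₗ[S] (Fin c → S))
    (B' : Submodule S (Fin c' → S)) (T' : J → (Fin c' → S) →ₗ[S] (Fin c' → S)) : Prop :=
  ∃ D : (Fin c' → S) →ₗ[S] (Fin c → S), LinearMap.range D = B ∧ LinearMap.ker D = B' ∧
    ∀ j x, D (T' j x) = T j (D x)

def TaskStep : Prop := ∀ (S J : Type) [Ring S] [Fintype J] (M : Type) [AddCommGroup M]
  [Module S M] (i m c c' : ℕ) (B : Submodule S (Fin c → S))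
  (T : J → (Fin c → S) →ₗ[S] (Fin c → S)) (B' : Submodule S (Fin c' → S))
  (T' : J → (Fin c' → S) →ₗ[S] (Fin c' → S)), SStep S J c c' B T B' T' →
    State S J M i (m + 1) c B T → State S J M (i + 1) m c' B' T'

/-- the finite generation condition `B = span U + δ(B^J)` -/
def FG (S J : Type) [Ring S] [Fintype J] (c : ℕ) (B : Submodule S (Fin c → S))
    (T : J → (Fin c → S) →ₗ[S] (Fin c → S)) : Prop :=
  ∃ U : Set (Fin c → S), U.Finite ∧ U ⊆ B ∧ ∀ b ∈ B, ∃ u ∈ Submodule.span S U,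
    ∃ v : J → (Fin c → S), (∀ j, v j ∈ B) ∧ b = u + dl T v

def TaskEndA : Prop := ∀ (S J : Type) [Ring S] [Fintype J] (M : Type) [AddCommGroup M]
  [Module S M] (n c : ℕ) (B : Submodule S (Fin c → S))
  (T : J → (Fin c → S) →ₗ[S] (Fin c → S)), State S J M n 1 c B T → FPx S (n + 2) M → FG S J c B T

def TaskEndB : Prop := ∀ (S J : Type) [Ring S] [Fintype J] (M : Type) [AddCommGroup M]
  [Module S M] (n c : ℕ) (B : Submodule S (Fin c → S))
  (T : J → (Fin c → S) →ₗ[S] (Fin c → S)), State S J M n 0 c B T → FG S J c B T → FPx S (n + 2) M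

/-! ### Group rings -/

abbrev ZG (G : Type) [Group G] := MonoidAlgebra ℤ G

/-- group element as an element of the group ring -/
noncomputable def el {G : Type} [Group G] (g : G) : ZG G := MonoidAlgebra.of ℤ G g

/-- ring map induced by a group homomorphism -/
noncomputable def rm {G H : Type} [Group G] [Group H] (p : G →* H) : ZG G →+* ZG H :=
  MonoidAlgebra.mapDomainRingHom ℤ p

/-- the kernel of `ℤG → ℤH` as a left ideal; for `H = Unit` the augmentation ideal -/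
noncomputable def KR {G H : Type} [Group G] [Group H] (p : G →* H) : Submodule (ZG G) (ZG G) where
  carrier := {x | rm p x = 0}
  add_mem' := by
    intro a b ha hb
    simp only [Set.mem_setOf_eq] at *
    rw [map_add, ha, hb, add_zero]
  zero_mem' := map_zero _
  smul_mem' := by
    intro c x hx
    simp only [Set.mem_setOf_eq, smul_eq_mul] at *
    rw [map_mul, hx, mul_zero]

/-- the trivial module `ℤ` -/
abbrev Tr (G : Type) [Group G] := ZG G ⧸ KR (1 : G →* Unit)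

/-- entrywise application of a ring map -/
def vm {R S : Type} [Ring R] [Ring S] (ρ : R →+* S) {c : ℕ} (x : Fin c → R) : Fin c → S :=
  fun i => ρ (x i)

/-- the submodule generated by the image of `A` -/
def Bx {R S : Type} [Ring R] [Ring S] (ρ : R →+* S) {c : ℕ} (A : Submodule R (Fin c → R)) :
    Submodule S (Fin c → S) := Submodule.span S (vm ρ '' (A : Set (Fin c → R)))

/-- `T(e_i) = γ⁻¹ φ(e_i)` -/
noncomputable def TT {N G : Type} [Group N] [Group G] (ι : N →* G) (γ : G) {c : ℕ}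
    (φ : (Fin c → ZG N) →+ (Fin c → ZG N)) : (Fin c → ZG G) →ₗ[ZG G] (Fin c → ZG G) :=
  (Pi.basisFun (ZG G) (Fin c)).constr ℕ (fun i => el γ⁻¹ • vm (rm ι) (φ (Pi.single i 1)))

/-- semilinear maps over a group homomorphism -/
def SL {N : Type} [Group N] (α : N →* N) {c c' : ℕ} (φ : (Fin c → ZG N) →+ (Fin c' → ZG N)) : Prop :=
  ∀ (a : ZG N) (x : Fin c → ZG N), φ (a • x) = rm α a • φ x

/-- `φ_w` for a word `w` -/
def pw {J : Type} {C : Type} [AddCommGroup C] (φ : J → C →+ C) : List J → C →+ C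
  | [] => AddMonoidHom.id C
  | j :: w => (φ j).comp (pw φ w)

/-- the homotopy condition for a relator `w` with `w(g) = n` in `N` -/
def Hty {N J : Type} [Group N] {c : ℕ} (A : Submodule (ZG N) (Fin c → ZG N))
    (φ : J → (Fin c → ZG N) →+ (Fin c → ZG N)) (w : List J) (n : N) : Prop :=
  ∃ e : (Fin c → ZG N) →+ (Fin c → ZG N), SL (MulAut.conj n).toMonoidHom e ∧ (∀ x, e x ∈ A) ∧
    ∀ a ∈ A, e a = pw φ w a - el n • a

/-- stage of the tower over `ℤN` -/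
structure NSt {N J : Type} [Group N] (α : J → N →* N) (Ω : Set (List J × N)) (c : ℕ)
    (A : Submodule (ZG N) (Fin c → ZG N)) (φ : J → (Fin c → ZG N) →+ (Fin c → ZG N)) : Prop where
  sl : ∀ j, SL (α j) (φ j)
  pres : ∀ j, ∀ a ∈ A, φ j a ∈ A
  hty : ∀ w ∈ Ω, Hty A φ w.1 w.2

/-- a step of the tower over `ℤN` -/
def NStep {N J : Type} [Group N] (c c' : ℕ)
    (A : Submodule (ZG N) (Fin c → ZG N)) (φ : J → (Fin c → ZG N) →+ (Fin c → ZG N))
    (A' : Submodule (ZG N) (Fin c' → ZG N)) (φ' : J → (Fin c' → ZG N) →+ (Fin c' → ZG N)) : Prop :=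
  ∃ d : (Fin c' → ZG N) →ₗ[ZG N] (Fin c → ZG N), LinearMap.range d = A ∧ LinearMap.ker d = A' ∧
    ∀ j x, d (φ' j x) = φ j (d x)

/-- `w(g)`, conjugation compatible: `α_w = conj by n` -/
def aw {N J : Type} [Group N] (α : J → N →* N) : List J → N →* N
  | [] => MonoidHom.id N
  | j :: w => (α j).comp (aw α w)

def TaskNStep : Prop := ∀ (N J : Type) [Group N] [Finite J] (α : J → N →* N)
  (Ω : Set (List J × N)), (∀ w ∈ Ω, aw α w.1 = (MulAut.conj w.2).toMonoidHom) →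
  ∀ (m c : ℕ) (A : Submodule (ZG N) (Fin c → ZG N)) (φ : J → (Fin c → ZG N) →+ (Fin c → ZG N)),
    NSt α Ω c A φ → FPx (ZG N) (m + 1) A → ∃ (c' : ℕ) (A' : Submodule (ZG N) (Fin c' → ZG N))
      (φ' : J → (Fin c' → ZG N) →+ (Fin c' → ZG N)), NSt α Ω c' A' φ' ∧ FPx (ZG N) m A' ∧
        NStep c c' A φ A' φ'

/-- base stage: `C_0 = ℤN`, `A_0` = augmentation ideal, `φ_j = α_j` -/
noncomputable def A0 (N : Type) [Group N] : Submodule (ZG N) (Fin 1 → ZG N) :=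
  (KR (1 : N →* Unit)).comap (LinearMap.proj 0)

noncomputable def phi0 {N : Type} [Group N] (α : N →* N) : (Fin 1 → ZG N) →+ (Fin 1 → ZG N) :=
  AddMonoidHom.mk' (vm (rm α)) (by intro a b; funext i; simp [vm])

def TaskN0 : Prop := ∀ (N J : Type) [Group N] (α : J → N →* N)
  (Ω : Set (List J × N)), (∀ w ∈ Ω, aw α w.1 = (MulAut.conj w.2).toMonoidHom) →
  NSt α Ω 1 (A0 N) (fun j => phi0 (α j)) ∧
    ∀ m, FPx (ZG N) (m + 1) (Tr N) → FPx (ZG N) m (A0 N)

/-- data of an extension `N → G → H` with elements `γ_j` of `G` acting on `N` by `α_j` -/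
structure GD {N J G H : Type} [Group N] [Group G] [Group H] (α : J → N →* N) (ι : N →* G)
    (p : G →* H) (γ : J → G) : Prop where
  inj : Function.Injective ι
  surj : Function.Surjective p
  ker : ∀ g, p g = 1 ↔ ∃ n, ι n = g
  conj : ∀ j n, ι (α j n) = γ j * ι n * (γ j)⁻¹
  gen : Submonoid.closure (Set.range fun j => p (γ j)) = ⊤

/-- core of induction: the induced map has the induced range and kernel -/
def TaskIC : Prop := ∀ (N G : Type) [Group N] [Group G] (ι : N →* G), Function.Injective ι →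
  ∀ (c c' : ℕ) (d : (Fin c' → ZG N) →ₗ[ZG N] (Fin c → ZG N)),
    ∃ D : (Fin c' → ZG G) →ₗ[ZG G] (Fin c → ZG G), (∀ x, D (vm (rm ι) x) = vm (rm ι) (d x)) ∧
      LinearMap.range D = Bx (rm ι) (LinearMap.range d) ∧
      LinearMap.ker D = Bx (rm ι) (LinearMap.ker d)

/-- the kernel of `ℤG → ℤH` is generated by the augmentation ideal of `N` -/
def TaskKer : Prop := ∀ (N G H : Type) [Group N] [Group G] [Group H] (ι : N →* G) (p : G →* H),
  (∀ g, p g = 1 ↔ ∃ n, ι n = g) → ∀ x : Fin 1 → ZG G, x ∈ Bx (rm ι) (A0 N) ↔ x 0 ∈ KR p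

/-- finiteness of `ℤH = ℤG ⊗ ℤ` -/
def TaskV : Prop := ∀ (N G H : Type) [Group N] [Group G] [Group H] (ι : N →* G) (p : G →* H),
  Function.Injective ι → (∀ g, p g = 1 ↔ ∃ n, ι n = g) → ∀ m, FPx (ZG N) m (Tr N) →
    FPx (ZG G) m (ZG G ⧸ KR p)

/-- formula for `T` on `vm ι x` -/
def TaskTT : Prop := ∀ (N G : Type) [Group N] [Group G] (ι : N →* G) (γ : G) (α : N →* N),
  (∀ n, ι (α n) = γ * ι n * γ⁻¹) → ∀ (c : ℕ) (φ : (Fin c → ZG N) →+ (Fin c → ZG N)), SL α φ →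
  ∀ x, TT ι γ φ (vm (rm ι) x) = el γ⁻¹ • vm (rm ι) (φ x)

/-- words act modulo `δ(B^J)`; every element of `B` is in `ι(A) + δ(B^J)` -/
def TaskWord : Prop := ∀ (N J G H : Type) [Group N] [Group G] [Group H] [Fintype J]
  (α : J → N →* N) (ι : N →* G) (p : G →* H) (γ : J → G), GD α ι p γ → ∀ (c : ℕ)
  (A : Submodule (ZG N) (Fin c → ZG N)) (φ : J → (Fin c → ZG N) →+ (Fin c → ZG N)),
  (∀ j, SL (α j) (φ j)) → (∀ j, ∀ a ∈ A, φ j a ∈ A) →
  (∀ (w : List J) (x : ZG G), ∀ a ∈ A, ∃ v : J → (Fin c → ZG G), (∀ j, v j ∈ Bx (rm ι) A) ∧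
    (x * el (w.map γ).prod) • vm (rm ι) a = x • vm (rm ι) (pw φ w a) +
      dl (fun j => TT ι (γ j) (φ j)) v) ∧
  (∀ b ∈ Bx (rm ι) A, ∃ a ∈ A, ∃ v : J → (Fin c → ZG G), (∀ j, v j ∈ Bx (rm ι) A) ∧
    b = vm (rm ι) a + dl (fun j => TT ι (γ j) (φ j)) v)

/-- a submodule absorbing `(r-1)B` for `r ∈ ker f₁` contains `B ∩ ker` -/
def TaskSec : Prop := ∀ (N G₁ G₂ Q P : Type) [Group N] [Group G₁] [Group G₂] [Group Q] [Group P]
  (π₁ : G₁ →* Q) (π₂ : G₂ →* Q) (f₁ : P →* G₁) (f₂ : P →* G₂) (ι₁ : N →* G₁) (ιP : N →* P),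
  (∀ x, π₁ (f₁ x) = π₂ (f₂ x)) → (∀ a b, π₁ a = π₂ b → ∃ x, f₁ x = a ∧ f₂ x = b) →
  (∀ x, f₁ x = 1 → f₂ x = 1 → x = 1) → Function.Surjective π₂ →
  (∀ n, f₁ (ιP n) = ι₁ n) → (∀ n, f₂ (ιP n) = 1) → (∀ n, π₁ (ι₁ n) = 1) →
  Function.Injective ι₁ →
  ∀ (c : ℕ) (A : Submodule (ZG N) (Fin c → ZG N)) (L : Submodule (ZG P) (Fin c → ZG P)),
    (∀ r, f₁ r = 1 → ∀ b ∈ Bx (rm ιP) A, el r • b - b ∈ L) →
    ∀ b ∈ Bx (rm ιP) A, vm (rm f₁) b = 0 → b ∈ L

def TaskInd : Prop := ∀ (N J G H : Type) [Group N] [Group G] [Group H] (α : J → N →* N)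
  (ι : N →* G) (p : G →* H) (γ : J → G), GD α ι p γ → ∀ (c c' : ℕ)
  (A : Submodule (ZG N) (Fin c → ZG N)) (φ : J → (Fin c → ZG N) →+ (Fin c → ZG N))
  (A' : Submodule (ZG N) (Fin c' → ZG N)) (φ' : J → (Fin c' → ZG N) →+ (Fin c' → ZG N)),
  (∀ j, SL (α j) (φ j)) → (∀ j, SL (α j) (φ' j)) → NStep c c' A φ A' φ' →
    SStep (ZG G) J c c' (Bx (rm ι) A) (fun j => TT ι (γ j) (φ j))
      (Bx (rm ι) A') (fun j => TT ι (γ j) (φ' j))

/-- start of the state machine -/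
def TaskStart : Prop := ∀ (N J G H : Type) [Group N] [Group G] [Group H] [Fintype J]
  (α : J → N →* N) (ι : N →* G) (p : G →* H) (γ : J → G), GD α ι p γ → ∀ m : ℕ,
    FPx (ZG N) m (Tr N) → FPx (ZG H) (m + 2) (Tr H) →
    State (ZG G) J (Tr G) 0 m 1 (Bx (rm ι) (A0 N)) (fun j => TT ι (γ j) (phi0 (α j)))

/-- comparison of the two extensions `N → Γ₁ → Q` and `N → P → Γ₂` -/
def TaskCmp : Prop := ∀ (N J G₁ G₂ Q P : Type) [Group N] [Group G₁] [Group G₂] [Group Q] [Group P]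
  [Fintype J] (π₁ : G₁ →* Q) (π₂ : G₂ →* Q) (f₁ : P →* G₁) (f₂ : P →* G₂) (ι₁ : N →* G₁)
  (ιP : N →* P) (α : J → N →* N) (γ : J → P) (Ω : Set (List J × N)),
  (∀ x, π₁ (f₁ x) = π₂ (f₂ x)) → (∀ a b, π₁ a = π₂ b → ∃ x, f₁ x = a ∧ f₂ x = b) →
  (∀ x, f₁ x = 1 → f₂ x = 1 → x = 1) → Function.Surjective π₂ →
  GD α ι₁ π₁ (fun j => f₁ (γ j)) → GD α ιP f₂ γ → (∀ n, f₁ (ιP n) = ι₁ n) →
  (∀ w ∈ Ω, f₁ ((w.1.map γ).prod) = ι₁ w.2) →
  (∀ y, π₂ y = 1 → y ∈ Subgroup.normalClosure {z | ∃ w ∈ Ω, z = f₂ ((w.1.map γ).prod)}) →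
  Ω.Finite → ∀ (c : ℕ) (A : Submodule (ZG N) (Fin c → ZG N))
    (φ : J → (Fin c → ZG N) →+ (Fin c → ZG N)), NSt α Ω c A φ →
    FG (ZG G₁) J c (Bx (rm ι₁) A) (fun j => TT ι₁ (f₁ (γ j)) (φ j)) →
    FG (ZG P) J c (Bx (rm ιP) A) (fun j => TT ιP (γ j) (φ j))

/-! ### Groups -/

/-- finitely presented, as in the frozen statement -/
def FPres (G : Type) [Group G] : Prop :=
  ∃ (r : ℕ) (f : FreeGroup (Fin r) →* G) (S : Finset (FreeGroup (Fin r))),
    Function.Surjective f ∧ f.ker = Subgroup.normalClosure (↑S : Set (FreeGroup (Fin r)))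

/-- an extension of f.p. by f.p. is f.p. -/
def TaskFPExt : Prop := ∀ (N G H : Type) [Group N] [Group G] [Group H] (ι : N →* G) (p : G →* H),
  Function.Injective ι → Function.Surjective p → (∀ g, p g = 1 ↔ ∃ n, ι n = g) →
  FPres N → FPres H → FPres G

/-- the kernel of a surjection of a f.g. group to a f.p. group is normally f.g. -/
def TaskRel : Prop := ∀ (G Q : Type) [Group G] [Group Q] (π : G →* Q), Function.Surjective π →
  (∃ s : Finset G, Subgroup.closure (s : Set G) = ⊤) → FPres Q →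
  ∃ R : Finset G, (∀ r ∈ R, π r = 1) ∧ ∀ y, π y = 1 → y ∈ Subgroup.normalClosure (R : Set G)

/-- the resolution part of the frozen definition -/
def FRes (m : ℕ) (G : Type) [Group G] : Prop :=
  ∃ (k : ℕ → ℕ) (ε : MonoidAlgebra ℤ G →+* ℤ)
          (d : ∀ i : ℕ, (Fin (k (i+1)) → MonoidAlgebra ℤ G) →ₗ[MonoidAlgebra ℤ G]
                (Fin (k i) → MonoidAlgebra ℤ G)),
          (∀ g : G, ε (MonoidAlgebra.of ℤ G g) = 1) ∧
          (∃ x : Fin (k 0) → MonoidAlgebra ℤ G, ∑ j, ε (x j) = 1) ∧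
          (0 < m → ∀ x : Fin (k 0) → MonoidAlgebra ℤ G,
              (∑ j, ε (x j) = 0 ↔ x ∈ LinearMap.range (d 0))) ∧
          (∀ j : ℕ, j + 2 ≤ m → LinearMap.range (d (j+1)) = LinearMap.ker (d j))

def TaskResA : Prop := ∀ (m : ℕ) (G : Type) [Group G], FRes m G → FPx (ZG G) (m + 1) (Tr G)

def TaskResB : Prop := ∀ (m : ℕ) (G : Type) [Group G], FPx (ZG G) (m + 1) (Tr G) → FRes m G

end Pool.Agent.H653R4
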