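import Pool.Agent.H653R4.Defs

set_option autoImplicit false

/-! Tasks EndA, EndB (helper798): end of the state machine. -/

namespace Pool.Agent.H653R4

namespace EndABH798

lemma sum_std {S V : Type} [Ring S] [AddCommGroup V] [Module S V] {k : ℕ}
    (g : (Fin k → S) →ₗ[S] V) (q : Fin k → S) :
    g q = ∑ i, q i • g (fun j => if i = j then 1 else 0) :=
  LinearMap.pi_apply_eq_sum_univ g q

lemma dl_mem {S J : Type} [Ring S] [Fintype J] {c : ℕ} (B : Submodule S (Fin c → S))
    (T : J → (Fin c → S) →ₗ[S] (Fin c → S)) (hT : ∀ j, ∀ b ∈ B, T j b ∈ B)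
    (v : J → (Fin c → S)) (hv : ∀ j, v j ∈ B) : dl T v ∈ B :=
  B.sum_mem fun j _ => B.sub_mem (hT j _ (hv j)) (hv j)

end EndABH798

open EndABH798

theorem task_EndA : TaskEndA := by
  intro S J _ _ M _ _ n c B T hst hM
  obtain ⟨hT, E, Z, Y, iE1, iE2, iZ1, iZ2, iY1, iY2, β, lam, π, η, a, -, hβ, -, hZ, hcomp, hη,
    hη0, hY, hFP⟩ := hst
  have hZ1 : FPx S 1 Z := by
    rw [hFP 1, show 1 + n + 1 = n + 2 by omega]
    exact hM
  obtain ⟨k, g, hg, -⟩ := hZ1
  obtain ⟨k', h, hh, -⟩ := hY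
  -- the map `f`
  have hf : ∃ f : (LinearMap.range β).comap lam →ₗ[S] B, ∀ x, β (f x) = lam (x : E) := by
    refine ⟨(LinearEquiv.ofInjective β hβ).symm.toLinearMap ∘ₗ
      LinearMap.codRestrict (LinearMap.range β) (lam ∘ₗ ((LinearMap.range β).comap lam).subtype)
        (fun x => x.2), fun x => ?_⟩
    have h1 := (LinearEquiv.ofInjective β hβ).apply_symm_apply
      ⟨lam (x : E), x.2⟩
    have h2 := congrArg Subtype.val h1
    exact h2
  obtain ⟨f, hf⟩ := hf
  choose bb xx hbx using fun i : Fin k => hZ (g (fun j => if i = j then 1 else 0))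
  choose w hw using fun l : Fin k' => hη (h (fun j => if l = j then 1 else 0))
  refine ⟨Set.range (fun i => (bb i : Fin c → S)) ∪ Set.range (fun l => (f (w l) : Fin c → S)),
    (Set.finite_range _).union (Set.finite_range _), ?_, ?_⟩
  · rintro _ (⟨i, rfl⟩ | ⟨l, rfl⟩)
    · exact (bb i).2
    · exact (f (w l)).2
  · intro b hb
    obtain ⟨q, hq⟩ := hg (β ⟨b, hb⟩)
    rw [sum_std] at hq
    have hq2 : β (∑ i, q i • bb i) + lam (∑ i, q i • xx i) = β ⟨b, hb⟩ := by
      rw [map_sum, map_sum, ← hq, ← Finset.sum_add_distrib]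
      refine Finset.sum_congr rfl fun i _ => ?_
      rw [map_smul, map_smul, ← smul_add, ← hbx i]
    have hx : lam (∑ i, q i • xx i) = β (⟨b, hb⟩ - ∑ i, q i • bb i) := by
      rw [map_sub, ← hq2, add_sub_cancel_left]
    set X : (LinearMap.range β).comap lam := ⟨∑ i, q i • xx i, ⟨_, hx.symm⟩⟩ with hX
    have hfX : f X = ⟨b, hb⟩ - ∑ i, q i • bb i := by
      apply hβ
      rw [hf X, ← hx]
    obtain ⟨t, ht⟩ := hh (η X)
    rw [sum_std] at ht
    have ht2 : η (X - ∑ l, t l • w l) = 0 := by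
      rw [map_sub, map_sum, ← ht, sub_eq_zero]
      refine Finset.sum_congr rfl fun l _ => ?_
      rw [map_smul, hw l]
    obtain ⟨v, hv⟩ := (hη0 _).mp ht2
    have hD : dl T (fun j => (v j : Fin c → S)) ∈ B := dl_mem B T hT _ (fun j => (v j).2)
    have h3 := hcomp v ⟨_, hD⟩ rfl
    have h4 : f (X - ∑ l, t l • w l) = ⟨dl T (fun j => (v j : Fin c → S)), hD⟩ := by
      apply hβ
      rw [hf, ← hv, h3]
    rw [map_sub, hfX, map_sum, sub_sub, sub_eq_iff_eq_add] at h4
    have h5 := congrArg Subtype.val h4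
    refine ⟨(∑ i, q i • (bb i : Fin c → S)) + ∑ l, t l • (f (w l) : Fin c → S), ?_,
      fun j => (v j : Fin c → S), fun j => (v j).2, ?_⟩
    · refine Submodule.add_mem _ (Submodule.sum_mem _ fun i _ => Submodule.smul_mem _ _
        (Submodule.subset_span (Or.inl ⟨i, rfl⟩))) (Submodule.sum_mem _ fun l _ =>
          Submodule.smul_mem _ _ (Submodule.subset_span (Or.inr ⟨l, rfl⟩)))
    · simp only [map_smul, Submodule.coe_add, Submodule.coe_sum, Submodule.coe_smul] at h5
      rw [h5]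
      abel

theorem task_EndB : TaskEndB := by
  intro S J _ _ M _ _ n c B T hst hFG
  obtain ⟨hT, E, Z, Y, iE1, iE2, iZ1, iZ2, iY1, iY2, β, lam, π, η, a, ⟨eE⟩, hβ, -, hZ, hcomp, hη,
    hη0, hY, hFP⟩ := hst
  obtain ⟨U, hU, hUB, hUgen⟩ := hFG
  rw [show n + 2 = 1 + n + 1 by omega, ← hFP 1]
  have hEf : Module.Finite S E := Module.Finite.equiv eE.symm
  set UB : Set B := Subtype.val ⁻¹' U with hUBdef
  have hUBf : UB.Finite := hU.preimage (Subtype.val_injective.injOn)
  have hspan : Submodule.span S (β '' UB) ⊔ LinearMap.range lam = ⊤ := by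
    rw [eq_top_iff]
    rintro z -
    obtain ⟨b, x, rfl⟩ := hZ z
    refine Submodule.add_mem _ ?_ (Submodule.mem_sup_right ⟨x, rfl⟩)
    obtain ⟨u, hu, v, hv, hb⟩ := hUgen b b.2
    have hu2 : u ∈ (Submodule.span S UB).map B.subtype := by
      rw [Submodule.map_span]
      have e : B.subtype '' UB = U := by
        rw [hUBdef]
        ext y
        constructor
        · rintro ⟨y', hy', rfl⟩
          exact hy'
        · intro hy
          exact ⟨⟨y, hUB hy⟩, hy, rfl⟩
      rw [e]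
      exact hu
    obtain ⟨u', hu', rfl⟩ := hu2
    have hD : dl T v ∈ B := dl_mem B T hT _ hv
    have h1 := hcomp (fun j => ⟨v j, hv j⟩) ⟨_, hD⟩ rfl
    have h2 : b = u' + ⟨dl T v, hD⟩ := by
      apply Subtype.ext
      rw [hb]
      rfl
    rw [h2, map_add, ← h1]
    refine Submodule.add_mem _ (Submodule.mem_sup_left ?_) (Submodule.mem_sup_right ⟨_, rfl⟩)
    rw [← Submodule.map_span]
    exact ⟨u', hu', rfl⟩
  have hfin : Module.Finite S Z := by
    refine ⟨?_⟩
    rw [← hspan]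
    refine Submodule.FG.sup (Submodule.fg_span (hUBf.image β)) ?_
    rw [LinearMap.range_eq_map]
    exact hEf.fg_top.map lam
  obtain ⟨k, f, hf⟩ := Module.Finite.exists_fin' S Z
  exact ⟨k, f, hf, trivial⟩

end Pool.Agent.H653R4
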