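import Pool.Agent.H653R4.Defs

set_option autoImplicit false
set_option maxHeartbeats 4000000

namespace Pool.Agent.H653R4

theorem extn_one (hS : TaskSch) (S : Type) [Ring S] (n : ℕ) : ∀ (A B C : Type) [AddCommGroup A]
    [Module S A] [AddCommGroup B] [Module S B] [AddCommGroup C] [Module S C] (f : A →ₗ[S] B)
    (g : B →ₗ[S] C), Function.Injective f → Function.Surjective g →
    (∀ b, g b = 0 ↔ ∃ a, f a = b) → FPx S n A → FPx S n C → FPx S n B := by
  induction n with
  | zero => intros; trivial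
  | succ n ih =>
    intro A B C _ _ _ _ _ _ f g hf hg hfg hA hC
    obtain ⟨a, α, hα, kα⟩ := hA
    obtain ⟨c, γ, hγ, kγ⟩ := hC
    obtain ⟨γ', hγ'⟩ := Module.projective_lifting_property g γ hg
    have hγ'' : ∀ y, g (γ' y) = γ y := fun y => LinearMap.congr_fun hγ' y
    let β : ((Fin a → S) × (Fin c → S)) →ₗ[S] B := LinearMap.coprod (f.comp α) γ'
    have hβ : ∀ x y, β (x, y) = f (α x) + γ' y := fun x y => by simp [β]
    have hgf : ∀ x, g (f x) = 0 := fun x => (hfg _).2 ⟨x, rfl⟩
    have hβs : Function.Surjective β := by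
      intro b
      obtain ⟨y, hy⟩ := hγ (g b)
      obtain ⟨u, hu⟩ := (hfg (b - γ' y)).1 (by rw [map_sub, hγ'', hy, sub_self])
      obtain ⟨x, rfl⟩ := hα u
      exact ⟨(x, y), by rw [hβ, hu]; abel⟩
    have e : Nonempty (((Fin a → S) × (Fin c → S)) ≃ₗ[S] (Fin (a + c) → S)) :=
      ⟨(LinearEquiv.sumArrowLequivProdArrow (Fin a) (Fin c) S S).symm.trans
        (LinearEquiv.funCongrLeft S S (finSumFinEquiv (m := a) (n := c)).symm)⟩
    rw [hS S n B ((Fin a → S) × (Fin c → S)) (a + c) e β hβs]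
    -- the kernels
    let f' : LinearMap.ker α →ₗ[S] LinearMap.ker β :=
      LinearMap.codRestrict (LinearMap.ker β)
        ((LinearMap.inl S (Fin a → S) (Fin c → S)).comp (LinearMap.ker α).subtype) (by
          rintro ⟨x, hx⟩
          rw [LinearMap.mem_ker] at hx ⊢
          show β (x, 0) = 0
          rw [hβ, hx, map_zero, map_zero, add_zero])
    let g' : LinearMap.ker β →ₗ[S] LinearMap.ker γ :=
      LinearMap.codRestrict (LinearMap.ker γ)
        ((LinearMap.snd S (Fin a → S) (Fin c → S)).comp (LinearMap.ker β).subtype) (by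
          rintro ⟨⟨x, y⟩, hx⟩
          rw [LinearMap.mem_ker] at hx ⊢
          show γ y = 0
          rw [hβ] at hx
          have h := congrArg g hx
          rwa [map_add, hgf, zero_add, hγ'', map_zero] at h)
    refine ih (LinearMap.ker α) (LinearMap.ker β) (LinearMap.ker γ) f' g' ?_ ?_ ?_ kα kγ
    · rintro ⟨x, hx⟩ ⟨y, hy⟩ h
      have h1 : ((x, 0) : (Fin a → S) × (Fin c → S)) = (y, 0) := congrArg Subtype.val h
      exact Subtype.ext (congrArg Prod.fst h1)
    · rintro ⟨y, hy⟩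
      rw [LinearMap.mem_ker] at hy
      obtain ⟨u, hu⟩ := (hfg (-γ' y)).1 (by rw [map_neg, hγ'', hy, neg_zero])
      obtain ⟨x, rfl⟩ := hα u
      exact ⟨⟨(x, y), by rw [LinearMap.mem_ker, hβ, hu, neg_add_cancel]⟩, rfl⟩
    · rintro ⟨⟨x, y⟩, hxy⟩
      rw [LinearMap.mem_ker, hβ] at hxy
      constructor
      · intro h
        have hy : y = 0 := congrArg Subtype.val h
        subst hy
        rw [map_zero, add_zero] at hxy
        have hx : α x = 0 := hf (by rw [hxy, map_zero])
        exact ⟨⟨x, hx⟩, rfl⟩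
      · rintro ⟨⟨x', hx'⟩, h⟩
        have h1 : ((x', 0) : (Fin a → S) × (Fin c → S)) = (x, y) := congrArg Subtype.val h
        have h2 : (0 : Fin c → S) = y := congrArg Prod.snd h1
        exact Subtype.ext h2.symm

theorem task_Extn (_hE : TaskEquiv) (hS : TaskSch) : TaskExtn := by
  intro S _ A B C _ _ _ _ _ _ f g hf hg hfg
  refine ⟨fun n => extn_one hS S n A B C f g hf hg hfg, ?_⟩
  intro n hA hB
  obtain ⟨k, φ, hφ, kφ⟩ := hB
  refine ⟨k, g.comp φ, hg.comp hφ, ?_⟩
  let ψ : LinearMap.ker (g.comp φ) →ₗ[S] LinearMap.range f :=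
    LinearMap.codRestrict (LinearMap.range f) (φ.comp (LinearMap.ker (g.comp φ)).subtype) (by
      rintro ⟨x, hx⟩
      exact (hfg (φ x)).1 hx)
  let e := LinearEquiv.ofInjective f hf
  let ρ : LinearMap.ker (g.comp φ) →ₗ[S] A := e.symm.toLinearMap.comp ψ
  have hρ : ∀ x, f (ρ x) = φ x.1 := by
    intro x
    have h1 : e (ρ x) = ψ x := e.apply_symm_apply (ψ x)
    exact congrArg Subtype.val h1
  have hle : LinearMap.ker φ ≤ LinearMap.ker (g.comp φ) := by
    intro x hx
    rw [LinearMap.mem_ker] at hx ⊢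
    rw [LinearMap.comp_apply, hx, map_zero]
  refine extn_one hS S n (LinearMap.ker φ) (LinearMap.ker (g.comp φ)) A (Submodule.inclusion hle) ρ
    (Submodule.inclusion_injective hle) ?_ ?_ kφ hA
  · intro u
    obtain ⟨x, hx⟩ := hφ (f u)
    refine ⟨⟨x, ?_⟩, ?_⟩
    · rw [LinearMap.mem_ker, LinearMap.comp_apply, hx]
      exact (hfg _).2 ⟨u, rfl⟩
    · apply hf
      rw [hρ]
      exact hx
  · rintro ⟨x, hx⟩
    constructor
    · intro h
      have h1 := hρ ⟨x, hx⟩
      rw [h, map_zero] at h1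
      exact ⟨⟨x, h1.symm⟩, rfl⟩
    · rintro ⟨⟨y, hy⟩, h⟩
      have h1 : y = x := congrArg Subtype.val h
      subst h1
      apply hf
      rw [hρ, map_zero]
      exact hy

end Pool.Agent.H653R4
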