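import Mathlib
import Pool.Agent.H653R4.Defs

set_option autoImplicit false

/-! An extension of a finitely presented group by a finitely presented group is finitely presented
(helper121 for helper653). -/

namespace Pool.Agent.H653R4

lemma fpres_of_isFP {G : Type} [Group G] (h : Group.IsFinitelyPresented G) : FPres G := by
  obtain ⟨n, φ, hφ, S, hS, hSk⟩ := h.out
  refine ⟨n, φ, hS.toFinset, hφ, ?_⟩
  rw [hS.coe_toFinset, hSk]

theorem task_FPExt : TaskFPExt := by
  classical
  intro N G H _ _ _ ι p hι hp hex hN hH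
  obtain ⟨r, fN, R, hfN, hR⟩ := hN
  obtain ⟨s, fH, S, hfH, hS⟩ := hH
  have hg : ∀ y : Fin s, ∃ g : G, p g = fH (FreeGroup.of y) := fun y => hp _
  choose g hg using hg
  obtain ⟨Φ, hΦ⟩ : ∃ Φ : FreeGroup (Fin r ⊕ Fin s) →* G,
      Φ = FreeGroup.lift (Sum.elim (fun x => ι (fN (FreeGroup.of x))) g) := ⟨_, rfl⟩
  obtain ⟨a, ha⟩ : ∃ a : FreeGroup (Fin r) →* FreeGroup (Fin r ⊕ Fin s),
      a = FreeGroup.map Sum.inl := ⟨_, rfl⟩
  obtain ⟨b, hb⟩ : ∃ b : FreeGroup (Fin s) →* FreeGroup (Fin r ⊕ Fin s),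
      b = FreeGroup.map Sum.inr := ⟨_, rfl⟩
  obtain ⟨q, hq⟩ : ∃ q : FreeGroup (Fin r ⊕ Fin s) →* FreeGroup (Fin s),
      q = FreeGroup.lift (Sum.elim (fun _ => 1) FreeGroup.of) := ⟨_, rfl⟩
  have hΦa : ∀ v, Φ (a v) = ι (fN v) := by
    have h : Φ.comp a = ι.comp fN := FreeGroup.ext_hom _ _ (by intro x; simp [hΦ, ha])
    intro v
    exact DFunLike.congr_fun h v
  have hpι : ∀ n, p (ι n) = 1 := fun n => (hex _).mpr ⟨n, rfl⟩
  have hpΦ : ∀ w, p (Φ w) = fH (q w) := by
    have h : p.comp Φ = fH.comp q := by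
      apply FreeGroup.ext_hom
      rintro (x | y)
      · simp [hΦ, hq, hpι]
      · simp [hΦ, hq, hg]
    intro w
    exact DFunLike.congr_fun h w
  have hqb : ∀ u, q (b u) = u := by
    have h : q.comp b = MonoidHom.id _ := FreeGroup.ext_hom _ _ (by intro x; simp [hq, hb])
    intro u
    exact DFunLike.congr_fun h u
  have hqa : ∀ u, q (a u) = 1 := by
    have h : q.comp a = 1 := FreeGroup.ext_hom _ _ (by intro x; simp [hq, ha])
    intro u
    exact DFunLike.congr_fun h u
  have hker : ∀ w, p (Φ w) = 1 → ∃ v, ι (fN v) = Φ w := by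
    intro w hw
    obtain ⟨n, hn⟩ := (hex _).mp hw
    obtain ⟨v, rfl⟩ := hfN n
    exact ⟨v, hn⟩
  have hsurj : Function.Surjective Φ := by
    intro x
    obtain ⟨u, hu⟩ := hfH (p x)
    have h1 : p ((Φ (b u))⁻¹ * x) = 1 := by
      rw [map_mul, map_inv, hpΦ, hqb, hu, inv_mul_cancel]
    obtain ⟨n, hn⟩ := (hex _).mp h1
    obtain ⟨v, rfl⟩ := hfN n
    refine ⟨b u * a v, ?_⟩
    rw [map_mul, hΦa, hn, mul_inv_cancel_left]
  -- the relations
  have hvs : ∀ t : FreeGroup (Fin s), ∃ v, t ∈ S → ι (fN v) = Φ (b t) := by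
    intro t
    by_cases ht : t ∈ S
    · have h1 : t ∈ fH.ker := by
        rw [hS]
        exact Subgroup.subset_normalClosure (Finset.mem_coe.mpr ht)
      obtain ⟨v, hv⟩ := hker (b t) (by rw [hpΦ, hqb]; exact h1)
      exact ⟨v, fun _ => hv⟩
    · exact ⟨1, fun h => absurd h ht⟩
  choose vs hvs using hvs
  have hv1 : ∀ z : Fin r × Fin s, ∃ v, ι (fN v) =
      Φ (b (FreeGroup.of z.2) * a (FreeGroup.of z.1) * (b (FreeGroup.of z.2))⁻¹) := by
    intro z
    apply hker
    rw [hpΦ]
    simp [hqa]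
  choose v1 hv1 using hv1
  have hv2 : ∀ z : Fin r × Fin s, ∃ v, ι (fN v) =
      Φ ((b (FreeGroup.of z.2))⁻¹ * a (FreeGroup.of z.1) * b (FreeGroup.of z.2)) := by
    intro z
    apply hker
    rw [hpΦ]
    simp [hqa]
  choose v2 hv2 using hv2
  set T : Set (FreeGroup (Fin r ⊕ Fin s)) :=
    (a '' (R : Set (FreeGroup (Fin r)))) ∪
    ((fun t => b t * (a (vs t))⁻¹) '' (S : Set (FreeGroup (Fin s)))) ∪
    (Set.range (fun z : Fin r × Fin s =>
      b (FreeGroup.of z.2) * a (FreeGroup.of z.1) * (b (FreeGroup.of z.2))⁻¹ * (a (v1 z))⁻¹)) ∪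
    (Set.range (fun z : Fin r × Fin s =>
      (b (FreeGroup.of z.2))⁻¹ * a (FreeGroup.of z.1) * b (FreeGroup.of z.2) * (a (v2 z))⁻¹)) with hT
  have hTfin : T.Finite :=
    (((R.finite_toSet.image _).union (S.finite_toSet.image _)).union (Set.finite_range _)).union
      (Set.finite_range _)
  have hTker : ∀ t ∈ T, Φ t = 1 := by
    rintro t (((⟨x, hx, rfl⟩ | ⟨x, hx, rfl⟩) | ⟨z, rfl⟩) | ⟨z, rfl⟩)
    · have h1 : x ∈ fN.ker := by
        rw [hR]
        exact Subgroup.subset_normalClosure hx
      rw [hΦa, show fN x = 1 from h1, map_one]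
    · change Φ (b x * (a (vs x))⁻¹) = 1
      rw [map_mul, map_inv, hΦa, hvs x (Finset.mem_coe.mp hx), mul_inv_cancel]
    · change Φ (b (FreeGroup.of z.2) * a (FreeGroup.of z.1) * (b (FreeGroup.of z.2))⁻¹ *
        (a (v1 z))⁻¹) = 1
      rw [map_mul, map_inv, hΦa, hv1 z, mul_inv_cancel]
    · change Φ ((b (FreeGroup.of z.2))⁻¹ * a (FreeGroup.of z.1) * b (FreeGroup.of z.2) *
        (a (v2 z))⁻¹) = 1
      rw [map_mul, map_inv, hΦa, hv2 z, mul_inv_cancel]
  set K : Subgroup (FreeGroup (Fin r ⊕ Fin s)) := Subgroup.normalClosure T with hK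
  have hKn : K.Normal := Subgroup.normalClosure_normal
  have hTK : T ⊆ K := Subgroup.subset_normalClosure
  have hKker : K ≤ Φ.ker := Subgroup.normalClosure_le_normal (fun t ht => hTker t ht)
  -- the subgroup `M`
  set M : Subgroup (FreeGroup (Fin r ⊕ Fin s)) := a.range ⊔ K with hM
  have hKM : K ≤ M := le_sup_right
  have haM : ∀ v, a v ∈ M := fun v => le_sup_left (a := a.range) ⟨v, rfl⟩
  have hconj : ∀ c : FreeGroup (Fin r ⊕ Fin s),
      (∀ x : Fin r, c * a (FreeGroup.of x) * c⁻¹ ∈ M) → ∀ m ∈ M, c * m * c⁻¹ ∈ M := by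
    intro c hc
    have h1 : a.range ≤ M.comap (MulAut.conj c).toMonoidHom := by
      rintro _ ⟨v, rfl⟩
      have h2 : ∀ v : FreeGroup (Fin r), v ∈ (M.comap (MulAut.conj c).toMonoidHom).comap a := by
        intro v
        have h3 : Subgroup.closure (Set.range (FreeGroup.of : Fin r → FreeGroup (Fin r))) ≤
            (M.comap (MulAut.conj c).toMonoidHom).comap a := by
          rw [Subgroup.closure_le]
          rintro _ ⟨x, rfl⟩
          exact hc x
        apply h3
        rw [FreeGroup.closure_range_of]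
        trivial
      exact h2 v
    have h2 : K ≤ M.comap (MulAut.conj c).toMonoidHom := by
      intro k hk
      exact hKM (hKn.conj_mem k hk c)
    intro m hm
    exact (sup_le h1 h2) hm
  have hMn : M.Normal := by
    -- the set of elements conjugating `M` into itself together with their inverses
    have key : ∀ c : FreeGroup (Fin r ⊕ Fin s), c ∈ Subgroup.normalizer (M : Set _) := by
      have hle : Subgroup.closure (Set.range
          (FreeGroup.of : Fin r ⊕ Fin s → FreeGroup (Fin r ⊕ Fin s))) ≤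
          Subgroup.normalizer (M : Set _) := by
        rw [Subgroup.closure_le]
        rintro _ ⟨x | y, rfl⟩
        · have hx : FreeGroup.of (Sum.inl x) = a (FreeGroup.of x) := by simp [ha]
          rw [hx]
          exact Subgroup.le_normalizer (haM _)
        · have hy : FreeGroup.of (Sum.inr y) = b (FreeGroup.of y) := by simp [hb]
          rw [hy, SetLike.mem_coe, Subgroup.mem_normalizer_iff]
          have hA : ∀ m ∈ M, b (FreeGroup.of y) * m * (b (FreeGroup.of y))⁻¹ ∈ M := by
            apply hconj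
            intro x
            have h1 : b (FreeGroup.of y) * a (FreeGroup.of x) * (b (FreeGroup.of y))⁻¹ *
                (a (v1 (x, y)))⁻¹ ∈ M := hKM (hTK (Or.inl (Or.inr ⟨(x, y), rfl⟩)))
            have h2 := M.mul_mem h1 (haM (v1 (x, y)))
            rwa [inv_mul_cancel_right] at h2
          have hB : ∀ m ∈ M, (b (FreeGroup.of y))⁻¹ * m * ((b (FreeGroup.of y))⁻¹)⁻¹ ∈ M := by
            apply hconj
            intro x
            have h1 : (b (FreeGroup.of y))⁻¹ * a (FreeGroup.of x) * b (FreeGroup.of y) *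
                (a (v2 (x, y)))⁻¹ ∈ M := hKM (hTK (Or.inr ⟨(x, y), rfl⟩))
            have h2 := M.mul_mem h1 (haM (v2 (x, y)))
            rw [inv_mul_cancel_right] at h2
            rwa [inv_inv]
          intro m
          constructor
          · exact hA m
          · intro hm
            have h3 := hB _ hm
            have h4 : (b (FreeGroup.of y))⁻¹ * (b (FreeGroup.of y) * m * (b (FreeGroup.of y))⁻¹) *
                ((b (FreeGroup.of y))⁻¹)⁻¹ = m := by group
            rwa [h4] at h3
      intro c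
      apply hle
      rw [FreeGroup.closure_range_of]
      trivial
    constructor
    intro m hm c
    exact (Subgroup.mem_normalizer_iff.mp (key c) m).mp hm
  -- every word is congruent to its projection
  have hcong : ∀ w, (QuotientGroup.mk' M) w = (QuotientGroup.mk' M) (b (q w)) := by
    have h : QuotientGroup.mk' M = (QuotientGroup.mk' M).comp (b.comp q) := by
      apply FreeGroup.ext_hom
      rintro (x | y)
      · have hx : FreeGroup.of (Sum.inl x) = a (FreeGroup.of x) := by simp [ha]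
        rw [hx, MonoidHom.comp_apply, MonoidHom.comp_apply, hqa, map_one, map_one]
        exact (QuotientGroup.eq_one_iff _).mpr (haM _)
      · have hy : FreeGroup.of (Sum.inr y) = b (FreeGroup.of y) := by simp [hb]
        rw [hy, MonoidHom.comp_apply, MonoidHom.comp_apply, hqb]
    intro w
    exact DFunLike.congr_fun h w
  have hbM : ∀ u, fH u = 1 → b u ∈ M := by
    intro u hu
    have h1 : u ∈ Subgroup.normalClosure (S : Set (FreeGroup (Fin s))) := by
      rw [← hS]
      exact hu
    have h2 : Subgroup.normalClosure (S : Set (FreeGroup (Fin s))) ≤ M.comap b := by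
      haveI : (M.comap b).Normal := hMn.comap b
      apply Subgroup.normalClosure_le_normal
      intro t ht
      have h3 : b t * (a (vs t))⁻¹ ∈ M := hKM (hTK (Or.inl (Or.inl (Or.inr ⟨t, ht, rfl⟩))))
      have h4 := M.mul_mem h3 (haM (vs t))
      rw [inv_mul_cancel_right] at h4
      exact h4
    exact h2 h1
  have haK : ∀ v, fN v = 1 → a v ∈ K := by
    intro v hv
    have h1 : v ∈ Subgroup.normalClosure (R : Set (FreeGroup (Fin r))) := by
      rw [← hR]
      exact hv
    have h2 : Subgroup.normalClosure (R : Set (FreeGroup (Fin r))) ≤ K.comap a := by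
      haveI : (K.comap a).Normal := hKn.comap a
      apply Subgroup.normalClosure_le_normal
      intro t ht
      exact hTK (Or.inl (Or.inl (Or.inl ⟨t, ht, rfl⟩)))
    exact h2 h1
  have hkerK : Φ.ker ≤ K := by
    intro w hw
    have hw1 : Φ w = 1 := hw
    have h1 : fH (q w) = 1 := by rw [← hpΦ, hw1, map_one]
    have h2 : (QuotientGroup.mk' M) w = 1 := by
      rw [hcong w]
      exact (QuotientGroup.eq_one_iff _).mpr (hbM _ h1)
    have h3 : w ∈ M := (QuotientGroup.eq_one_iff _).mp h2
    rw [hM, Subgroup.mem_sup_of_normal_right] at h3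
    obtain ⟨_, ⟨v, rfl⟩, k, hk, rfl⟩ := h3
    have h4 : Φ k = 1 := hKker hk
    rw [map_mul, h4, mul_one, hΦa] at hw1
    have h5 : fN v = 1 := hι (by rw [hw1, map_one])
    exact K.mul_mem (haK v h5) hk
  apply fpres_of_isFP
  exact Group.IsFinitelyPresented.of_surjective Φ hsurj
    ⟨T, hTfin, le_antisymm hKker hkerK⟩

end Pool.Agent.H653R4
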