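import Pool.Agent.H653R4.Defs

set_option autoImplicit false

/-! Core of induction: the induced map has the induced range and kernel (task IC). -/

namespace Pool.Agent.H653R4

namespace IC

variable {N G : Type} [Group N] [Group G]

/-- restriction of an element of `ℤG` to `N` -/
noncomputable def P (ι : N →* G) (hι : Function.Injective ι) : ZG G →+ ZG N :=
  MonoidAlgebra.comapDomainAddMonoidHom ι hι

lemma P_coeff (ι : N →* G) (hι : Function.Injective ι) (x : ZG G) (n : N) :
    (P ι hι x).coeff n = x.coeff (ι n) := rfl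

lemma rm_single (ι : N →* G) (n : N) (s : ℤ) :
    rm ι (MonoidAlgebra.single n s) = MonoidAlgebra.single (ι n) s := by
  simp [rm]

lemma rm_coeff (ι : N →* G) (hι : Function.Injective ι) (x : ZG N) (n : N) :
    (rm ι x).coeff (ι n) = x.coeff n := by
  change (Finsupp.mapDomain ι x.coeff) (ι n) = _
  exact Finsupp.mapDomain_apply hι _ _

lemma rm_coeff_not (ι : N →* G) (x : ZG N) (g : G) (hg : g ∉ Set.range ι) :
    (rm ι x).coeff g = 0 := by
  change (Finsupp.mapDomain ι x.coeff) g = _
  exact Finsupp.mapDomain_of_notMem_range _ _ hg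

lemma P_mul (ι : N →* G) (hι : Function.Injective ι) (y : ZG G) (a : ZG N) :
    P ι hι (y * rm ι a) = P ι hι y * a := by
  induction a using MonoidAlgebra.induction_linear with
  | zero => simp
  | add a b ha hb => rw [map_add, mul_add, map_add, ha, hb, mul_add]
  | single n s =>
    rw [rm_single]
    ext m
    rw [P_coeff]
    simp [P_coeff]

lemma P_rm (ι : N →* G) (hι : Function.Injective ι) (a : ZG N) : P ι hι (rm ι a) = a := by
  ext m
  rw [P_coeff, rm_coeff ι hι]

/-- restriction to a coset -/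
lemma coset_coeff (ι : N →* G) (hι : Function.Injective ι) (g h : G) (x : ZG G) [Decidable (g⁻¹ * h ∈ ι.range)] :
    (el g * rm ι (P ι hι (el g⁻¹ * x))).coeff h = if g⁻¹ * h ∈ ι.range then x.coeff h else 0 := by
  unfold el
  simp only [MonoidAlgebra.of_apply]
  rw [MonoidAlgebra.coeff_single_mul_apply, one_mul]
  split_ifs with hh
  · obtain ⟨n, hn⟩ := hh
    rw [← hn, rm_coeff ι hι, P_coeff, hn, MonoidAlgebra.coeff_single_mul_apply]
    simp
  · exact rm_coeff_not ι _ _ hh

/-- decomposition of a vector along cosets -/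
lemma decomp (ι : N →* G) (hι : Function.Injective ι) {c : ℕ} (x : Fin c → ZG G) :
    ∃ R : Finset G, x = ∑ g ∈ R, el g • vm (rm ι) (fun i => P ι hι (el g⁻¹ * x i)) := by
  classical
  refine ⟨(Finset.univ.biUnion fun i => (x i).coeff.support).image
    (fun h => (QuotientGroup.mk h : G ⧸ ι.range).out), ?_⟩
  set R := (Finset.univ.biUnion fun i => (x i).coeff.support).image
    (fun h => (QuotientGroup.mk h : G ⧸ ι.range).out) with hR
  funext i
  rw [Finset.sum_apply]
  ext h
  rw [MonoidAlgebra.coeff_sum, Finsupp.finsetSum_apply]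
  have h1 : ∀ g ∈ R, ((el g • vm (rm ι) (fun i => P ι hι (el g⁻¹ * x i))) i).coeff h =
      if g⁻¹ * h ∈ ι.range then (x i).coeff h else 0 := by
    intro g _
    exact coset_coeff ι hι g h (x i)
  rw [Finset.sum_congr rfl h1]
  by_cases hx : (x i).coeff h = 0
  · simp [hx]
  · set g0 := (QuotientGroup.mk h : G ⧸ ι.range).out with hg0
    have hg0R : g0 ∈ R := by
      rw [hR, Finset.mem_image]
      exact ⟨h, Finset.mem_biUnion.mpr ⟨i, Finset.mem_univ i, Finsupp.mem_support_iff.mpr hx⟩, rfl⟩
    rw [Finset.sum_eq_single g0]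
    · rw [if_pos]
      rw [← QuotientGroup.eq, hg0, QuotientGroup.out_eq']
    · intro g hg hne
      rw [if_neg]
      intro hh
      apply hne
      rw [hR, Finset.mem_image] at hg
      obtain ⟨h', _, rfl⟩ := hg
      rw [← QuotientGroup.eq, QuotientGroup.out_eq'] at hh
      rw [hg0, ← hh]
    · intro h'
      exact absurd hg0R h'

end IC

open IC in
theorem task_IC : TaskIC := by
  intro N G _ _ ι hι c c' d
  let D : (Fin c' → ZG G) →ₗ[ZG G] (Fin c → ZG G) :=
    (Pi.basisFun (ZG G) (Fin c')).constr ℕ (fun i => vm (rm ι) (d (Pi.single i 1)))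
  have gen : ∀ (S : Type) [Ring S] (a b : ℕ) (f : (Fin a → S) →ₗ[S] (Fin b → S)) (x : Fin a → S),
      f x = ∑ i, x i • f (Pi.single i 1) := by
    intro S _ a b f x
    have h : f = (Pi.basisFun S (Fin a)).constr ℕ (fun i => f (Pi.single i 1)) := by
      apply (Pi.basisFun S (Fin a)).ext
      intro i
      rw [Module.Basis.constr_basis]
      simp
    conv_lhs => rw [h]
    rw [Module.Basis.constr_apply_fintype]
    simp
  have hD : ∀ x, D x = ∑ i, x i • vm (rm ι) (d (Pi.single i 1)) := by
    intro x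
    simp only [D]
    rw [Module.Basis.constr_apply_fintype]
    simp
  have hd : ∀ x, d x = ∑ i, x i • d (Pi.single i 1) := gen _ _ _ d
  have hvm : ∀ x, D (vm (rm ι) x) = vm (rm ι) (d x) := by
    intro x
    rw [hD, hd x]
    funext j
    simp only [vm, Finset.sum_apply, Pi.smul_apply, smul_eq_mul, map_sum, map_mul]
  refine ⟨D, hvm, ?_, ?_⟩
  · apply le_antisymm
    · rintro _ ⟨x, rfl⟩
      rw [hD]
      exact Submodule.sum_mem _ fun i _ => Submodule.smul_mem _ _
        (Submodule.subset_span ⟨_, ⟨_, rfl⟩, rfl⟩)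
    · unfold Bx
      rw [Submodule.span_le]
      rintro _ ⟨_, ⟨y, rfl⟩, rfl⟩
      exact ⟨vm (rm ι) y, hvm y⟩
  · apply le_antisymm
    · intro x hx
      rw [LinearMap.mem_ker] at hx
      obtain ⟨R, hR⟩ := decomp ι hι x
      rw [hR]
      refine Submodule.sum_mem _ fun g _ => Submodule.smul_mem _ _
        (Submodule.subset_span ⟨_, ?_, rfl⟩)
      rw [SetLike.mem_coe, LinearMap.mem_ker, hd]
      funext j
      rw [hD] at hx
      have h1 := congrFun hx j
      simp only [vm, Finset.sum_apply, Pi.smul_apply, smul_eq_mul, Pi.zero_apply] at h1 ⊢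
      have h2 : ∀ i, P ι hι (el g⁻¹ * x i) * d (Pi.single i 1) j =
          P ι hι (el g⁻¹ * (x i * rm ι (d (Pi.single i 1) j))) := by
        intro i
        rw [← P_mul, mul_assoc]
      rw [Finset.sum_congr rfl fun i _ => h2 i, ← map_sum, ← Finset.mul_sum, h1, mul_zero, map_zero]
    · unfold Bx
      rw [Submodule.span_le]
      rintro _ ⟨a, ha, rfl⟩
      rw [SetLike.mem_coe, LinearMap.mem_ker] at ha ⊢
      rw [hvm, ha]
      funext j
      simp [vm]

end Pool.Agent.H653R4
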