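import Pool.Agent.H653R4.Defs

set_option autoImplicit false
set_option maxHeartbeats 4000000

namespace Pool.Agent.H653R4

theorem task_Ind (hIC : TaskIC) (hTT : TaskTT) : TaskInd := by
  intro N J G H _ _ _ α ι p γ hGD c c' A φ A' φ' hφ hφ' hN
  obtain ⟨d, hr, hk, hd⟩ := hN
  obtain ⟨D, hD, hDr, hDk⟩ := hIC N G ι hGD.inj c c' d
  refine ⟨D, ?_, ?_, ?_⟩
  · rw [hDr, hr]
  · rw [hDk, hk]
  · intro j
    have h1 : D ∘ₗ TT ι (γ j) (φ' j) = TT ι (γ j) (φ j) ∘ₗ D := by
      apply (Pi.basisFun (ZG G) (Fin c')).ext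
      intro i
      have hv : (Pi.basisFun (ZG G) (Fin c')) i =
          vm (rm ι) (Pi.single i (1 : ZG N) : Fin c' → ZG N) := by
        rw [Pi.basisFun_apply]
        funext k
        unfold vm
        by_cases hki : k = i
        · subst hki
          rw [Pi.single_eq_same, Pi.single_eq_same, map_one]
        · rw [Pi.single_eq_of_ne hki, Pi.single_eq_of_ne hki, map_zero]
      rw [hv, LinearMap.comp_apply, LinearMap.comp_apply,
        hTT N G ι (γ j) (α j) (hGD.conj j) c' (φ' j) (hφ' j), map_smul, hD, hd, hD,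
        hTT N G ι (γ j) (α j) (hGD.conj j) c (φ j) (hφ j)]
    intro x
    exact congrArg (fun f => f x) h1

end Pool.Agent.H653R4
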