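import Pool.Agent.H653R4.Defs

set_option autoImplicit false

namespace Pool.Agent.H653R4

namespace KerT

theorem rm_of {G H : Type} [Group G] [Group H] (p : G →* H) (g : G) :
    rm p (el g) = el (p g) := by
  unfold rm el
  simp

theorem rm_eq_mapDomain {G H : Type} [Group G] [Group H] (p : G →* H) (u : ZG G) :
    rm p u = MonoidAlgebra.mapDomain p u := rfl

theorem mapDomain_comp' {A B C : Type} (s : B → C) (p : A → B) (u : MonoidAlgebra ℤ A) :
    MonoidAlgebra.mapDomain s (MonoidAlgebra.mapDomain p u) =
      MonoidAlgebra.mapDomain (fun a => s (p a)) u := by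
  induction u using MonoidAlgebra.induction_linear with
  | zero => simp
  | add x y hx hy => rw [MonoidAlgebra.mapDomain_add, MonoidAlgebra.mapDomain_add,
      MonoidAlgebra.mapDomain_add, hx, hy]
  | single a r => simp

theorem const_mem {N G H : Type} [Group N] [Group G] [Group H] (ι : N →* G) (p : G →* H)
    (hk : ∀ g, p g = 1 ↔ ∃ n, ι n = g) (s : H → G) (hs : ∀ g, p (s (p g)) = p g) (u : ZG G) :
    (fun _ : Fin 1 => u - MonoidAlgebra.mapDomain (fun g => s (p g)) u) ∈ Bx (rm ι) (A0 N) := by
  induction u using MonoidAlgebra.induction_linear with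
  | zero =>
    have : (fun _ : Fin 1 => (0 : ZG G) - MonoidAlgebra.mapDomain (fun g => s (p g)) (0 : ZG G))
        = 0 := by
      funext i
      simp
    rw [this]
    exact Submodule.zero_mem _
  | add x y hx hy =>
    have : (fun _ : Fin 1 => (x + y) - MonoidAlgebra.mapDomain (fun g => s (p g)) (x + y))
        = (fun _ : Fin 1 => x - MonoidAlgebra.mapDomain (fun g => s (p g)) x)
          + (fun _ : Fin 1 => y - MonoidAlgebra.mapDomain (fun g => s (p g)) y) := by
      funext i
      rw [MonoidAlgebra.mapDomain_add]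
      simp only [Pi.add_apply]
      abel
    rw [this]
    exact Submodule.add_mem _ hx hy
  | single a r =>
    have h1 : p ((s (p a))⁻¹ * a) = 1 := by
      rw [map_mul, map_inv, hs]
      simp
    obtain ⟨n, hn⟩ := (hk _).mp h1
    have h2 : s (p a) * ι n = a := by rw [hn]; group
    have h3 : (fun _ : Fin 1 => el n - 1) ∈ A0 N := by
      change rm (1 : N →* Unit) (el n - 1) = 0
      rw [RingHom.map_sub, rm_of]
      have h10 : rm (1 : N →* Unit) 1 = 1 := RingHom.map_one _
      have h9 : el ((1 : N →* Unit) n) = 1 := by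
        rw [MonoidHom.one_apply]
        unfold el
        exact MonoidHom.map_one _
      rw [h9, h10, sub_self]
    have h4 : vm (rm ι) (fun _ : Fin 1 => el n - 1) ∈ Bx (rm ι) (A0 N) :=
      Submodule.subset_span ⟨_, h3, rfl⟩
    have h5 : (fun _ : Fin 1 => MonoidAlgebra.single a r -
        MonoidAlgebra.mapDomain (fun g => s (p g)) (MonoidAlgebra.single a r))
        = (MonoidAlgebra.single (s (p a)) r : ZG G) • vm (rm ι) (fun _ : Fin 1 => el n - 1) := by
      funext i
      simp only [vm, Pi.smul_apply, smul_eq_mul]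
      rw [RingHom.map_sub, rm_of, RingHom.map_one, mul_sub, mul_one]
      unfold el
      simp [MonoidAlgebra.single_mul_single, h2]
    rw [h5]
    exact Submodule.smul_mem _ _ h4

end KerT

theorem task_Ker : TaskKer := by
  classical
  intro N G H _ _ _ ι p hk x
  constructor
  · intro hx
    have hle : Bx (rm ι) (A0 N) ≤ (KR p).comap (LinearMap.proj 0) := by
      unfold Bx
      rw [Submodule.span_le]
      rintro _ ⟨y, hy, rfl⟩
      change rm p (rm ι (y 0)) = 0
      have hy' : rm (1 : N →* Unit) (y 0) = 0 := hy
      have h1 : rm p (rm ι (y 0)) = rm (1 : Unit →* H) (rm (1 : N →* Unit) (y 0)) := by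
        rw [KerT.rm_eq_mapDomain, KerT.rm_eq_mapDomain, KerT.rm_eq_mapDomain,
          KerT.rm_eq_mapDomain, KerT.mapDomain_comp', KerT.mapDomain_comp']
        congr 1
        funext a
        simp only [MonoidHom.one_apply]
        exact (hk _).mpr ⟨a, rfl⟩
      rw [h1, hy', map_zero]
    exact hle hx
  · intro hx
    have hx' : rm p (x 0) = 0 := hx
    let s : H → G := fun h => if hh : ∃ g, p g = h then hh.choose else 1
    have hs : ∀ g, p (s (p g)) = p g := by
      intro g
      have hh : ∃ g', p g' = p g := ⟨g, rfl⟩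
      simp only [s, dif_pos hh]
      exact hh.choose_spec
    have h1 := KerT.const_mem ι p hk s hs (x 0)
    have h2 : MonoidAlgebra.mapDomain (fun g => s (p g)) (x 0) = 0 := by
      rw [← KerT.mapDomain_comp' s p (x 0), ← KerT.rm_eq_mapDomain, hx']
      simp
    rw [h2] at h1
    have h3 : (fun _ : Fin 1 => x 0 - 0) = x := by
      funext i
      rw [sub_zero, Subsingleton.elim i 0]
    rw [h3] at h1
    exact h1

end Pool.Agent.H653R4
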