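import Pool.Agent.H653R4.Defs

set_option autoImplicit false

namespace Pool.Agent.H653R4

theorem N0_rm_comp {G H K : Type} [Group G] [Group H] [Group K] (p : G →* H) (q : H →* K)
    (x : ZG G) : rm q (rm p x) = rm (q.comp p) x := by
  unfold rm
  rw [MonoidAlgebra.mapDomainRingHom_comp]
  rfl

theorem N0_rm_el {G H : Type} [Group G] [Group H] (p : G →* H) (g : G) :
    rm p (el g) = el (p g) := by
  unfold rm el
  simp

theorem N0_el_one (G : Type) [Group G] : (el (1 : G) : ZG G) = 1 := by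
  unfold el
  rw [MonoidAlgebra.one_def]
  simp

theorem N0_mem {N : Type} [Group N] (x : Fin 1 → ZG N) :
    x ∈ A0 N ↔ rm (1 : N →* Unit) (x 0) = 0 := Iff.rfl

theorem N0_conj {N : Type} [Group N] (n : N) (a : ZG N) :
    rm (MulAut.conj n).toMonoidHom a * el n = el n * a := by
  induction a using MonoidAlgebra.induction_on with
  | of g =>
    have h1 : (MonoidAlgebra.of ℤ N g : ZG N) = el g := rfl
    rw [h1, N0_rm_el]
    unfold el
    rw [← map_mul, ← map_mul]
    simp
  | add x y hx hy => rw [map_add, add_mul, mul_add, hx, hy]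
  | smul r x hx =>
    rw [map_zsmul, smul_mul_assoc, mul_smul_comm, hx]

theorem N0_pw {N J : Type} [Group N] (α : J → N →* N) (w : List J) (x : Fin 1 → ZG N) :
    pw (fun j => phi0 (α j)) w x = phi0 (aw α w) x := by
  induction w with
  | nil =>
    funext i
    show x i = rm (MonoidHom.id N) (x i)
    unfold rm
    simp
  | cons j w ih =>
    show phi0 (α j) (pw (fun j => phi0 (α j)) w x) = phi0 ((α j).comp (aw α w)) x
    rw [ih]
    funext i
    show rm (α j) (rm (aw α w) (x i)) = rm ((α j).comp (aw α w)) (x i)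
    exact N0_rm_comp _ _ _

theorem N0_sl {N : Type} [Group N] (α : N →* N) : SL α (phi0 α) := by
  intro a x
  funext i
  show rm α (a * x i) = rm α a * rm α (x i)
  exact map_mul _ _ _

theorem N0_eps {N : Type} [Group N] (α : N →* N) (x : ZG N) :
    rm (1 : N →* Unit) (rm α x) = rm (1 : N →* Unit) x := by
  rw [N0_rm_comp]
  congr 1

theorem task_N0 (hE : TaskEquiv) (hS : TaskSch) : TaskN0 := by
  intro N J _ α Ω hΩ
  refine ⟨⟨fun j => N0_sl (α j), fun j a ha => ?_, fun w hw => ?_⟩, fun m hm => ?_⟩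
  · rw [N0_mem] at ha ⊢
    show rm (1 : N →* Unit) (rm (α j) (a 0)) = 0
    rw [N0_eps, ha]
  · let n := w.2
    refine ⟨AddMonoidHom.mk' (fun x => phi0 (MulAut.conj w.2).toMonoidHom x - el w.2 • x)
      (fun a b => ?_), ?_, ?_, ?_⟩
    · rw [map_add, smul_add]; abel
    · intro a x
      show phi0 (MulAut.conj w.2).toMonoidHom (a • x) - el w.2 • (a • x) =
        rm (MulAut.conj w.2).toMonoidHom a • (phi0 (MulAut.conj w.2).toMonoidHom x - el w.2 • x)
      rw [N0_sl, smul_sub, smul_smul, smul_smul, N0_conj]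
    · intro x
      rw [N0_mem]
      show rm (1 : N →* Unit) (rm (MulAut.conj w.2).toMonoidHom (x 0) - el w.2 * x 0) = 0
      rw [map_sub, map_mul, N0_eps, N0_rm_el]
      have : (1 : N →* Unit) w.2 = 1 := rfl
      rw [this, N0_el_one, one_mul, sub_self]
    · intro a _
      show phi0 (MulAut.conj w.2).toMonoidHom a - el w.2 • a =
        pw (fun j => phi0 (α j)) w.1 a - el w.2 • a
      rw [N0_pw, hΩ w hw]
  · let f : (Fin 1 → ZG N) →ₗ[ZG N] Tr N :=
      (KR (1 : N →* Unit)).mkQ.comp (LinearMap.proj 0)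
    have hf : Function.Surjective f := by
      intro y
      obtain ⟨x, hx⟩ := (KR (1 : N →* Unit)).mkQ_surjective y
      exact ⟨fun _ => x, hx⟩
    have h1 := (hS (ZG N) m (Tr N) (Fin 1 → ZG N) 1 ⟨LinearEquiv.refl _ _⟩ f hf).mp hm
    have hker : LinearMap.ker f = A0 N := by
      rw [LinearMap.ker_comp, Submodule.ker_mkQ]
      rfl
    exact hE (ZG N) m _ _ ⟨LinearEquiv.ofEq _ _ hker⟩ h1

end Pool.Agent.H653R4
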