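import Pool.Agent.H653R4.Defs

set_option autoImplicit false

namespace Pool.Agent.H653R4

namespace NStepAux

variable {N : Type} [Group N]

lemma eq_sum {c : ℕ} (x : Fin c → ZG N) : x = ∑ i, x i • (Pi.single i (1 : ZG N) : Fin c → ZG N) := by
  funext j
  rw [Finset.sum_apply, Finset.sum_eq_single j]
  · simp
  · intro i _ hij
    simp [Pi.single_eq_of_ne (Ne.symm hij)]
  · intro h
    exact absurd (Finset.mem_univ j) h

/-- the semilinear map with given values on the basis -/
noncomputable def ext (α : N →* N) {c c' : ℕ} (y : Fin c → (Fin c' → ZG N)) :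
    (Fin c → ZG N) →+ (Fin c' → ZG N) :=
  AddMonoidHom.mk' (fun x => ∑ i, rm α (x i) • y i) (by
    intro a b
    simp only [Pi.add_apply, map_add, add_smul, Finset.sum_add_distrib])

lemma ext_apply (α : N →* N) {c c' : ℕ} (y : Fin c → (Fin c' → ZG N)) (x : Fin c → ZG N) :
    ext α y x = ∑ i, rm α (x i) • y i := rfl

lemma ext_sl (α : N →* N) {c c' : ℕ} (y : Fin c → (Fin c' → ZG N)) : SL α (ext α y) := by
  intro a x
  rw [ext_apply, ext_apply, Finset.smul_sum]
  apply Finset.sum_congr rfl
  intro i _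
  rw [Pi.smul_apply, smul_eq_mul, map_mul, mul_smul]

lemma ext_single (α : N →* N) {c c' : ℕ} (y : Fin c → (Fin c' → ZG N)) (i : Fin c) :
    ext α y (Pi.single i 1) = y i := by
  rw [ext_apply, Finset.sum_eq_single i]
  · rw [Pi.single_eq_same, map_one, one_smul]
  · intro j _ hj
    rw [Pi.single_eq_of_ne hj, map_zero, zero_smul]
  · intro h
    exact absurd (Finset.mem_univ i) h

lemma sl_ext {α : N →* N} {c c' : ℕ} {F G : (Fin c → ZG N) →+ (Fin c' → ZG N)} (hF : SL α F)
    (hG : SL α G) (h : ∀ i, F (Pi.single i 1) = G (Pi.single i 1)) (x : Fin c → ZG N) :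
    F x = G x := by
  rw [eq_sum x, map_sum, map_sum]
  apply Finset.sum_congr rfl
  intro i _
  rw [hF, hG, h]

/-- a semilinear lift through `d` of a semilinear map with values in the range of `d` -/
lemma exists_lift {c k l : ℕ} (α : N →* N) (d : (Fin k → ZG N) →ₗ[ZG N] (Fin c → ZG N))
    (F : (Fin l → ZG N) →+ (Fin c → ZG N)) (hF : SL α F) (hr : ∀ x, F x ∈ LinearMap.range d) :
    ∃ h : (Fin l → ZG N) →+ (Fin k → ZG N), SL α h ∧ ∀ x, d (h x) = F x := by
  choose y hy using fun i : Fin l => hr (Pi.single i 1)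
  refine ⟨ext α y, ext_sl α y, fun x => ?_⟩
  have h1 : SL α (d.toAddMonoidHom.comp (ext α y)) := by
    intro a x
    show d (ext α y (a • x)) = rm α a • d (ext α y x)
    rw [ext_sl, map_smul]
  exact sl_ext h1 hF (fun i => by
    show d (ext α y (Pi.single i 1)) = F (Pi.single i 1)
    rw [ext_single, hy]) x

lemma pw_sl {J : Type} (α : J → N →* N) {c : ℕ} {φ : J → (Fin c → ZG N) →+ (Fin c → ZG N)}
    (h : ∀ j, SL (α j) (φ j)) (w : List J) : SL (aw α w) (pw φ w) := by
  induction w with
  | nil =>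
    intro a x
    show a • x = rm (MonoidHom.id N) a • x
    have : rm (MonoidHom.id N) a = a := by
      unfold rm
      simp
    rw [this]
  | cons j w ih =>
    intro a x
    show φ j (pw φ w (a • x)) = rm ((α j).comp (aw α w)) a • φ j (pw φ w x)
    rw [ih, h]
    congr 1
    unfold rm
    rw [MonoidAlgebra.mapDomainRingHom_comp]
    rfl

lemma el_mul (n : N) (a : ZG N) : el n * a = rm (MulAut.conj n).toMonoidHom a * el n := by
  induction a using MonoidAlgebra.induction_on with
  | of g =>
    unfold el rm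
    simp [MonoidAlgebra.mapDomainRingHom_apply]
  | add a b ha hb => rw [mul_add, map_add, add_mul, ha, hb]
  | smul r a ha => rw [mul_smul_comm, ha, map_zsmul, smul_mul_assoc]

end NStepAux

open NStepAux

theorem task_NStep : TaskNStep := by
  intro N J _ _ α Ω hΩ m c A φ hst hFP
  obtain ⟨k, f, hf, hK⟩ := hFP
  let d : (Fin k → ZG N) →ₗ[ZG N] (Fin c → ZG N) := A.subtype ∘ₗ f
  have hrange : LinearMap.range d = A := by
    rw [LinearMap.range_comp, LinearMap.range_eq_top.2 hf, Submodule.map_top, Submodule.range_subtype]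
  have hker : LinearMap.ker d = LinearMap.ker f := by
    rw [LinearMap.ker_comp, Submodule.ker_subtype]
    rfl
  have hdA : ∀ x, d x ∈ A := fun x => (f x).2
  have hlift : ∀ j, ∃ h : (Fin k → ZG N) →+ (Fin k → ZG N), SL (α j) h ∧
      ∀ x, d (h x) = φ j (d x) := by
    intro j
    have h1 : SL (α j) ((φ j).comp d.toAddMonoidHom) := by
      intro a x
      show φ j (d (a • x)) = rm (α j) a • φ j (d x)
      rw [map_smul, hst.sl]
    exact exists_lift (α j) d ((φ j).comp d.toAddMonoidHom) h1 (fun x => by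
      rw [hrange]
      exact hst.pres j _ (hdA x))
  choose φ' hsl hd using hlift
  have hdpw : ∀ (w : List J) (x : Fin k → ZG N), d (pw φ' w x) = pw φ w (d x) := by
    intro w
    induction w with
    | nil => intro x; rfl
    | cons j w ih =>
      intro x
      show d (φ' j (pw φ' w x)) = φ j (pw φ w (d x))
      rw [hd, ih]
  refine ⟨k, LinearMap.ker f, φ', ⟨hsl, ?_, ?_⟩, hK, d, hrange, hker, hd⟩
  · intro j a ha
    rw [← hker] at ha ⊢
    rw [LinearMap.mem_ker] at ha ⊢
    rw [hd, ha, map_zero]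
  · intro w hw
    obtain ⟨e, he, heA, hea⟩ := hst.hty w hw
    obtain ⟨h, hh, hdh⟩ := exists_lift (MulAut.conj w.2).toMonoidHom d e he (fun x => by
      rw [hrange]; exact heA x)
    have hpw : SL (MulAut.conj w.2).toMonoidHom (pw φ' w.1) := by
      have := pw_sl α hsl w.1
      rwa [hΩ w hw] at this
    refine ⟨AddMonoidHom.mk' (fun x => pw φ' w.1 x - el w.2 • x - h (d x)) ?_, ?_, ?_, ?_⟩
    · intro a b
      rw [map_add, smul_add, map_add, map_add]
      abel
    · intro a x
      show pw φ' w.1 (a • x) - el w.2 • (a • x) - h (d (a • x)) =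
        rm (MulAut.conj w.2).toMonoidHom a • (pw φ' w.1 x - el w.2 • x - h (d x))
      rw [hpw, map_smul, hh, smul_smul, el_mul, mul_smul, smul_sub, smul_sub]
    · intro x
      rw [← hker, LinearMap.mem_ker]
      show d (pw φ' w.1 x - el w.2 • x - h (d x)) = 0
      rw [map_sub, map_sub, hdpw, map_smul, hdh, hea _ (hdA x), sub_self]
    · intro a ha
      show pw φ' w.1 a - el w.2 • a - h (d a) = pw φ' w.1 a - el w.2 • a
      rw [← hker, LinearMap.mem_ker] at ha
      rw [ha, map_zero, sub_zero]

end Pool.Agent.H653R4
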