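import Mathlib
import Pool.Agent.H653R4.Defs

set_option autoImplicit false

/-! n-(n+1)-(n+2) project: the kernel of a surjection of a f.g. group to a f.p. group is normally
finitely generated. -/

namespace Pool.Agent.H653R4

theorem task_Rel : TaskRel := by
  classical
  rintro G Q _ _ π hπ ⟨s, hs⟩ ⟨r, f, S, hf, hker⟩
  choose g hg using fun i : Fin r => hπ (f (FreeGroup.of i))
  let u : FreeGroup (Fin r) →* G := FreeGroup.lift g
  have hu : ∀ v, π (u v) = f v := by
    intro v
    have h : π.comp u = f := by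
      ext i
      simp [u, hg]
    exact DFunLike.congr_fun h v
  choose v hv using fun y : G => hf (π y)
  have hR : ∀ x ∈ S.image u ∪ s.image (fun y => y⁻¹ * u (v y)), π x = 1 := by
    intro x hx
    rw [Finset.mem_union, Finset.mem_image, Finset.mem_image] at hx
    rcases hx with ⟨a, ha, rfl⟩ | ⟨y, hy, rfl⟩
    · rw [hu]
      have h : a ∈ f.ker := by
        rw [hker]
        exact Subgroup.subset_normalClosure ha
      exact h
    · rw [map_mul, map_inv, hu, hv, inv_mul_cancel]
  refine ⟨S.image u ∪ s.image (fun y => y⁻¹ * u (v y)), hR, ?_⟩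
  intro y hy
  generalize hKdef : Subgroup.normalClosure
    ((S.image u ∪ s.image (fun y => y⁻¹ * u (v y)) : Finset G) : Set G) = K
  have hKn : K.Normal := by
    rw [← hKdef]
    exact Subgroup.normalClosure_normal
  have hsub : ∀ x ∈ S.image u ∪ s.image (fun y => y⁻¹ * u (v y)), x ∈ K := by
    intro x hx
    rw [← hKdef]
    exact Subgroup.subset_normalClosure hx
  have hKπ : ∀ k ∈ K, π k = 1 := by
    have h : K ≤ π.ker := by
      rw [← hKdef]
      apply Subgroup.normalClosure_le_normal
      intro x hx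
      exact hR x hx
    intro k hk
    exact h hk
  have hS : ∀ a, f a = 1 → u a ∈ K := by
    have h : Subgroup.normalClosure (↑S : Set (FreeGroup (Fin r))) ≤ K.comap u := by
      apply Subgroup.normalClosure_le_normal
      intro a ha
      exact hsub _ (Finset.mem_union_left _ (Finset.mem_image_of_mem u ha))
    intro a ha
    have h2 : a ∈ f.ker := ha
    rw [hker] at h2
    exact h h2
  have key : ∀ z : G, ∃ w, (u w)⁻¹ * z ∈ K := by
    intro z
    have hz : z ∈ Subgroup.closure (s : Set G) := by
      rw [hs]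
      exact Subgroup.mem_top z
    induction hz using Subgroup.closure_induction with
    | mem x hx =>
      refine ⟨v x, ?_⟩
      have h1 := hsub (x⁻¹ * u (v x))
        (Finset.mem_union_right _ (Finset.mem_image_of_mem (fun y => y⁻¹ * u (v y)) hx))
      have h2 := K.inv_mem h1
      rw [mul_inv_rev, inv_inv] at h2
      exact h2
    | one => exact ⟨1, by simp⟩
    | mul x y _ _ hx hy =>
      obtain ⟨a, ha⟩ := hx
      obtain ⟨b, hb⟩ := hy
      refine ⟨a * b, ?_⟩
      have h1 := hKn.conj_mem _ ha (u b)⁻¹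
      have h2 := K.mul_mem h1 hb
      have e : (u b)⁻¹ * ((u a)⁻¹ * x) * (u b)⁻¹⁻¹ * ((u b)⁻¹ * y) = (u (a * b))⁻¹ * (x * y) := by
        rw [map_mul]
        group
      rwa [e] at h2
    | inv x _ hx =>
      obtain ⟨a, ha⟩ := hx
      refine ⟨a⁻¹, ?_⟩
      have h1 := hKn.conj_mem _ (K.inv_mem ha) (u a)
      have e : u a * ((u a)⁻¹ * x)⁻¹ * (u a)⁻¹ = (u a⁻¹)⁻¹ * x⁻¹ := by
        rw [map_inv]
        group
      rwa [e] at h1
  obtain ⟨w, hw⟩ := key y
  have h1 := hKπ _ hw
  rw [map_mul, map_inv, hu, hy, mul_one, inv_eq_one] at h1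
  have h2 := K.mul_mem (hS w h1) hw
  rwa [mul_inv_cancel_left] at h2

end Pool.Agent.H653R4
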