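import Pool.Agent.H653R4.Defs

/-! Task ResA of project H653-N12 (helper214). -/

set_option autoImplicit false

namespace Pool.Agent.H653R4

theorem resA_rm {G : Type} [Group G] (ε : MonoidAlgebra ℤ G →+* ℤ)
    (hε : ∀ g : G, ε (MonoidAlgebra.of ℤ G g) = 1) (y : ZG G) :
    rm (1 : G →* Unit) y = MonoidAlgebra.single (1 : Unit) (ε y) := by
  have h : rm (1 : G →* Unit) = (MonoidAlgebra.singleOneRingHom (R := ℤ) (M := Unit)).comp ε := by
    refine MonoidAlgebra.ringHom_ext ?_ ?_
    · intro b
      have h1 : (MonoidAlgebra.single (1 : G) b : MonoidAlgebra ℤ G) = ((b : ℤ) : MonoidAlgebra ℤ G) := by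
        rw [MonoidAlgebra.intCast_def]
        simp
      rw [h1, map_intCast, map_intCast]
    · intro a
      have h1 : ε (MonoidAlgebra.single a 1) = 1 := hε a
      rw [RingHom.comp_apply, h1]
      simp only [rm, MonoidAlgebra.mapDomainRingHom_apply, map_one]
      simp [MonoidAlgebra.one_def]
  rw [h]
  rfl

theorem resA_mem {G : Type} [Group G] (ε : MonoidAlgebra ℤ G →+* ℤ)
    (hε : ∀ g : G, ε (MonoidAlgebra.of ℤ G g) = 1) (y : ZG G) :
    y ∈ KR (1 : G →* Unit) ↔ ε y = 0 := by
  have h0 : y ∈ KR (1 : G →* Unit) ↔ rm (1 : G →* Unit) y = 0 := Iff.rfl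
  rw [h0, resA_rm ε hε]
  simp

/-- sum of the coordinates, modulo the augmentation ideal -/
noncomputable def resAf (G : Type) [Group G] (k : ℕ) : (Fin k → ZG G) →ₗ[ZG G] Tr G :=
  (Submodule.mkQ (KR (1 : G →* Unit))).comp
    (∑ j : Fin k, LinearMap.proj j : (Fin k → ZG G) →ₗ[ZG G] ZG G)

theorem resAf_apply {G : Type} [Group G] {k : ℕ} (x : Fin k → ZG G) :
    resAf G k x = Submodule.mkQ (KR (1 : G →* Unit)) (∑ j, x j) := by
  simp [resAf]

theorem task_ResA (_hE : TaskEquiv) (_hS : TaskSch) : TaskResA := by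
  rintro m G _ ⟨k, ε, d, hε, ⟨x0, hx0⟩, h0, h1⟩
  have hk : 0 < k 0 := by
    rcases Nat.eq_zero_or_pos (k 0) with h | h
    · exfalso
      have : IsEmpty (Fin (k 0)) := by rw [h]; infer_instance
      rw [Finset.univ_eq_empty, Finset.sum_empty] at hx0
      exact absurd hx0 (by norm_num)
    · exact h
  -- the ranges
  have hR : ∀ t j : ℕ, j + t + 1 ≤ m → FPx (ZG G) (t + 1) (LinearMap.range (d j)) := by
    intro t
    induction t with
    | zero =>
      intro j _
      exact ⟨k (j + 1), (d j).rangeRestrict, LinearMap.surjective_rangeRestrict _, trivial⟩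
    | succ t ih =>
      intro j hj
      refine ⟨k (j + 1), (d j).rangeRestrict, LinearMap.surjective_rangeRestrict _, ?_⟩
      have hker : LinearMap.ker (d j).rangeRestrict = LinearMap.range (d (j + 1)) := by
        rw [LinearMap.ker_rangeRestrict, h1 j (by omega)]
      rw [hker]
      exact ih (j + 1) (by omega)
  refine ⟨k 0, resAf G (k 0), ?_, ?_⟩
  · intro z
    obtain ⟨y, rfl⟩ := Submodule.mkQ_surjective _ z
    refine ⟨Pi.single ⟨0, hk⟩ y, ?_⟩
    rw [resAf_apply]
    congr 1
    rw [Finset.sum_pi_single']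
    simp
  · cases m with
    | zero => trivial
    | succ m =>
      have hker : LinearMap.ker (resAf G (k 0)) = LinearMap.range (d 0) := by
        ext x
        rw [← h0 (Nat.succ_pos m) x, LinearMap.mem_ker, resAf_apply, Submodule.mkQ_apply,
          Submodule.Quotient.mk_eq_zero, resA_mem ε hε, map_sum]
      rw [hker]
      exact hR m 0 (by omega)

end Pool.Agent.H653R4
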