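import Pool.Agent.H653R4.Defs

set_option autoImplicit false

namespace Pool.Agent.H653R4

namespace ResBAux

section

variable (S : Type) [Ring S]

/-- a state: a submodule of a free module of finite rank -/
abbrev St := Σ c : ℕ, Submodule S (Fin c → S)

open scoped Classical in
/-- a cover of the submodule by a free module of finite rank, if there is one -/
noncomputable def stepData (s : St S) : Σ k : ℕ, (Fin k → S) →ₗ[S] (Fin s.1 → S) :=
  if h : ∃ d : Σ k : ℕ, (Fin k → S) →ₗ[S] (Fin s.1 → S), LinearMap.range d.2 = s.2 then h.choose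
  else ⟨0, 0⟩

theorem stepData_range (s : St S)
    (h : ∃ d : Σ k : ℕ, (Fin k → S) →ₗ[S] (Fin s.1 → S), LinearMap.range d.2 = s.2) :
    LinearMap.range (stepData S s).2 = s.2 := by
  unfold stepData
  rw [dif_pos h]
  exact h.choose_spec

/-- next state -/
noncomputable def next (s : St S) : St S := ⟨(stepData S s).1, LinearMap.ker (stepData S s).2⟩

/-- the sequence of states -/
noncomputable def seq (s0 : St S) : ℕ → St S
  | 0 => s0
  | n + 1 => next S (seq s0 n)

theorem exists_of_FPx (n : ℕ) (s : St S) (h : FPx S (n + 1) s.2) :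
    ∃ d : Σ k : ℕ, (Fin k → S) →ₗ[S] (Fin s.1 → S), LinearMap.range d.2 = s.2 := by
  obtain ⟨k, f, hf, -⟩ := h
  refine ⟨⟨k, s.2.subtype.comp f⟩, ?_⟩
  rw [LinearMap.range_comp, LinearMap.range_eq_top.2 hf, Submodule.map_top, Submodule.range_subtype]

theorem FPx_next (hS : TaskSch) (n : ℕ) (s : St S) (h : FPx S (n + 1) s.2) :
    FPx S n (next S s).2 := by
  have hr := stepData_range S s (exists_of_FPx S n s h)
  have hmem : ∀ x, (stepData S s).2 x ∈ s.2 := by
    intro x
    rw [← hr]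
    exact LinearMap.mem_range_self _ x
  have hker : LinearMap.ker ((stepData S s).2.codRestrict s.2 hmem) =
      LinearMap.ker (stepData S s).2 := LinearMap.ker_codRestrict _ _ _
  have hsurj : Function.Surjective ((stepData S s).2.codRestrict s.2 hmem) := by
    rintro ⟨y, hy⟩
    rw [← hr] at hy
    obtain ⟨x, hx⟩ := hy
    exact ⟨x, Subtype.ext hx⟩
  have h1 := (hS S n s.2 (Fin (stepData S s).1 → S) (stepData S s).1 ⟨LinearEquiv.refl _ _⟩
    ((stepData S s).2.codRestrict s.2 hmem) hsurj).1 h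
  rw [hker] at h1
  exact h1

theorem FPx_seq (hS : TaskSch) (m : ℕ) (s0 : St S) (h : FPx S m s0.2) :
    ∀ i n : ℕ, n + i = m → FPx S n (seq S s0 i).2 := by
  intro i
  induction i with
  | zero =>
    intro n hn
    have : n = m := by omega
    subst this
    exact h
  | succ i ih =>
    intro n hn
    exact FPx_next S hS n _ (ih (n + 1) (by omega))

end

/-- augmentation -/
noncomputable def aug (G : Type) [Group G] : ZG G →+* ℤ :=
  (MonoidAlgebra.uniqueRingEquiv (R := ℤ) Unit).toRingHom.comp (rm (1 : G →* Unit))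

theorem aug_eq_zero (G : Type) [Group G] (x : ZG G) : aug G x = 0 ↔ x ∈ KR (1 : G →* Unit) := by
  show (MonoidAlgebra.uniqueRingEquiv (R := ℤ) Unit) (rm (1 : G →* Unit) x) = 0 ↔ rm (1 : G →* Unit) x = 0
  exact map_eq_zero_iff _ (MonoidAlgebra.uniqueRingEquiv (R := ℤ) Unit).injective

theorem aug_of (G : Type) [Group G] (g : G) : aug G (MonoidAlgebra.of ℤ G g) = 1 := by
  have h1 : rm (1 : G →* Unit) (MonoidAlgebra.of ℤ G g) = 1 := by
    simp [rm, MonoidAlgebra.one_def]
  show (MonoidAlgebra.uniqueRingEquiv (R := ℤ) Unit) (rm (1 : G →* Unit) (MonoidAlgebra.of ℤ G g)) = 1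
  rw [h1, map_one]

end ResBAux

open ResBAux in
theorem task_ResB (hS : TaskSch) : TaskResB := by
  intro m G _ h
  let pr : (Fin 1 → ZG G) →ₗ[ZG G] ZG G := LinearMap.proj 0
  let f : (Fin 1 → ZG G) →ₗ[ZG G] Tr G := (KR (1 : G →* Unit)).mkQ.comp pr
  have hf : Function.Surjective f := by
    intro y
    obtain ⟨x, rfl⟩ := Submodule.mkQ_surjective _ y
    exact ⟨fun _ => x, rfl⟩
  have hk : LinearMap.ker f = A0 G := by
    show LinearMap.ker ((KR (1 : G →* Unit)).mkQ.comp pr) = _
    rw [LinearMap.ker_comp, Submodule.ker_mkQ]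
    rfl
  have h0 := (hS (ZG G) m (Tr G) (Fin 1 → ZG G) 1 ⟨LinearEquiv.refl _ _⟩ f hf).1 h
  rw [hk] at h0
  let s0 : St (ZG G) := ⟨1, A0 G⟩
  have hseq := FPx_seq (ZG G) hS m s0 h0
  refine ⟨fun i => (seq (ZG G) s0 i).1, aug G, fun i => (stepData (ZG G) (seq (ZG G) s0 i)).2,
    aug_of G, ⟨fun _ => 1, ?_⟩, ?_, ?_⟩
  · show ∑ j : Fin 1, aug G 1 = 1
    simp
  · intro hm x
    have hr := stepData_range (ZG G) s0 (exists_of_FPx (ZG G) (m - 1) s0
      (by have : m - 1 + 1 = m := by omega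
          rw [this]; exact h0))
    change (Fin 1 → ZG G) at x
    show ∑ j : Fin 1, aug G (x j) = 0 ↔ x ∈ LinearMap.range (stepData (ZG G) s0).2
    rw [hr, Fin.sum_univ_one, aug_eq_zero]
    rfl
  · intro j hj
    exact stepData_range (ZG G) (seq (ZG G) s0 (j + 1)) (exists_of_FPx (ZG G) (m - (j + 2)) _
      (hseq (j + 1) (m - (j + 2) + 1) (by omega)))

end Pool.Agent.H653R4
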