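import Pool.Agent.H653R4.Defs

set_option autoImplicit false
set_option maxHeartbeats 4000000

namespace Pool.Agent.H653R4

theorem Restr_mono (S : Type) [Ring S] : ∀ (n : ℕ) (M : Type) [AddCommGroup M] [Module S M],
    FPx S (n + 1) M → FPx S n M := by
  intro n
  induction n with
  | zero => intro M _ _ _; trivial
  | succ n ih =>
    rintro M _ _ ⟨k, f, hf, hk⟩
    exact ⟨k, f, hf, ih _ hk⟩

theorem Restr_sub (S : Type) [Ring S] : ∀ (n : ℕ) (M : Type) [AddCommGroup M] [Module S M]
    [Subsingleton M], FPx S n M := by
  intro n
  induction n with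
  | zero => intro M _ _ _; trivial
  | succ n ih =>
    intro M _ _ _
    refine ⟨0, 0, fun m => ⟨0, Subsingleton.elim _ _⟩, ?_⟩
    have : Subsingleton (LinearMap.ker (0 : (Fin 0 → S) →ₗ[S] M)) := inferInstance
    exact ih _

theorem Restr_pi (hX : TaskExtn) (S S' : Type) [Ring S] [AddCommGroup S'] [Module S S'] (n : ℕ)
    (h : FPx S n S') (k : ℕ) : FPx S n (Fin k → S') := by
  induction k with
  | zero => exact Restr_sub S n _
  | succ k ih =>
    refine (hX S S' (Fin (k + 1) → S') (Fin k → S') (LinearMap.single S (fun _ => S') 0)
      (LinearMap.funLeft S S' Fin.succ) ?_ ?_ ?_).1 n h ih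
    · intro a b hab
      have := congrFun hab 0
      simpa using this
    · intro x
      refine ⟨Fin.cons 0 x, ?_⟩
      funext i
      simp [LinearMap.funLeft_apply]
    · intro b
      constructor
      · intro hb
        refine ⟨b 0, ?_⟩
        funext i
        refine Fin.cases ?_ (fun j => ?_) i
        · simp
        · have := congrFun hb j
          simp only [LinearMap.funLeft_apply, Pi.zero_apply] at this
          rw [this]
          simp
      · rintro ⟨a, rfl⟩
        funext i
        simp [LinearMap.funLeft_apply]

theorem task_Restr (_hE : TaskEquiv) (_hS : TaskSch) (hX : TaskExtn) : TaskRestr := by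
  intro S S' _ _ ρ _ hρ hsurj n
  induction n with
  | zero => intro _ A _ _ _ _ _; trivial
  | succ n ih =>
    intro hS' A _ _ _ hA hFP
    obtain ⟨k, f, hf, hk⟩ := hFP
    let _ : Module S (LinearMap.ker f) := Module.compHom (LinearMap.ker f) ρ
    have hK : FPx S n (LinearMap.ker f) :=
      ih (Restr_mono S n S' hS') (LinearMap.ker f) (fun s a => rfl) hk
    have hsm : ∀ (s : S) (x : Fin k → S'), s • x = ρ s • x := by
      intro s x
      funext i
      rw [Pi.smul_apply, Pi.smul_apply, hρ, smul_eq_mul]
    let inc : LinearMap.ker f →ₗ[S] (Fin k → S') :=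
      { toFun := fun x => (x : Fin k → S')
        map_add' := fun x y => rfl
        map_smul' := fun s x => by
          rw [RingHom.id_apply, hsm]
          rfl }
    let g : (Fin k → S') →ₗ[S] A :=
      { toFun := f
        map_add' := f.map_add
        map_smul' := fun s x => by
          rw [RingHom.id_apply, hsm, f.map_smul, hA] }
    refine (hX S (LinearMap.ker f) (Fin k → S') A inc g ?_ ?_ ?_).2 n hK
      (Restr_pi hX S S' (n + 1) hS' k)
    · intro x y hxy
      exact Subtype.ext hxy
    · exact hf
    · intro b
      constructor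
      · intro hb
        exact ⟨⟨b, hb⟩, rfl⟩
      · rintro ⟨a, rfl⟩
        exact a.2

end Pool.Agent.H653R4
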