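import Pool.Agent.H653R4.Defs

set_option autoImplicit false

/-! Isomorphism invariance of `FPx` and Schanuel's lemma (tasks Equiv and Sch) -/

namespace Pool.Agent.H653R4

theorem task_Equiv : TaskEquiv := by
  intro S _ n M M' _ _ _ _ ⟨e⟩ h
  cases n with
  | zero => trivial
  | succ n =>
    obtain ⟨k, f, hf, hk⟩ := h
    refine ⟨k, e.toLinearMap ∘ₗ f, e.surjective.comp hf, ?_⟩
    rw [LinearEquiv.ker_comp]
    exact hk

namespace SchAux

variable {S : Type} [Ring S]

/-- an injective map onto the kernel of another map -/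
theorem ker_equiv {A B C : Type} [AddCommGroup A] [Module S A] [AddCommGroup B] [Module S B]
    [AddCommGroup C] [Module S C] (i : A →ₗ[S] B) (h : B →ₗ[S] C) (hi : Function.Injective i)
    (hh : ∀ b, h b = 0 ↔ ∃ a, i a = b) : Nonempty (A ≃ₗ[S] LinearMap.ker h) := by
  have hr : LinearMap.range i = LinearMap.ker h := by
    ext b
    rw [LinearMap.mem_range, LinearMap.mem_ker]
    exact (hh b).symm
  exact ⟨(LinearEquiv.ofInjective i hi).trans (LinearEquiv.ofEq _ _ hr)⟩

/-- a surjection onto a projective module splits -/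
theorem split_proj {K P : Type} [AddCommGroup K] [Module S K] [AddCommGroup P] [Module S P]
    [Module.Projective S P] (h : K →ₗ[S] P) (hs : Function.Surjective h) :
    Nonempty ((LinearMap.ker h × P) ≃ₗ[S] K) := by
  obtain ⟨s, hs⟩ := Module.projective_lifting_property h LinearMap.id hs
  have hs' : ∀ p, h (s p) = p := fun p => LinearMap.congr_fun hs p
  refine ⟨LinearEquiv.ofBijective (LinearMap.coprod (LinearMap.ker h).subtype s) ⟨?_, ?_⟩⟩
  · rw [injective_iff_map_eq_zero]
    rintro ⟨⟨a, ha⟩, p⟩ e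
    rw [LinearMap.mem_ker] at ha
    simp only [LinearMap.coprod_apply, Submodule.subtype_apply] at e
    have hp : p = 0 := by
      have := congrArg h e
      rwa [map_add, ha, hs', zero_add, map_zero] at this
    subst hp
    rw [map_zero, add_zero] at e
    subst e
    rfl
  · intro x
    refine ⟨(⟨x - s (h x), ?_⟩, h x), ?_⟩
    · rw [LinearMap.mem_ker, map_sub, hs', sub_self]
    · simp

theorem fpx_prod (n k : ℕ) (A : Type) [AddCommGroup A] [Module S A] (h : FPx S n A) :
    FPx S n (A × (Fin k → S)) := by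
  cases n with
  | zero => trivial
  | succ n =>
    obtain ⟨l, f, hf, hk⟩ := h
    let e : (Fin (l + k) → S) ≃ₗ[S] (Fin l → S) × (Fin k → S) :=
      (LinearEquiv.funCongrLeft S S finSumFinEquiv).trans
        (LinearEquiv.sumArrowLequivProdArrow (Fin l) (Fin k) S S)
    refine ⟨l + k, (f.prodMap LinearMap.id) ∘ₗ e.toLinearMap,
      (hf.prodMap Function.surjective_id).comp e.surjective, ?_⟩
    refine task_Equiv S n (LinearMap.ker f) _ ?_ hk
    refine ker_equiv (e.symm.toLinearMap ∘ₗ LinearMap.inl S _ _ ∘ₗ (LinearMap.ker f).subtype) _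
      ?_ ?_
    · exact e.symm.injective.comp (LinearMap.inl_injective.comp (Submodule.subtype_injective _))
    · intro b
      constructor
      · intro hb
        have hb' : (f (e b).1, (e b).2) = ((0 : A), (0 : Fin k → S)) := hb
        rw [Prod.mk.injEq] at hb'
        refine ⟨⟨(e b).1, hb'.1⟩, ?_⟩
        apply e.injective
        simp only [LinearMap.comp_apply, LinearEquiv.coe_coe, LinearEquiv.apply_symm_apply,
          Submodule.subtype_apply, LinearMap.inl_apply]
        exact Prod.ext rfl hb'.2.symm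
      · rintro ⟨⟨a, ha⟩, rfl⟩
        simp only [LinearMap.comp_apply, LinearEquiv.coe_coe, LinearEquiv.apply_symm_apply,
          Submodule.subtype_apply, LinearMap.inl_apply, LinearMap.prodMap_apply, map_zero]
        rw [LinearMap.mem_ker] at ha
        rw [ha]
        rfl

theorem fpx_of_prod (n k : ℕ) (A : Type) [AddCommGroup A] [Module S A]
    (h : FPx S n (A × (Fin k → S))) : FPx S n A := by
  cases n with
  | zero => trivial
  | succ n =>
    obtain ⟨l, f, hf, hk⟩ := h
    refine ⟨l, LinearMap.fst S _ _ ∘ₗ f, Prod.fst_surjective.comp hf, ?_⟩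
    let g : LinearMap.ker (LinearMap.fst S A (Fin k → S) ∘ₗ f) →ₗ[S] (Fin k → S) :=
      LinearMap.snd S _ _ ∘ₗ f ∘ₗ (LinearMap.ker (LinearMap.fst S A (Fin k → S) ∘ₗ f)).subtype
    have hg : Function.Surjective g := by
      intro p
      obtain ⟨x, hx⟩ := hf (0, p)
      exact ⟨⟨x, by simp [hx]⟩, by simp [g, hx]⟩
    obtain ⟨e⟩ := split_proj g hg
    refine task_Equiv S n (LinearMap.ker g × (Fin k → S)) _ ⟨e⟩ (fpx_prod n k _ ?_)
    refine task_Equiv S n (LinearMap.ker f) _ ?_ hk
    have hle : LinearMap.ker f ≤ LinearMap.ker (LinearMap.fst S A (Fin k → S) ∘ₗ f) := by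
      intro x hx
      rw [LinearMap.mem_ker] at hx
      simp [hx]
    refine ker_equiv (Submodule.inclusion hle) g (Submodule.inclusion_injective hle) ?_
    rintro ⟨b, hb⟩
    have hb1 : (f b).1 = 0 := hb
    constructor
    · intro h0
      have h2 : (f b).2 = 0 := h0
      exact ⟨⟨b, Prod.ext hb1 h2⟩, rfl⟩
    · rintro ⟨⟨a, ha⟩, e⟩
      have e' : a = b := congrArg Subtype.val e
      subst e'
      rw [LinearMap.mem_ker] at ha
      show (f a).2 = 0
      rw [ha]
      rfl

/-- one half of Schanuel's lemma: the pullback of `f` and `g` -/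
theorem pullback_equiv {F F' M : Type} [AddCommGroup M] [Module S M]
    [AddCommGroup F] [Module S F] [AddCommGroup F'] [Module S F'] [Module.Projective S F]
    (f : F →ₗ[S] M) (g : F' →ₗ[S] M) (hg : Function.Surjective g) :
    Nonempty ((LinearMap.ker g × F) ≃ₗ[S]
      LinearMap.ker (f ∘ₗ LinearMap.fst S F F' - g ∘ₗ LinearMap.snd S F F')) := by
  set X := LinearMap.ker (f ∘ₗ LinearMap.fst S F F' - g ∘ₗ LinearMap.snd S F F') with hX
  have hmem : ∀ x : F × F', x ∈ X ↔ f x.1 = g x.2 := by
    intro x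
    rw [hX, LinearMap.mem_ker]
    simp [sub_eq_zero]
  let p : X →ₗ[S] F := LinearMap.fst S F F' ∘ₗ X.subtype
  have hp : Function.Surjective p := by
    intro x
    obtain ⟨y, hy⟩ := hg (f x)
    exact ⟨⟨(x, y), (hmem _).2 hy.symm⟩, rfl⟩
  obtain ⟨e⟩ := split_proj p hp
  let i : LinearMap.ker g →ₗ[S] X :=
    LinearMap.codRestrict X (LinearMap.inr S F F' ∘ₗ (LinearMap.ker g).subtype) (by
      rintro ⟨y, hy⟩
      rw [hmem]
      simpa using hy.symm)
  obtain ⟨e'⟩ : Nonempty (LinearMap.ker g ≃ₗ[S] LinearMap.ker p) := by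
    refine ker_equiv i p ?_ ?_
    · intro y y' h
      have h1 := congrArg (fun z : X => (z : F × F').2) h
      exact Subtype.ext h1
    · rintro ⟨⟨x, y⟩, hxy⟩
      constructor
      · intro h0
        have h0' : x = 0 := h0
        subst h0'
        have hy : g y = 0 := by
          have := (hmem _).1 hxy
          simpa using this.symm
        exact ⟨⟨y, hy⟩, rfl⟩
      · rintro ⟨y', h⟩
        have h1 := congrArg (fun z : X => (z : F × F').1) h
        exact h1.symm
  exact ⟨(LinearEquiv.prodCongr e' (LinearEquiv.refl S F)).trans e⟩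

/-- Schanuel's lemma -/
theorem schanuel {F F' M : Type} [AddCommGroup M] [Module S M]
    [AddCommGroup F] [Module S F] [AddCommGroup F'] [Module S F'] [Module.Projective S F]
    [Module.Projective S F']
    (f : F →ₗ[S] M) (g : F' →ₗ[S] M) (hf : Function.Surjective f) (hg : Function.Surjective g) :
    Nonempty ((LinearMap.ker g × F) ≃ₗ[S] (LinearMap.ker f × F')) := by
  obtain ⟨e1⟩ := pullback_equiv f g hg
  obtain ⟨e2⟩ := pullback_equiv g f hf
  obtain ⟨e3⟩ : Nonempty (LinearMap.ker (f ∘ₗ LinearMap.fst S F F' - g ∘ₗ LinearMap.snd S F F') ≃ₗ[S]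
      LinearMap.ker (g ∘ₗ LinearMap.fst S F' F - f ∘ₗ LinearMap.snd S F' F)) := by
    refine ker_equiv ((LinearEquiv.prodComm S F F').toLinearMap ∘ₗ Submodule.subtype _) _
      ((LinearEquiv.prodComm S F F').injective.comp (Submodule.subtype_injective _)) ?_
    rintro ⟨y, x⟩
    constructor
    · intro h
      refine ⟨⟨(x, y), ?_⟩, rfl⟩
      have h' : g y - f x = 0 := h
      show f x - g y = 0
      rw [sub_eq_zero] at h' ⊢
      exact h'.symm
    · rintro ⟨⟨⟨x', y'⟩, h'⟩, e⟩
      have e' : (y', x') = (y, x) := e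
      rw [Prod.mk.injEq] at e'
      obtain ⟨rfl, rfl⟩ := e'
      have h2 : f x' - g y' = 0 := h'
      show g y' - f x' = 0
      rw [sub_eq_zero] at h2 ⊢
      exact h2.symm
  exact ⟨(e1.trans e3).trans e2.symm⟩

end SchAux

open SchAux in
theorem task_Sch : TaskSch := by
  rintro S _ n M F _ _ _ _ k ⟨e⟩ f hf
  constructor
  · rintro ⟨l, g, hg, hk⟩
    have : Module.Projective S F := Module.Projective.of_equiv e.symm
    obtain ⟨e'⟩ := schanuel f g hf hg
    apply fpx_of_prod n l
    refine task_Equiv S n _ _ ⟨e'⟩ ?_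
    refine task_Equiv S n (LinearMap.ker g × (Fin k → S)) _
      ⟨LinearEquiv.prodCongr (LinearEquiv.refl S _) e.symm⟩ ?_
    exact fpx_prod n k _ hk
  · intro h
    refine ⟨k, f ∘ₗ e.symm.toLinearMap, hf.comp e.symm.surjective, ?_⟩
    refine task_Equiv S n (LinearMap.ker f) _ ?_ h
    refine ker_equiv (e.toLinearMap ∘ₗ (LinearMap.ker f).subtype) _
      (e.injective.comp (Submodule.subtype_injective _)) ?_
    intro b
    constructor
    · intro hb
      exact ⟨⟨e.symm b, hb⟩, by simp⟩
    · rintro ⟨⟨a, ha⟩, rfl⟩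
      simpa using ha

end Pool.Agent.H653R4
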