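import Pool.Agent.H653R4.Defs

set_option autoImplicit false
set_option maxHeartbeats 4000000

/-! Task `Sec` of the n-(n+1)-(n+2) project (helper925) -/

namespace Pool.Agent.H653R4

theorem task_Sec : TaskSec := by
  intro N G₁ G₂ Q P _ _ _ _ _ π₁ π₂ f₁ f₂ ι₁ ιP hcomm hlift huniq hsurj hf1 hf2 hι _hinj c A L hL
  classical
  choose s hs using hsurj
  have hσ : ∀ g : G₁, ∃ x : P, f₁ x = g ∧ f₂ x = s (π₁ g) := by
    intro g
    exact hlift g (s (π₁ g)) (hs (π₁ g)).symm
  choose σ hσ1 hσ2 using hσ
  have hσmul : ∀ (g : G₁) (n : N), σ (g * ι₁ n) = σ g * ιP n := by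
    intro g n
    have h := huniq (σ (g * ι₁ n) * (σ g * ιP n)⁻¹) (by
      rw [map_mul, map_inv, map_mul, hσ1, hσ1, hf1, mul_inv_cancel]) (by
      rw [map_mul, map_inv, map_mul, hσ2, hσ2, hf2, map_mul, hι, mul_one, mul_one, mul_inv_cancel])
    exact mul_inv_eq_one.mp h
  -- key identity in one coordinate
  have key1 : ∀ (g : G₁) (y : ZG N),
      MonoidAlgebra.mapDomain σ (el g * rm ι₁ y) = el (σ g) * rm ιP y := by
    intro g y
    induction y using MonoidAlgebra.induction_linear with
    | zero => rw [map_zero, map_zero, mul_zero, mul_zero, MonoidAlgebra.mapDomain_zero]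
    | add a b ha hb =>
      rw [map_add, mul_add, MonoidAlgebra.mapDomain_add, ha, hb, map_add, mul_add]
    | single n k =>
      simp [el, rm, MonoidAlgebra.mapDomain_single, MonoidAlgebra.single_mul_single, hσmul]
  have key2 : ∀ (x : P) (y : ZG N),
      rm f₁ (el x * rm ιP y) = el (f₁ x) * rm ι₁ y := by
    intro x y
    induction y using MonoidAlgebra.induction_linear with
    | zero => rw [map_zero, map_zero, mul_zero, mul_zero, map_zero]
    | add a b ha hb =>
      rw [map_add, mul_add, map_add, ha, hb, map_add, mul_add]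
    | single n k =>
      simp [el, rm, MonoidAlgebra.mapDomain_single, MonoidAlgebra.single_mul_single, hf1]
  -- the section
  let Θ : (Fin c → ZG P) →+ (Fin c → ZG P) :=
    AddMonoidHom.mk' (fun y i => y i - MonoidAlgebra.mapDomain σ (rm f₁ (y i))) (by
      intro y z; funext i
      show (y i + z i) - MonoidAlgebra.mapDomain σ (rm f₁ (y i + z i)) = _
      rw [map_add, MonoidAlgebra.mapDomain_add]
      show _ = (y i - MonoidAlgebra.mapDomain σ (rm f₁ (y i))) +
        (z i - MonoidAlgebra.mapDomain σ (rm f₁ (z i)))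
      abel)
  have hΘ : ∀ y i, Θ y i = y i - MonoidAlgebra.mapDomain σ (rm f₁ (y i)) := fun y i => rfl
  have main1 : ∀ (x : P), ∀ a ∈ A, Θ (el x • vm (rm ιP) a) ∈ L := by
    intro x a ha
    have h1 : Θ (el x • vm (rm ιP) a) = el x • vm (rm ιP) a - el (σ (f₁ x)) • vm (rm ιP) a := by
      funext i
      rw [hΘ]
      show el x * rm ιP (a i) - MonoidAlgebra.mapDomain σ (rm f₁ (el x * rm ιP (a i))) =
        el x * rm ιP (a i) - el (σ (f₁ x)) * rm ιP (a i)
      rw [key2, key1]
    rw [h1]
    have hr : f₁ (x * (σ (f₁ x))⁻¹) = 1 := by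
      rw [map_mul, map_inv, hσ1, mul_inv_cancel]
    have hb : el (σ (f₁ x)) • vm (rm ιP) a ∈ Bx (rm ιP) A :=
      Submodule.smul_mem _ _ (Submodule.subset_span ⟨a, ha, rfl⟩)
    have h2 := hL _ hr _ hb
    rw [smul_smul] at h2
    have h3 : el (x * (σ (f₁ x))⁻¹) * el (σ (f₁ x)) = el x := by
      simp only [el]
      rw [← map_mul, inv_mul_cancel_right]
    rwa [h3] at h2
  -- all of `B`
  have main2 : ∀ b ∈ Bx (rm ιP) A, ∀ z : ZG P, Θ (z • b) ∈ L := by
    intro b hb
    induction hb using Submodule.span_induction with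
    | mem b hb =>
      obtain ⟨a, ha, rfl⟩ := hb
      intro z
      induction z using MonoidAlgebra.induction_linear with
      | zero => rw [zero_smul, map_zero]; exact L.zero_mem
      | add y z hy hz => rw [add_smul, map_add]; exact L.add_mem hy hz
      | single x k =>
        have h4 : (MonoidAlgebra.single x k : ZG P) = k • el x := by
          simp [el]
        rw [h4, smul_assoc, map_zsmul]
        exact zsmul_mem (main1 x a ha) k
    | zero => intro z; rw [smul_zero, map_zero]; exact L.zero_mem
    | add b b' _ _ hb hb' =>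
      intro z
      rw [smul_add, map_add]
      exact L.add_mem (hb z) (hb' z)
    | smul w b _ hb =>
      intro z
      rw [smul_smul]
      exact hb _
  intro b hb hb0
  have h := main2 b hb 1
  rw [one_smul] at h
  have h5 : Θ b = b := by
    funext i
    rw [hΘ]
    have h6 : rm f₁ (b i) = 0 := congrFun hb0 i
    rw [h6, MonoidAlgebra.mapDomain_zero, sub_zero]
  rwa [h5] at h

end Pool.Agent.H653R4
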