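import Mathlib
import Pool.Agent.H653R4.Defs

set_option autoImplicit false
set_option maxHeartbeats 4000000

/-! Task Start of project H653-N12 (helper873) -/

namespace Pool.Agent.H653R4

namespace StartAux

variable {G H : Type} [Group G] [Group H]

theorem rm_el (p : G →* H) (g : G) : rm p (el g) = el (p g) := by simp [rm, el]

theorem el_mul (g h : G) : el (g * h) = el g * el h := by simp [el]

theorem el_one : el (1 : G) = 1 := map_one _

theorem rm_smul (p : G →* H) (r : ℤ) (x : ZG G) : rm p (r • x) = r • rm p x := by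
  rw [zsmul_eq_mul, zsmul_eq_mul, map_mul, map_intCast]

theorem rm_rm (p : G →* H) (x : ZG G) : rm (1 : H →* Unit) (rm p x) = rm (1 : G →* Unit) x := by
  refine MonoidAlgebra.induction_on
    (motive := fun x => rm (1 : H →* Unit) (rm p x) = rm (1 : G →* Unit) x) x ?_ ?_ ?_
  · intro g
    change rm _ (rm p (el g)) = rm _ (el g)
    rw [rm_el, rm_el, rm_el]
  · intro x y hx hy
    rw [map_add, map_add, map_add, hx, hy]
  · intro r x hx
    rw [rm_smul, rm_smul, rm_smul, hx]

theorem rm_surj (p : G →* H) (hp : Function.Surjective p) : Function.Surjective (rm p) := by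
  intro y
  refine MonoidAlgebra.induction_on (motive := fun y => ∃ x, rm p x = y) y ?_ ?_ ?_
  · intro h
    obtain ⟨g, rfl⟩ := hp h
    exact ⟨el g, rm_el p g⟩
  · rintro _ _ ⟨a, rfl⟩ ⟨b, rfl⟩
    exact ⟨a + b, map_add _ _ _⟩
  · rintro r _ ⟨a, rfl⟩
    exact ⟨r • a, rm_smul p r a⟩

/-- the left ideal generated by the `h_j⁻¹ - 1` is the augmentation ideal -/
theorem aug_span {J : Type} (h : J → H) (hc : Submonoid.closure (Set.range h) = ⊤) (x : ZG H)
    (hx : rm (1 : H →* Unit) x = 0) :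
    x ∈ Submodule.span (ZG H) (Set.range fun j => el (h j)⁻¹ - 1) := by
  set I := Submodule.span (ZG H) (Set.range fun j => el (h j)⁻¹ - 1) with hI
  have h1 : ∀ g : H, el g⁻¹ - 1 ∈ I := by
    intro g
    have hg : g ∈ Submonoid.closure (Set.range h) := by rw [hc]; trivial
    induction hg using Submonoid.closure_induction with
    | mem g hg =>
      obtain ⟨j, rfl⟩ := hg
      exact Submodule.subset_span ⟨j, rfl⟩
    | one => rw [inv_one, el_one, sub_self]; exact I.zero_mem
    | mul a b _ _ ha hb =>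
      have e : el (a * b)⁻¹ - 1 = el b⁻¹ • (el a⁻¹ - 1) + (el b⁻¹ - 1) := by
        rw [mul_inv_rev, el_mul, smul_eq_mul, mul_sub, mul_one]; abel
      rw [e]
      exact I.add_mem (I.smul_mem _ ha) hb
  have h2 : ∀ g : H, el g - 1 ∈ I := fun g => by
    have := h1 g⁻¹
    rwa [inv_inv] at this
  have h3 : ∀ x : ZG H, x - rm (1 : Unit →* H) (rm (1 : H →* Unit) x) ∈ I := by
    intro x
    refine MonoidAlgebra.induction_on
      (motive := fun x => x - rm (1 : Unit →* H) (rm (1 : H →* Unit) x) ∈ I) x ?_ ?_ ?_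
    · intro g
      change el g - rm _ (rm _ (el g)) ∈ I
      rw [rm_el, rm_el]
      have : (1 : Unit →* H) ((1 : H →* Unit) g) = 1 := rfl
      rw [this, el_one]
      exact h2 g
    · intro x y hx hy
      rw [map_add, map_add]
      have e : x + y - (rm (1 : Unit →* H) (rm (1 : H →* Unit) x) +
          rm (1 : Unit →* H) (rm (1 : H →* Unit) y)) = (x - rm (1 : Unit →* H) (rm (1 : H →* Unit) x))
          + (y - rm (1 : Unit →* H) (rm (1 : H →* Unit) y)) := by abel
      rw [e]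
      exact I.add_mem hx hy
    · intro r x hx
      rw [rm_smul, rm_smul, ← smul_sub]
      have e : r • (x - rm (1 : Unit →* H) (rm (1 : H →* Unit) x)) =
          ((r : ℤ) : ZG H) • (x - rm (1 : Unit →* H) (rm (1 : H →* Unit) x)) := by
        rw [smul_eq_mul]; simp
      rw [e]
      exact I.smul_mem _ hx
  have := h3 x
  rwa [hx, map_zero, sub_zero] at this

/-- `v ↦ ∑ (v_j h_j⁻¹ - v_j)` -/
noncomputable def psi {J : Type} [Fintype J] (h : J → H) : (J → ZG H) →ₗ[ZG H] ZG H :=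
  Fintype.linearCombination (ZG H) (fun j => el (h j)⁻¹ - 1)

theorem psi_apply {J : Type} [Fintype J] (h : J → H) (v : J → ZG H) :
    psi h v = ∑ j, (v j * el (h j)⁻¹ - v j) := by
  unfold psi
  rw [Fintype.linearCombination_apply]
  refine Finset.sum_congr rfl fun j _ => ?_
  rw [smul_eq_mul, mul_sub, mul_one]

theorem psi_mem {J : Type} [Fintype J] (h : J → H) (v : J → ZG H) :
    psi h v ∈ KR (1 : H →* Unit) := by
  change rm (1 : H →* Unit) (psi h v) = 0
  rw [psi_apply, map_sum]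
  refine Finset.sum_eq_zero fun j _ => ?_
  rw [map_sub, map_mul, rm_el]
  have : (1 : H →* Unit) (h j)⁻¹ = 1 := rfl
  rw [this, el_one, mul_one, sub_self]

theorem psi_surj {J : Type} [Fintype J] (h : J → H) (hc : Submonoid.closure (Set.range h) = ⊤)
    (x : ZG H) (hx : x ∈ KR (1 : H →* Unit)) : ∃ v, psi h v = x := by
  have h1 := aug_span h hc x hx
  rw [Submodule.mem_span_range_iff_exists_fun] at h1
  obtain ⟨c, hc⟩ := h1
  exact ⟨c, by unfold psi; rw [Fintype.linearCombination_apply]; exact hc⟩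

theorem free1 (S : Type) [Ring S] : Nonempty (S ≃ₗ[S] (Fin 1 → S)) :=
  ⟨(LinearEquiv.funUnique (Fin 1) S S).symm⟩

theorem freeJ (S J : Type) [Ring S] [Fintype J] :
    Nonempty ((J → S) ≃ₗ[S] (Fin (Fintype.card J) → S)) :=
  ⟨LinearEquiv.funCongrLeft S S (Fintype.equivFin J).symm⟩

/-- over `ℤH` -/
theorem fpH (hS : TaskSch) {J : Type} [Fintype J] (h : J → H)
    (hc : Submonoid.closure (Set.range h) = ⊤) (m : ℕ) (hH : FPx (ZG H) (m + 2) (Tr H)) :
    FPx (ZG H) m (LinearMap.ker (psi h)) := by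
  have h1 := (hS (ZG H) (m + 1) (Tr H) (ZG H) 1 (free1 _) (KR (1 : H →* Unit)).mkQ
    (Submodule.mkQ_surjective _)).1 hH
  rw [Submodule.ker_mkQ] at h1
  have hsurj : Function.Surjective ((psi h).codRestrict (KR (1 : H →* Unit)) (psi_mem h)) := by
    rintro ⟨x, hx⟩
    obtain ⟨v, hv⟩ := psi_surj h hc x hx
    exact ⟨v, Subtype.ext hv⟩
  have h2 := (hS (ZG H) m (KR (1 : H →* Unit)) (J → ZG H) _ (freeJ _ _) _ hsurj).1 h1
  rwa [LinearMap.ker_codRestrict] at h2

theorem fpV (hE : TaskEquiv) (hV : TaskV) {N : Type} [Group N] (ι : N →* G) (p : G →* H)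
    (hi : Function.Injective ι) (hp : Function.Surjective p) (hk : ∀ g, p g = 1 ↔ ∃ n, ι n = g)
    (m : ℕ) (hN : FPx (ZG N) m (Tr N)) :
    @FPx (ZG G) _ m (ZG H) _ (Module.compHom (ZG H) (rm p)) := by
  letI : Module (ZG G) (ZG H) := Module.compHom (ZG H) (rm p)
  let L : ZG G →ₗ[ZG G] ZG H :=
    { toFun := rm p
      map_add' := map_add _
      map_smul' := fun a x => by
        rw [smul_eq_mul, map_mul]
        rfl }
  have hL : LinearMap.ker L = KR p := by
    ext x
    exact Iff.rfl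
  refine hE (ZG G) m (ZG G ⧸ KR p) (ZG H) ⟨?_⟩ (hV N G H ι p hi hk m hN)
  exact (Submodule.quotEquivOfEq _ _ hL.symm).trans
    (LinearMap.quotKerEquivOfSurjective L (rm_surj p hp))

theorem fpY (hE : TaskEquiv) (hS : TaskSch) (hR : TaskRestr) (hV : TaskV) {N J : Type} [Group N]
    [Fintype J] (ι : N →* G) (p : G →* H)
    (hi : Function.Injective ι) (hp : Function.Surjective p) (hk : ∀ g, p g = 1 ↔ ∃ n, ι n = g)
    (h : J → H) (hc : Submonoid.closure (Set.range h) = ⊤)
    (m : ℕ) (hN : FPx (ZG N) m (Tr N)) (hH : FPx (ZG H) (m + 2) (Tr H)) :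
    @FPx (ZG G) _ m (LinearMap.ker (psi h)) _ (Module.compHom _ (rm p)) := by
  letI i1 : Module (ZG G) (ZG H) := Module.compHom (ZG H) (rm p)
  letI i2 : Module (ZG G) (LinearMap.ker (psi h)) := Module.compHom _ (rm p)
  exact hR (ZG G) (ZG H) (rm p) (fun s x => rfl) (rm_surj p hp) m
    (fpV hE hV ι p hi hp hk m hN) (LinearMap.ker (psi h)) (fun s a => rfl) (fpH hS h hc m hH)

theorem TT_apply {N J : Type} [Group N] (α : J → N →* N) (ι : N →* G) (γ : J → G) (j : J)
    (x : Fin 1 → ZG G) : TT ι (γ j) (phi0 (α j)) x = fun _ => x 0 * el (γ j)⁻¹ := by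
  unfold TT
  rw [Module.Basis.constr_apply_fintype]
  funext i
  simp [phi0, vm, Subsingleton.elim i 0]

theorem dl_apply {N J : Type} [Group N] [Fintype J] (α : J → N →* N) (ι : N →* G) (γ : J → G)
    (v : J → Fin 1 → ZG G) :
    (dl (fun j => TT ι (γ j) (phi0 (α j))) v) 0 = ∑ j, (v j 0 * el (γ j)⁻¹ - v j 0) := by
  unfold dl
  rw [Finset.sum_apply]
  refine Finset.sum_congr rfl fun j _ => ?_
  rw [Pi.sub_apply, TT_apply]

theorem ext1 {x y : Fin 1 → ZG G} (h : x 0 = y 0) : x = y := by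
  funext i
  rw [Subsingleton.elim i 0]
  exact h

end StartAux

open StartAux in
theorem task_Start (hE : TaskEquiv) (hS : TaskSch) (_hX : TaskExtn) (hR : TaskRestr)
    (hK : TaskKer) (hV : TaskV) : TaskStart := by
  intro N J G H _ _ _ _ α ι p γ hGD m hN hH
  classical
  have hB : ∀ x : Fin 1 → ZG G, x ∈ Bx (rm ι) (A0 N) ↔ rm p (x 0) = 0 :=
    fun x => (hK N G H ι p hGD.ker x).trans Iff.rfl
  let T : J → (Fin 1 → ZG G) →ₗ[ZG G] (Fin 1 → ZG G) := fun j => TT ι (γ j) (phi0 (α j))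
  have hT : ∀ j x, (T j x) 0 = x 0 * el (γ j)⁻¹ := fun j x => by
    change (TT ι (γ j) (phi0 (α j)) x) 0 = _
    rw [TT_apply]
  have hdl : ∀ v : J → Fin 1 → ZG G, (dl T v) 0 = ∑ j, (v j 0 * el (γ j)⁻¹ - v j 0) :=
    dl_apply α ι γ
  have hdlp : ∀ v : J → Fin 1 → ZG G, rm p ((dl T v) 0) =
      psi (fun j => p (γ j)) (fun j => rm p (v j 0)) := by
    intro v
    rw [hdl, psi_apply, map_sum]
    refine Finset.sum_congr rfl fun j _ => ?_
    rw [map_sub, map_mul, rm_el, map_inv]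
  refine ⟨?_, ?_⟩
  · intro j b hb
    rw [hB] at hb ⊢
    rw [hT, map_mul, hb, zero_mul]
  let f : (Fin 1 → ZG G) →ₗ[ZG G] Tr G :=
    (KR (1 : G →* Unit)).mkQ.comp (LinearMap.proj (0 : Fin 1))
  have hf : ∀ x, x ∈ LinearMap.ker f ↔ rm (1 : G →* Unit) (x 0) = 0 := by
    intro x
    rw [LinearMap.mem_ker]
    change (KR (1 : G →* Unit)).mkQ (x 0) = 0 ↔ _
    rw [Submodule.mkQ_apply, Submodule.Quotient.mk_eq_zero]
    exact Iff.rfl
  have hfs : Function.Surjective f := by
    intro y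
    obtain ⟨x, hx⟩ := Submodule.mkQ_surjective (KR (1 : G →* Unit)) y
    exact ⟨fun _ => x, hx⟩
  have hBZ : Bx (rm ι) (A0 N) ≤ LinearMap.ker f := by
    intro x hx
    rw [hf, ← rm_rm p, (hB x).1 hx, map_zero]
  have hdlZ : ∀ v : J → Fin 1 → ZG G, dl T v ∈ LinearMap.ker f := by
    intro v
    rw [hf, ← rm_rm p, hdlp]
    exact psi_mem _ _
  let dlm : (J → Fin 1 → ZG G) →ₗ[ZG G] (Fin 1 → ZG G) :=
    ∑ j, ((T j - LinearMap.id).comp (LinearMap.proj j))
  have hdlm : ∀ v, dlm v = dl T v := by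
    intro v
    simp only [dlm, dl, LinearMap.sum_apply]
    rfl
  let lam : (J → Fin 1 → ZG G) →ₗ[ZG G] LinearMap.ker f :=
    dlm.codRestrict _ (fun v => by rw [hdlm]; exact hdlZ v)
  have hlam : ∀ v, (lam v : Fin 1 → ZG G) = dl T v := fun v => hdlm v
  let β : Bx (rm ι) (A0 N) →ₗ[ZG G] LinearMap.ker f := Submodule.inclusion hBZ
  let π : (J → Bx (rm ι) (A0 N)) →ₗ[ZG G] (J → Fin 1 → ZG G) :=
    (Bx (rm ι) (A0 N)).subtype.compLeft J
  have hπ : ∀ v j, π v j = (v j : Fin 1 → ZG G) := fun v j => rfl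
  have hcomap : ∀ x, x ∈ (LinearMap.range β).comap lam ↔
      psi (fun j => p (γ j)) (fun j => rm p (x j 0)) = 0 := by
    intro x
    rw [Submodule.mem_comap, LinearMap.mem_range, ← hdlp, ← hB]
    constructor
    · rintro ⟨b, hb⟩
      have : (b : Fin 1 → ZG G) = dl T x := by
        rw [← hlam, ← hb]; rfl
      rw [← this]
      exact b.2
    · intro h
      exact ⟨⟨dl T x, h⟩, Subtype.ext (hlam x).symm⟩
  letI i2 : Module (ZG G) (LinearMap.ker (psi (fun j => p (γ j)))) := Module.compHom _ (rm p)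
  let η : (LinearMap.range β).comap lam →ₗ[ZG G] LinearMap.ker (psi (fun j => p (γ j))) :=
    { toFun := fun x => ⟨fun j => rm p ((x : J → Fin 1 → ZG G) j 0), (hcomap x).1 x.2⟩
      map_add' := fun x y => by
        apply Subtype.ext
        funext j
        exact map_add (rm p) _ _
      map_smul' := fun a x => by
        apply Subtype.ext
        funext j
        exact map_mul (rm p) _ _ }
  have hη : ∀ x j, (η x : J → ZG H) j = rm p ((x : J → Fin 1 → ZG G) j 0) := fun x j => rfl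
  refine ⟨J → Fin 1 → ZG G, LinearMap.ker f, LinearMap.ker (psi (fun j => p (γ j))),
    inferInstance, inferInstance, inferInstance, inferInstance, inferInstance, i2,
    β, lam, π, η, Fintype.card J, ?_, ?_, ?_, ?_, ?_, ?_, ?_, ?_, ?_⟩
  · obtain ⟨e⟩ := freeJ (ZG G) J
    exact ⟨(LinearEquiv.piCongrRight fun _ => LinearEquiv.funUnique (Fin 1) (ZG G) (ZG G)).trans e⟩
  · exact Submodule.inclusion_injective hBZ
  · intro v w hvw
    funext j
    apply Subtype.ext
    rw [← hπ, ← hπ, hvw]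
  · rintro ⟨z, hz⟩
    have hz0 := (hf z).1 hz
    rw [← rm_rm p] at hz0
    obtain ⟨v, hv⟩ := psi_surj (fun j => p (γ j)) hGD.gen (rm p (z 0)) hz0
    have hch : ∀ j, ∃ x, rm p x = v j := fun j => rm_surj p hGD.surj (v j)
    choose x hx using hch
    let w : J → Fin 1 → ZG G := fun j _ => x j
    have hb : z - dl T w ∈ Bx (rm ι) (A0 N) := by
      rw [hB, Pi.sub_apply, map_sub, hdlp, ← hv, sub_eq_zero]
      congr 1
      funext j
      exact (hx j).symm
    refine ⟨⟨z - dl T w, hb⟩, w, ?_⟩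
    apply Subtype.ext
    change z = (z - dl T w) + (lam w : Fin 1 → ZG G)
    rw [hlam, sub_add_cancel]
  · intro v b hvb
    apply Subtype.ext
    rw [hlam]
    exact hvb.symm
  · rintro ⟨y, hy⟩
    have hch : ∀ j, ∃ x, rm p x = y j := fun j => rm_surj p hGD.surj (y j)
    choose x hx using hch
    have hmem : (fun j (_ : Fin 1) => x j) ∈ (LinearMap.range β).comap lam := by
      rw [hcomap]
      have : (fun j => rm p (x j)) = y := funext hx
      change psi (fun j => p (γ j)) (fun j => rm p (x j)) = 0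
      rw [this]
      exact hy
    refine ⟨⟨_, hmem⟩, ?_⟩
    apply Subtype.ext
    funext j
    exact hx j
  · intro x
    constructor
    · intro h
      have h1 : ∀ j, (x : J → Fin 1 → ZG G) j ∈ Bx (rm ι) (A0 N) := by
        intro j
        rw [hB, ← hη, h]
        rfl
      exact ⟨fun j => ⟨_, h1 j⟩, rfl⟩
    · rintro ⟨v, hv⟩
      apply Subtype.ext
      funext j
      rw [hη, ← hv, hπ, (hB _).1 (v j).2]
      rfl
  · exact fpY hE hS hR hV ι p hGD.inj hGD.surj hGD.ker (fun j => p (γ j)) hGD.gen m hN hH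
  · intro k
    exact (hS (ZG G) k (Tr G) (Fin 1 → ZG G) 1 ⟨LinearEquiv.refl _ _⟩ f hfs).symm

end Pool.Agent.H653R4
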