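import Pool.Agent.H653R4.Defs

set_option autoImplicit false
set_option maxHeartbeats 4000000

/-! Task Step: one step of the state machine. -/

namespace Pool.Agent.H653R4.StepProof

open Pool.Agent.H653R4

section
variable {S J : Type} [Ring S] [Fintype J]

/-- `dl` as a linear map -/
def dlL {F : Type} [AddCommGroup F] [Module S F] (T : J → F →ₗ[S] F) : (J → F) →ₗ[S] F :=
  ∑ j, ((T j).comp (LinearMap.proj j : (J → F) →ₗ[S] F) - (LinearMap.proj j : (J → F) →ₗ[S] F))

theorem dlL_apply {F : Type} [AddCommGroup F] [Module S F] (T : J → F →ₗ[S] F) (v : J → F) :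
    dlL T v = dl T v := by
  simp only [dlL, dl, LinearMap.sum_apply, LinearMap.sub_apply, LinearMap.comp_apply,
    LinearMap.proj_apply]

theorem free_equiv {E : Type} [AddCommGroup E] [Module S E] (c a a' : ℕ)
    (e : E ≃ₗ[S] (Fin a → S)) :
    Nonempty (((Fin c → S) × E) ≃ₗ[S] (Fin (c + a) → S)) ∧
    ∃ n, Nonempty (((J → Fin c → S) × (Fin a' → S)) ≃ₗ[S] (Fin n → S)) := by
  constructor
  · exact ⟨((LinearEquiv.refl S (Fin c → S)).prodCongr e).trans
      ((LinearEquiv.sumArrowLequivProdArrow (Fin c) (Fin a) S S).symm.trans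
      (LinearEquiv.funCongrLeft S S finSumFinEquiv.symm))⟩
  · refine ⟨Fintype.card (J × Fin c ⊕ Fin a'), ⟨?_⟩⟩
    exact (((LinearEquiv.curry S S J (Fin c)).symm.prodCongr (LinearEquiv.refl S (Fin a' → S))).trans
      ((LinearEquiv.sumArrowLequivProdArrow (J × Fin c) (Fin a') S S).symm.trans
      (LinearEquiv.funCongrLeft S S (Fintype.equivFin (J × Fin c ⊕ Fin a')).symm)))

end

theorem main (hS : TaskSch) : TaskStep := by
  intro S J _ _ M _ _ i m c c' B T B' T' hstep hst
  obtain ⟨D, hDr, hDk, hDT⟩ := hstep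
  obtain ⟨hTB, E, Z, Y, _, _, _, _, _, _, β, lam, π, η, a, ⟨eE⟩, hβ, hπ, hZ, hcomp, hη, hηk, hY,
    hZM⟩ := hst
  obtain ⟨a', ξ0, hξ0, hker⟩ := hY
  -- the map onto `B`
  have hDB : ∀ y, D y ∈ B := fun y => hDr ▸ LinearMap.mem_range_self D y
  set D1 : (Fin c' → S) →ₗ[S] B := D.codRestrict B hDB with hD1
  have hD1s : Function.Surjective D1 := by
    rintro ⟨b, hb⟩
    rw [← hDr] at hb
    obtain ⟨y, hy⟩ := hb
    exact ⟨y, Subtype.ext hy⟩
  have hD1c : ∀ y, ((D1 y : B) : Fin c → S) = D y := fun y => rfl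
  have hD10 : ∀ y, D1 y = 0 ↔ y ∈ B' := by
    intro y
    rw [← hDk, LinearMap.mem_ker]
    constructor
    · intro h
      rw [← hD1c, h]
      rfl
    · intro h
      exact Subtype.ext h
  -- `D` on families
  set DJ : (J → Fin c' → S) →ₗ[S] (J → B) := LinearMap.pi (fun j => D1.comp (LinearMap.proj j)) with hDJ
  have hDJa : ∀ z j, DJ z j = D1 (z j) := fun z j => rfl
  have hDdl : ∀ z : J → Fin c' → S, ((D1 (dl T' z) : B) : Fin c → S) =
      dl T (fun j => ((DJ z j : B) : Fin c → S)) := by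
    intro z
    rw [hD1c]
    unfold dl
    rw [map_sum]
    apply Finset.sum_congr rfl
    intro j _
    rw [map_sub, hDT]
    rfl
  have hlp : ∀ z : J → Fin c' → S, lam (π (DJ z)) = β (D1 (dl T' z)) :=
    fun z => hcomp _ _ (hDdl z)
  -- the lift `ξ`
  obtain ⟨ξ, hξ⟩ := Module.projective_lifting_property η ξ0 hη
  have hξ' : ∀ x, η (ξ x) = ξ0 x := fun x => by
    rw [← hξ]
    rfl
  -- the lift `g`
  have hg1 : ∀ x, lam (ξ x : E) ∈ LinearMap.range (β.comp D1) := by
    intro x
    obtain ⟨b, hb⟩ := (ξ x).2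
    obtain ⟨y, rfl⟩ := hD1s b
    exact ⟨y, hb⟩
  obtain ⟨g, hg⟩ := Module.projective_lifting_property (β.comp D1).rangeRestrict
    ((lam.comp ((Submodule.subtype _).comp ξ)).codRestrict (LinearMap.range (β.comp D1)) hg1)
    (LinearMap.surjective_rangeRestrict _)
  have hg' : ∀ x, β (D1 (g x)) = lam (ξ x : E) := by
    intro x
    have := congrArg Subtype.val (DFunLike.congr_fun hg x)
    exact this
  -- the module `Z'`
  set f : ((Fin c' → S) × E) →ₗ[S] Z :=
    lam.comp (LinearMap.snd S _ _) - (β.comp D1).comp (LinearMap.fst S _ _) with hf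
  have hfa : ∀ y e, f (y, e) = lam e - β (D1 y) := fun y e => rfl
  have hfs : Function.Surjective f := by
    intro z
    obtain ⟨b, x, hbx⟩ := hZ z
    obtain ⟨y, rfl⟩ := hD1s b
    refine ⟨(-y, x), ?_⟩
    rw [hfa, map_neg, map_neg, hbx]
    abel
  obtain ⟨⟨e1⟩, n', ⟨e2⟩⟩ := free_equiv (S := S) (J := J) c' a a' eE
  have hZ' : ∀ k, FPx S k (LinearMap.ker f) ↔ FPx S (k + (i + 1) + 1) M := by
    intro k
    have h1 := hS S k Z ((Fin c' → S) × E) (c' + a) ⟨e1⟩ f hfs
    rw [← h1, hZM]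
    have : k + 1 + i + 1 = k + (i + 1) + 1 := by ring
    rw [this]
  -- the maps
  have hlam : ∀ z x, ((dl T' z + g x, π (DJ z) + (ξ x : E)) : (Fin c' → S) × E) ∈ LinearMap.ker f := by
    intro z x
    rw [LinearMap.mem_ker, hfa, map_add, map_add, map_add, hlp, hg']
    abel
  set lam' : ((J → Fin c' → S) × (Fin a' → S)) →ₗ[S] LinearMap.ker f :=
    LinearMap.codRestrict (LinearMap.ker f)
      (LinearMap.prod ((dlL T').comp (LinearMap.fst S _ _) + g.comp (LinearMap.snd S _ _))
        ((π.comp DJ).comp (LinearMap.fst S _ _) +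
          ((Submodule.subtype _).comp ξ).comp (LinearMap.snd S _ _)))
      (by
        rintro ⟨z, x⟩
        have := hlam z x
        rw [← dlL_apply] at this
        exact this) with hlam'
  have hlam'a : ∀ z x, ((lam' (z, x) : LinearMap.ker f) : (Fin c' → S) × E) =
      (dl T' z + g x, π (DJ z) + (ξ x : E)) := by
    intro z x
    rw [← dlL_apply]
    rfl
  have hβm : ∀ b : B', (((b : Fin c' → S), (0 : E)) : (Fin c' → S) × E) ∈ LinearMap.ker f := by
    intro b
    rw [LinearMap.mem_ker, hfa, (hD10 _).2 b.2]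
    simp
  set β' : B' →ₗ[S] LinearMap.ker f :=
    LinearMap.codRestrict (LinearMap.ker f)
      (LinearMap.prod (Submodule.subtype B') 0) hβm with hβ'
  have hβ'a : ∀ b : B', ((β' b : LinearMap.ker f) : (Fin c' → S) × E) = ((b : Fin c' → S), (0 : E)) :=
    fun b => rfl
  set π' : (J → B') →ₗ[S] ((J → Fin c' → S) × (Fin a' → S)) :=
    LinearMap.prod (LinearMap.pi (fun j => (Submodule.subtype B').comp (LinearMap.proj j))) 0 with hπ'
  have hπ'a : ∀ v : J → B', π' v = ((fun j => (v j : Fin c' → S)), (0 : Fin a' → S)) := fun v => rfl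
  -- the comap
  have hI : ∀ z x, ((z, x) : (J → Fin c' → S) × (Fin a' → S)) ∈ (LinearMap.range β').comap lam' ↔
      π (DJ z) + (ξ x : E) = 0 := by
    intro z x
    rw [Submodule.mem_comap, LinearMap.mem_range]
    constructor
    · rintro ⟨b, hb⟩
      have := congrArg Subtype.val hb
      rw [hβ'a, hlam'a] at this
      exact (congrArg Prod.snd this).symm
    · intro h
      have h1 := hlam z x
      rw [h, LinearMap.mem_ker, hfa, map_zero, zero_sub, neg_eq_zero] at h1
      have h2 : D1 (dl T' z + g x) = 0 := hβ (by rw [h1, map_zero])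
      refine ⟨⟨dl T' z + g x, (hD10 _).1 h2⟩, ?_⟩
      apply Subtype.ext
      rw [hβ'a, hlam'a, h]
  have hIk : ∀ p : ((LinearMap.range β').comap lam'),
      (LinearMap.snd S (J → Fin c' → S) (Fin a' → S)) p.1 ∈ LinearMap.ker ξ0 := by
    rintro ⟨⟨z, x⟩, hp⟩
    have h1 := (hI z x).1 hp
    show x ∈ LinearMap.ker ξ0
    rw [LinearMap.mem_ker, ← hξ', hηk]
    refine ⟨-DJ z, ?_⟩
    rw [map_neg]
    exact neg_eq_of_add_eq_zero_right h1
  set η' : ((LinearMap.range β').comap lam') →ₗ[S] LinearMap.ker ξ0 :=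
    LinearMap.codRestrict (LinearMap.ker ξ0)
      ((LinearMap.snd S (J → Fin c' → S) (Fin a' → S)).comp (Submodule.subtype _)) hIk with hη'
  refine ⟨?_, ((J → Fin c' → S) × (Fin a' → S)), LinearMap.ker f, LinearMap.ker ξ0,
    inferInstance, inferInstance, inferInstance, inferInstance, inferInstance, inferInstance,
    β', lam', π', η', n', ⟨e2⟩, ?_, ?_, ?_, ?_, ?_, ?_, hker, hZ'⟩
  · intro j b hb
    rw [← hDk, LinearMap.mem_ker] at hb ⊢
    rw [hDT, hb, map_zero]
  · intro b b' h
    have := congrArg Subtype.val h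
    rw [hβ'a, hβ'a] at this
    exact Subtype.ext (congrArg Prod.fst this)
  · intro v v' h
    rw [hπ'a, hπ'a] at h
    funext j
    exact Subtype.ext (congrFun (congrArg Prod.fst h) j)
  · rintro ⟨⟨y, e⟩, hye⟩
    have h1 : lam e = β (D1 y) := by
      have := hye
      rw [LinearMap.mem_ker, hfa, sub_eq_zero] at this
      exact this
    have heI : e ∈ (LinearMap.range β).comap lam := by
      rw [Submodule.mem_comap, h1]
      exact LinearMap.mem_range_self _ _
    obtain ⟨x, hx⟩ := hξ0 (η ⟨e, heI⟩)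
    have h2 : η (⟨e, heI⟩ - ξ x) = 0 := by rw [map_sub, hξ', hx, sub_self]
    obtain ⟨v, hv⟩ := (hηk _).1 h2
    obtain ⟨z, hz⟩ : ∃ z : J → Fin c' → S, DJ z = v := by
      choose z hz using fun j => hD1s (v j)
      exact ⟨z, funext hz⟩
    have h3 : π (DJ z) + (ξ x : E) = e := by
      rw [hz, hv]
      show (e - (ξ x : E)) + (ξ x : E) = e
      abel
    have h4 := hlam z x
    rw [LinearMap.mem_ker, hfa, h3, h1, sub_eq_zero] at h4
    have h5 := hβ h4
    have h6 : D1 (y - (dl T' z + g x)) = 0 := by rw [map_sub, h5, sub_self]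
    refine ⟨⟨y - (dl T' z + g x), (hD10 _).1 h6⟩, (z, x), ?_⟩
    apply Subtype.ext
    rw [Submodule.coe_add, hβ'a, hlam'a, h3]
    show (y, e) = (y - (dl T' z + g x) + (dl T' z + g x), 0 + e)
    rw [sub_add_cancel, zero_add]
  · intro v b hb
    apply Subtype.ext
    rw [hπ'a, hlam'a, hβ'a, map_zero, map_zero, add_zero, ← hb]
    have : DJ (fun j => (v j : Fin c' → S)) = 0 := by
      funext j
      rw [hDJa]
      exact (hD10 _).2 (v j).2
    rw [this, map_zero]
    simp
  · rintro ⟨x, hx⟩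
    have h1 : η (ξ x) = 0 := by rw [hξ']; exact hx
    obtain ⟨v, hv⟩ := (hηk _).1 h1
    obtain ⟨z, hz⟩ : ∃ z : J → Fin c' → S, DJ z = v := by
      choose z hz using fun j => hD1s (v j)
      exact ⟨z, funext hz⟩
    refine ⟨⟨(-z, x), (hI _ _).2 ?_⟩, ?_⟩
    · rw [map_neg, map_neg, hz, hv, neg_add_cancel]
    · exact Subtype.ext rfl
  · rintro ⟨⟨z, x⟩, hp⟩
    have h1 := (hI z x).1 hp
    constructor
    · intro h
      have hx : x = 0 := congrArg Subtype.val h
      rw [hx, map_zero, Submodule.coe_zero, add_zero] at h1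
      have h2 : DJ z = 0 := hπ (by rw [h1, map_zero])
      refine ⟨fun j => ⟨z j, (hD10 _).1 ?_⟩, ?_⟩
      · have := congrFun h2 j
        rw [hDJa] at this
        exact this
      · show π' _ = (z, x)
        rw [hπ'a, hx]
    · rintro ⟨v, hv⟩
      rw [hπ'a] at hv
      have hx : (0 : Fin a' → S) = x := congrArg Prod.snd hv
      apply Subtype.ext
      exact hx.symm

end Pool.Agent.H653R4.StepProof

namespace Pool.Agent.H653R4

theorem task_Step (hS : TaskSch) : TaskStep := StepProof.main hS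

end Pool.Agent.H653R4
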