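import Pool.Agent.H653R4.Defs

set_option autoImplicit false

namespace Pool.Agent.H653R4

theorem TTaux_key {N G : Type} [Group N] [Group G] (ι : N →* G) (γ : G) (α : N →* N)
    (h : ∀ n, ι (α n) = γ * ι n * γ⁻¹) (a : ZG N) :
    rm ι a * el γ⁻¹ = el γ⁻¹ * rm ι (rm α a) := by
  induction a using MonoidAlgebra.induction_on with
  | of n =>
    simp only [rm, el, MonoidAlgebra.of_apply, MonoidAlgebra.mapDomainRingHom_apply,
      MonoidAlgebra.mapDomain_single, MonoidAlgebra.single_mul_single, mul_one]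
    rw [h n]
    congr 1
    group
  | add f g hf hg => rw [map_add, add_mul, hf, hg, map_add, map_add, mul_add]
  | smul r f hf =>
    rw [map_zsmul, smul_mul_assoc, hf, map_zsmul, map_zsmul, mul_smul_comm]

theorem TTaux_vm_sum {R S : Type} [Ring R] [Ring S] (ρ : R →+* S) {c k : ℕ}
    (f : Fin k → Fin c → R) : vm ρ (∑ i, f i) = ∑ i, vm ρ (f i) := by
  funext j
  simp [vm, Finset.sum_apply]

theorem TTaux_vm_smul {R S : Type} [Ring R] [Ring S] (ρ : R →+* S) {c : ℕ} (a : R)
    (x : Fin c → R) : vm ρ (a • x) = ρ a • vm ρ x := by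
  funext j
  simp [vm]

theorem task_TT : TaskTT := by
  intro N G _ _ ι γ α h c φ hφ x
  have hx : x = ∑ i, x i • (Pi.single i (1 : ZG N) : Fin c → ZG N) := by
    funext j
    simp [Finset.sum_apply, Pi.single_apply]
  have hφx : φ x = ∑ i, rm α (x i) • φ (Pi.single i 1) := by
    conv_lhs => rw [hx]
    rw [map_sum]
    exact Finset.sum_congr rfl fun i _ => hφ _ _
  rw [hφx, TTaux_vm_sum, Finset.smul_sum, TT, Module.Basis.constr_apply_fintype]
  refine Finset.sum_congr rfl fun i _ => ?_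
  rw [TTaux_vm_smul, Pi.basisFun_equivFun, LinearEquiv.refl_apply, ← mul_smul, ← mul_smul]
  congr 1
  exact TTaux_key ι γ α h (x i)

end Pool.Agent.H653R4
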