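import Pool.Agent.H653R4.Defs

set_option autoImplicit false

/-! TaskV: finiteness of the induced module (helper165) -/

namespace Pool.Agent.H653R4

theorem V_lemma (hIC : TaskIC) {N G : Type} [Group N] [Group G] (ι : N →* G)
    (hι : Function.Injective ι) :
    ∀ (m c : ℕ) (A : Submodule (ZG N) (Fin c → ZG N)), FPx (ZG N) m A →
      FPx (ZG G) m (Bx (rm ι) A) := by
  intro m
  induction m with
  | zero => intro c A _; trivial
  | succ m ih =>
    intro c A hA
    obtain ⟨k, f, hf, hker⟩ := hA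
    obtain ⟨D, -, hr, hk⟩ := hIC N G ι hι c k (A.subtype.comp f)
    have h1 : LinearMap.range (A.subtype.comp f) = A := by
      rw [LinearMap.range_comp, LinearMap.range_eq_top.2 hf, Submodule.map_top,
        Submodule.range_subtype]
    have h2 : LinearMap.ker (A.subtype.comp f) = LinearMap.ker f := by
      rw [LinearMap.ker_comp, Submodule.ker_subtype]
      rfl
    rw [h1] at hr
    rw [h2] at hk
    refine ⟨k, D.codRestrict (Bx (rm ι) A)
      (fun x => by rw [← hr]; exact LinearMap.mem_range_self D x), ?_, ?_⟩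
    · rintro ⟨y, hy⟩
      have hy' : y ∈ LinearMap.range D := by rw [hr]; exact hy
      obtain ⟨x, rfl⟩ := hy'
      exact ⟨x, rfl⟩
    · rw [LinearMap.ker_codRestrict, hk]
      exact ih k _ hker

theorem task_V (hE : TaskEquiv) (hS : TaskSch) (hIC : TaskIC) (hK : TaskKer) (h0 : TaskN0) :
    TaskV := by
  intro N G H _ _ _ ι p hι hp m hm
  cases m with
  | zero => trivial
  | succ m =>
    have hA : FPx (ZG N) m (A0 N) :=
      (h0 N Empty (fun j => j.elim) ∅ (fun w hw => absurd hw (Set.notMem_empty w))).2 m hm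
    have hB : FPx (ZG G) m (Bx (rm ι) (A0 N)) := V_lemma hIC ι hι m 1 (A0 N) hA
    have hsurj : Function.Surjective
        ((KR p).mkQ.comp (LinearMap.proj 0 : (Fin 1 → ZG G) →ₗ[ZG G] ZG G)) := by
      intro y
      obtain ⟨x, rfl⟩ := Submodule.mkQ_surjective _ y
      exact ⟨fun _ => x, rfl⟩
    refine (hS (ZG G) m (ZG G ⧸ KR p) (Fin 1 → ZG G) 1 ⟨LinearEquiv.refl _ _⟩
      ((KR p).mkQ.comp (LinearMap.proj 0 : (Fin 1 → ZG G) →ₗ[ZG G] ZG G)) hsurj).2 ?_
    have hk : LinearMap.ker ((KR p).mkQ.comp (LinearMap.proj 0 : (Fin 1 → ZG G) →ₗ[ZG G] ZG G)) =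
        Bx (rm ι) (A0 N) := by
      ext x
      rw [hK N G H ι p hp x, LinearMap.mem_ker, LinearMap.comp_apply, Submodule.mkQ_apply,
        Submodule.Quotient.mk_eq_zero]
      rfl
    rw [hk]
    exact hB

end Pool.Agent.H653R4
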