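import Pool.Agent.H653R4.Defs

set_option autoImplicit false
set_option maxHeartbeats 4000000

/-! n-(n+1)-(n+2) project: task Word (helper34) -/

namespace Pool.Agent.H653R4

namespace WordAux

theorem vm_smul {R S : Type} [Ring R] [Ring S] (ρ : R →+* S) {c : ℕ} (a : R) (x : Fin c → R) :
    vm ρ (a • x) = ρ a • vm ρ x := by
  funext i
  simp [vm]

theorem vm_add {R S : Type} [Ring R] [Ring S] (ρ : R →+* S) {c : ℕ} (x y : Fin c → R) :
    vm ρ (x + y) = vm ρ x + vm ρ y := by
  funext i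
  simp [vm]

theorem vm_zero {R S : Type} [Ring R] [Ring S] (ρ : R →+* S) {c : ℕ} :
    vm ρ (0 : Fin c → R) = 0 := by
  funext i
  simp [vm]

theorem vm_neg {R S : Type} [Ring R] [Ring S] (ρ : R →+* S) {c : ℕ} (x : Fin c → R) :
    vm ρ (-x) = -vm ρ x := by
  funext i
  simp [vm]

theorem dl_zero {S J : Type} [Ring S] [Fintype J] {F : Type} [AddCommGroup F] [Module S F]
    (T : J → F →ₗ[S] F) : dl T (fun _ => 0) = 0 := by
  simp [dl]

theorem dl_add {S J : Type} [Ring S] [Fintype J] {F : Type} [AddCommGroup F] [Module S F]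
    (T : J → F →ₗ[S] F) (v v' : J → F) : dl T (fun j => v j + v' j) = dl T v + dl T v' := by
  unfold dl
  rw [← Finset.sum_add_distrib]
  refine Finset.sum_congr rfl fun j _ => ?_
  rw [map_add, add_sub_add_comm]

theorem dl_smul {S J : Type} [Ring S] [Fintype J] {F : Type} [AddCommGroup F] [Module S F]
    (T : J → F →ₗ[S] F) (s : S) (v : J → F) : dl T (fun j => s • v j) = s • dl T v := by
  unfold dl
  rw [Finset.smul_sum]
  refine Finset.sum_congr rfl fun j _ => ?_
  rw [map_smul, smul_sub]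

theorem dl_single {S J : Type} [Ring S] [Fintype J] [DecidableEq J] {F : Type} [AddCommGroup F]
    [Module S F] (T : J → F →ₗ[S] F) (j : J) (y : F) :
    dl T (fun i => if i = j then y else 0) = T j y - y := by
  unfold dl
  rw [Finset.sum_eq_single j]
  · simp
  · intro i _ hij
    simp [hij]
  · intro h
    exact absurd (Finset.mem_univ j) h

theorem el_mul {G : Type} [Group G] (g h : G) : el (g * h) = el g * el h := by
  simp [el]

theorem el_one {G : Type} [Group G] : el (1 : G) = 1 :=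
  map_one (MonoidAlgebra.of ℤ G)

theorem rm_el {G H : Type} [Group G] [Group H] (p : G →* H) (g : G) : rm p (el g) = el (p g) := by
  simp [rm, el]

end WordAux

open WordAux

theorem task_Word (hTT : TaskTT) : TaskWord := by
  classical
  intro N J G H _ _ _ _ α ι p γ hG c A φ hsl hpres
  set B : Submodule (ZG G) (Fin c → ZG G) := Bx (rm ι) A with hB
  set T : J → (Fin c → ZG G) →ₗ[ZG G] (Fin c → ZG G) := fun j => TT ι (γ j) (φ j) with hT
  have hvm : ∀ a ∈ A, vm (rm ι) a ∈ B := fun a ha =>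
    Submodule.subset_span ⟨a, ha, rfl⟩
  have hTv : ∀ (j : J) (x : Fin c → ZG N), T j (vm (rm ι) x) = el (γ j)⁻¹ • vm (rm ι) (φ j x) :=
    fun j x => hTT N G ι (γ j) (α j) (hG.conj j) c (φ j) (hsl j) x
  have hpw : ∀ (w : List J), ∀ a ∈ A, pw φ w a ∈ A := by
    intro w
    induction w with
    | nil => intro a ha; exact ha
    | cons j w ih => intro a ha; exact hpres j _ (ih a ha)
  have part1 : ∀ (w : List J) (x : ZG G), ∀ a ∈ A, ∃ v : J → (Fin c → ZG G), (∀ j, v j ∈ B) ∧
      (x * el (w.map γ).prod) • vm (rm ι) a = x • vm (rm ι) (pw φ w a) + dl T v := by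
    intro w
    induction w with
    | nil =>
      intro x a ha
      refine ⟨fun _ => 0, fun _ => B.zero_mem, ?_⟩
      rw [dl_zero, add_zero, List.map_nil, List.prod_nil, el_one, mul_one]
      rfl
    | cons j w ih =>
      intro x a ha
      obtain ⟨v, hv, e⟩ := ih (x * el (γ j)) a ha
      set a' := pw φ w a with ha'
      have ha'A : a' ∈ A := hpw w a ha
      set y : Fin c → ZG G := (x * el (γ j)) • vm (rm ι) a' with hy
      have hyB : y ∈ B := B.smul_mem _ (hvm a' ha'A)
      have hTy : T j y = x • vm (rm ι) (φ j a') := by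
        rw [hy, map_smul, hTv, ← mul_smul, mul_assoc, ← el_mul, mul_inv_cancel, el_one, mul_one]
      refine ⟨fun i => (if i = j then -y else 0) + v i, fun i => ?_, ?_⟩
      · refine B.add_mem ?_ (hv i)
        split_ifs
        · exact B.neg_mem hyB
        · exact B.zero_mem
      · rw [dl_add, dl_single, List.map_cons, List.prod_cons, el_mul, ← mul_assoc, e, map_neg, hTy]
        show y + dl T v = x • vm (rm ι) (φ j a') + (-(x • vm (rm ι) (φ j a')) - -y + dl T v)
        abel
  refine ⟨part1, ?_⟩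
  have key : ∀ (g : G), ∀ a ∈ A, ∃ a' ∈ A, ∃ v : J → (Fin c → ZG G), (∀ j, v j ∈ B) ∧
      el g • vm (rm ι) a = vm (rm ι) a' + dl T v := by
    intro g a ha
    have hw : ∃ w : List J, p ((w.map γ).prod) = p g := by
      have h1 : p g ∈ Submonoid.closure (Set.range fun j => p (γ j)) := by
        rw [hG.gen]; exact Submonoid.mem_top _
      refine Submonoid.closure_induction (motive := fun y _ => ∃ w : List J, p ((w.map γ).prod) = y)
        ?_ ?_ ?_ h1
      · rintro _ ⟨j, rfl⟩
        exact ⟨[j], by simp⟩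
      · exact ⟨[], by simp⟩
      · rintro y z _ _ ⟨w, hw⟩ ⟨w', hw'⟩
        exact ⟨w ++ w', by rw [List.map_append, List.prod_append, map_mul, hw, hw']⟩
    obtain ⟨w, hw⟩ := hw
    obtain ⟨n, hn⟩ := (hG.ker ((w.map γ).prod⁻¹ * g)).1 (by rw [map_mul, map_inv, hw]; simp)
    have hg : g = (w.map γ).prod * ι n := by rw [hn]; simp
    have ha2 : el n • a ∈ A := A.smul_mem _ ha
    obtain ⟨v, hv, e⟩ := part1 w 1 (el n • a) ha2
    refine ⟨pw φ w (el n • a), hpw w _ ha2, v, hv, ?_⟩
    rw [one_mul, one_smul, vm_smul, rm_el, ← mul_smul, ← el_mul, ← hg] at e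
    exact e
  have key2 : ∀ (s : ZG G), ∀ a ∈ A, ∃ a' ∈ A, ∃ v : J → (Fin c → ZG G), (∀ j, v j ∈ B) ∧
      s • vm (rm ι) a = vm (rm ι) a' + dl T v := by
    intro s a ha
    induction s using MonoidAlgebra.induction_on with
    | of g => exact key g a ha
    | add s t hs ht =>
      obtain ⟨a1, h1, v1, k1, e1⟩ := hs
      obtain ⟨a2, h2, v2, k2, e2⟩ := ht
      refine ⟨a1 + a2, A.add_mem h1 h2, fun j => v1 j + v2 j, fun j => B.add_mem (k1 j) (k2 j), ?_⟩
      rw [add_smul, e1, e2, vm_add, dl_add]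
      abel
    | smul r s hs =>
      obtain ⟨a1, h1, v1, k1, e1⟩ := hs
      refine ⟨r • a1, A.toAddSubgroup.zsmul_mem h1 r, fun j => r • v1 j,
        fun j => B.toAddSubgroup.zsmul_mem (k1 j) r, ?_⟩
      have h3 : vm (rm ι) (r • a1) = r • vm (rm ι) a1 := by
        funext i
        simp [vm]
      have h4 : dl T (fun j => r • v1 j) = r • dl T v1 := by
        unfold dl
        rw [Finset.smul_sum]
        refine Finset.sum_congr rfl fun j _ => ?_
        rw [map_zsmul, smul_sub]
      rw [smul_assoc, e1, h3, h4, smul_add]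
  intro b hb
  refine Submodule.span_induction (p := fun b _ => ∃ a ∈ A, ∃ v : J → (Fin c → ZG G),
    (∀ j, v j ∈ B) ∧ b = vm (rm ι) a + dl T v) ?_ ?_ ?_ ?_ hb
  · rintro _ ⟨a, ha, rfl⟩
    refine ⟨a, ha, fun _ => 0, fun _ => B.zero_mem, ?_⟩
    rw [dl_zero, add_zero]
  · refine ⟨0, A.zero_mem, fun _ => 0, fun _ => B.zero_mem, ?_⟩
    rw [dl_zero, add_zero, vm_zero]
  · rintro x y _ _ ⟨a1, h1, v1, k1, e1⟩ ⟨a2, h2, v2, k2, e2⟩
    refine ⟨a1 + a2, A.add_mem h1 h2, fun j => v1 j + v2 j, fun j => B.add_mem (k1 j) (k2 j), ?_⟩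
    rw [e1, e2, vm_add, dl_add]
    abel
  · rintro s x _ ⟨a1, h1, v1, k1, e1⟩
    obtain ⟨a2, h2, v2, k2, e2⟩ := key2 s a1 h1
    refine ⟨a2, h2, fun j => v2 j + s • v1 j, fun j => B.add_mem (k2 j) (B.smul_mem s (k1 j)), ?_⟩
    rw [e1, smul_add, e2, dl_add, dl_smul, add_assoc]

end Pool.Agent.H653R4
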